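import Pool.Agent.H465.PT.W

/-!
# Almost all members of a family
-/

set_option autoImplicit false

open MeasureTheory Metric Set Filter Topology
open scoped Real ENNReal ComplexConjugate

namespace Pool.Agent.H465.PT

open Pool.Agent.H465.EQ

/-- the points off the line -/
def offL (δ T : ℝ) : Set ℂ := {s : ℂ | δ ≤ |s.re - 1 / 2| ∧ ‖s‖ ≤ T}

lemma offL_mono {δ δ' T T' : ℝ} (h1 : δ' ≤ δ) (h2 : T ≤ T') : offL δ T ⊆ offL δ' T' :=
  fun _ hs => ⟨h1.trans hs.1, hs.2.trans h2⟩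

lemma nz_offL {f : ℂ → ℂ} (hf : Differentiable ℂ f) (h0 : f 2 ≠ 0) {δ δ' T T' : ℝ} (h1 : δ' ≤ δ)
    (h2 : T ≤ T') : nz f (offL δ T) ≤ nz f (offL δ' T') := by
  refine nz_mono hf h0 (R := T') (fun u hu => ?_) (offL_mono h1 h2)
  exact mem_closedBall_zero_iff.2 hu.2

section
variable {ι : Type} {l : Filter ι} {J : ι → Type} [∀ i, Fintype (J i)] {x : ι → ℝ}
  {Λ : ∀ i, J i → ℂ → ℂ}

open Classical in
/-- **From the average to almost all members.** -/
theorem almost (hent : ∀ i j, Differentiable ℂ (Λ i j)) (hne : ∀ i j, Λ i j 2 ≠ 0)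
    (hx : ∀ᶠ i in l, 0 < x i)
    (hnear : ∀ δ T ε : ℝ, 0 < δ → 0 < ε → ∀ᶠ i in l,
      ∑ j, nz (Λ i j) (offL δ T) ≤ ε * (Fintype.card (J i) * x i))
    (G : ∀ i, J i → Prop)
    (hG : ∀ l' : Filter (Σ i, J i), Tendsto Sigma.fst l' l →
      (∀ δ T ε : ℝ, 0 < δ → 0 < ε → ∀ᶠ p in l', nz (Λ p.1 p.2) (offL δ T) ≤ ε * x p.1) →
      ∀ᶠ p in l', G p.1 p.2) {ε : ℝ} (hε : 0 < ε) :
    ∀ᶠ i in l, ((Finset.univ.filter fun j => ¬ G i j).card : ℝ) ≤ ε * Fintype.card (J i) := by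
  set A : ℕ → Set (Σ i, J i) := fun N => {p | ∀ n : ℕ, n ≤ N →
    nz (Λ p.1 p.2) (offL (1 / ((n : ℝ) + 1)) n) ≤ 1 / ((n : ℝ) + 1) * x p.1} with hA
  have hanti : Antitone A := fun N N' h p hp n hn => hp n (hn.trans h)
  set l' : Filter (Σ i, J i) := comap Sigma.fst l ⊓ ⨅ N, 𝓟 (A N) with hl'
  have h1 : Tendsto Sigma.fst l' l := tendsto_comap.mono_left inf_le_left
  have h2 : ∀ δ T ε : ℝ, 0 < δ → 0 < ε → ∀ᶠ p in l', nz (Λ p.1 p.2) (offL δ T) ≤ ε * x p.1 := by
    intro δ T ε hδ hε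
    obtain ⟨n₁, hn₁⟩ := exists_nat_ge T
    obtain ⟨n₂, hn₂⟩ := exists_nat_one_div_lt (show 0 < min δ ε from lt_min hδ hε)
    set n := max n₁ n₂ with hn
    have hmem : A n ∈ l' := mem_inf_of_right (mem_iInf_of_mem n (mem_principal_self _))
    have hnT : T ≤ n := hn₁.trans (by exact_mod_cast le_max_left n₁ n₂)
    have hn3 : 1 / ((n : ℝ) + 1) ≤ 1 / ((n₂ : ℝ) + 1) := by
      refine one_div_le_one_div_of_le (by positivity) ?_
      have : (n₂ : ℝ) ≤ n := by exact_mod_cast le_max_right n₁ n₂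
      linarith
    have hnδ : 1 / ((n : ℝ) + 1) ≤ δ := hn3.trans (hn₂.le.trans (min_le_left _ _))
    have hnε : 1 / ((n : ℝ) + 1) ≤ ε := hn3.trans (hn₂.le.trans (min_le_right _ _))
    filter_upwards [h1.eventually hx, hmem] with p hp1 hp2
    refine (nz_offL (hent _ _) (hne _ _) hnδ hnT).trans ((hp2 n le_rfl).trans ?_)
    exact mul_le_mul_of_nonneg_right hnε hp1.le
  have h3 := hG l' h1 h2
  have hb : (⨅ N, 𝓟 (A N)).HasBasis (fun _ => True) A :=
    hasBasis_iInf_principal (directed_of_isDirected_le fun i j h => hanti h)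
  have hb' := (l.basis_sets.comap (Sigma.fst : (Σ i, J i) → ι)).inf hb
  obtain ⟨⟨U, N⟩, ⟨hU, -⟩, hsub⟩ := hb'.mem_iff.1 h3
  simp only at hsub
  set η : ℝ := ε / ((N : ℝ) + 1) ^ 2 with hη
  have hη0 : 0 < η := by positivity
  have h4 : ∀ᶠ i in l, ∀ n ∈ Finset.range (N + 1),
      ∑ j, nz (Λ i j) (offL (1 / ((n : ℝ) + 1)) n) ≤ η * (Fintype.card (J i) * x i) := by
    rw [Filter.eventually_all_finset]
    intro n _
    exact hnear _ _ η (by positivity) hη0
  filter_upwards [hU, hx, h4] with i hi hxi h5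
  have hcard : (0 : ℝ) ≤ Fintype.card (J i) := by positivity
  set B : ℕ → Finset (J i) := fun n => Finset.univ.filter fun j =>
    1 / ((n : ℝ) + 1) * x i < nz (Λ i j) (offL (1 / ((n : ℝ) + 1)) n) with hB
  have h6 : (Finset.univ.filter fun j => ¬ G i j) ⊆ (Finset.range (N + 1)).biUnion B := by
    intro j hj
    rw [Finset.mem_filter] at hj
    by_contra hc
    apply hj.2
    have hp : (⟨i, j⟩ : Σ i, J i) ∈ A N := by
      intro n hn
      by_contra h7
      apply hc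
      rw [Finset.mem_biUnion]
      refine ⟨n, Finset.mem_range.2 (by omega), ?_⟩
      rw [hB]
      simp only [Finset.mem_filter, Finset.mem_univ, true_and]
      exact not_le.1 h7
    exact hsub ⟨hi, hp⟩
  have h7 : ∀ n ∈ Finset.range (N + 1), ((B n).card : ℝ) ≤
      η * ((N : ℝ) + 1) * Fintype.card (J i) := by
    intro n hn
    have hn' : (n : ℝ) ≤ N := by
      have := Finset.mem_range.1 hn
      exact_mod_cast Nat.lt_succ_iff.1 this
    have h8 : ((B n).card : ℝ) * (1 / ((n : ℝ) + 1) * x i) ≤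
        ∑ j, nz (Λ i j) (offL (1 / ((n : ℝ) + 1)) n) := by
      rw [← nsmul_eq_mul, ← Finset.sum_const]
      refine le_trans (Finset.sum_le_sum fun j hj => ?_)
        (Finset.sum_le_sum_of_subset_of_nonneg (Finset.subset_univ (B n))
          fun j _ _ => nz_nonneg _ _)
      rw [hB, Finset.mem_filter] at hj
      exact hj.2.le
    have h9 := h8.trans (h5 n hn)
    have h10 : ((B n).card : ℝ) * x i ≤ (η * ((n : ℝ) + 1) * Fintype.card (J i)) * x i := by
      have e1 : ((B n).card : ℝ) * x i =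
          ((B n).card : ℝ) * (1 / ((n : ℝ) + 1) * x i) * ((n : ℝ) + 1) := by
        field_simp
      rw [e1]
      calc ((B n).card : ℝ) * (1 / ((n : ℝ) + 1) * x i) * ((n : ℝ) + 1) ≤
            η * (Fintype.card (J i) * x i) * ((n : ℝ) + 1) := by gcongr
        _ = _ := by ring
    refine (le_of_mul_le_mul_right h10 hxi).trans ?_
    gcongr
  calc ((Finset.univ.filter fun j => ¬ G i j).card : ℝ) ≤
        (((Finset.range (N + 1)).biUnion B).card : ℝ) := by
        exact_mod_cast Finset.card_le_card h6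
    _ ≤ ((∑ n ∈ Finset.range (N + 1), (B n).card : ℕ) : ℝ) := by
        exact_mod_cast Finset.card_biUnion_le
    _ = ∑ n ∈ Finset.range (N + 1), ((B n).card : ℝ) := by push_cast; rfl
    _ ≤ ∑ _n ∈ Finset.range (N + 1), η * ((N : ℝ) + 1) * Fintype.card (J i) :=
        Finset.sum_le_sum h7
    _ = ε * Fintype.card (J i) := by
        rw [Finset.sum_const, Finset.card_range, nsmul_eq_mul, hη]
        push_cast
        field_simp

/-- **One exceptional set.** -/
theorem almost2 (hent : ∀ i j, Differentiable ℂ (Λ i j)) (hne : ∀ i j, Λ i j 2 ≠ 0)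
    (hx : ∀ᶠ i in l, 0 < x i) {a : ι → ℝ} (ha : Tendsto a l atTop)
    (hnear : ∀ δ T ε : ℝ, 0 < δ → 0 < ε → ∀ᶠ i in l,
      ∑ j, nz (Λ i j) (offL δ T) ≤ ε * (Fintype.card (J i) * x i)) :
    ∃ E : ∀ i, Finset (J i), Tendsto (fun i => ((E i).card : ℝ) / Fintype.card (J i)) l (𝓝 0) ∧
      ∀ δ T ε : ℝ, 0 < δ → 0 < ε → ∀ᶠ i in l, ∀ j, j ∉ E i →
        nz (Λ i j) (offL δ T) ≤ ε * x i := by
  classical
  set G : ℕ → ∀ i, J i → Prop := fun N i j => ∀ n ∈ Finset.range (N + 1),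
    nz (Λ i j) (offL (1 / ((n : ℝ) + 1)) n) ≤ 1 / ((n : ℝ) + 1) * x i with hGd
  have c1 : ∀ N : ℕ, ∀ᶠ i in l, ((Finset.univ.filter fun j => ¬ G N i j).card : ℝ) ≤
      1 / ((N : ℝ) + 1) * Fintype.card (J i) := by
    intro N
    have h1 := almost hent hne hx hnear (G N) (fun l' _ h2 => by
      rw [hGd]
      simp only
      rw [Filter.eventually_all_finset]
      intro n _
      exact h2 (1 / ((n : ℝ) + 1)) n (1 / ((n : ℝ) + 1)) (by positivity) (by positivity))
      (ε := 1 / ((N : ℝ) + 1)) (by positivity)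
    filter_upwards [h1] with i hi
    convert hi
  set P : ℕ → Set ι := fun N => {i | ((Finset.univ.filter fun j => ¬ G N i j).card : ℝ) ≤
      1 / ((N : ℝ) + 1) * Fintype.card (J i)} with hP
  have hP0 : ∀ i, ∀ n : ℕ, n ≤ 0 → i ∈ P n := by
    intro i n hn
    obtain rfl : n = 0 := Nat.le_zero.1 hn
    rw [hP]
    simp only [Set.mem_ofPred_eq, Nat.cast_zero, zero_add, div_one, one_mul]
    exact_mod_cast Finset.card_le_univ _
  set N : ι → ℕ := fun i => Nat.findGreatest (fun M => ∀ n : ℕ, n ≤ M → i ∈ P n) ⌊a i⌋₊ with hN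
  have hNs : ∀ i, i ∈ P (N i) := fun i =>
    Nat.findGreatest_spec (P := fun M => ∀ n : ℕ, n ≤ M → i ∈ P n) (Nat.zero_le ⌊a i⌋₊) (hP0 i)
      (N i) le_rfl
  have hNt : Tendsto N l atTop := by
    rw [Filter.tendsto_atTop]
    intro M
    have h1 : ∀ᶠ i in l, ∀ n ∈ Finset.range (M + 1), i ∈ P n := by
      rw [Filter.eventually_all_finset]
      intro n _
      exact c1 n
    filter_upwards [h1, ha.eventually_ge_atTop (M : ℝ)] with i h2 h3
    refine Nat.le_findGreatest (Nat.le_floor h3) fun n hn => h2 n ?_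
    exact Finset.mem_range.2 (by omega)
  refine ⟨fun i => Finset.univ.filter fun j => ¬ G (N i) i j, ?_, fun δ T ε hδ hε => ?_⟩
  · have h0 : Tendsto (fun i => 1 / ((N i : ℝ) + 1)) l (𝓝 0) :=
      tendsto_one_div_add_atTop_nhds_zero_nat.comp hNt
    refine squeeze_zero (fun i => by positivity) (fun i => ?_) h0
    refine div_le_of_le_mul₀ (by positivity) (by positivity) ?_
    exact hNs i
  · obtain ⟨n₁, hn₁⟩ := exists_nat_ge T
    obtain ⟨n₂, hn₂⟩ := exists_nat_one_div_lt (show 0 < min δ ε from lt_min hδ hε)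
    set n := max n₁ n₂ with hn
    have hnT : T ≤ n := hn₁.trans (by exact_mod_cast le_max_left n₁ n₂)
    have hn3 : 1 / ((n : ℝ) + 1) ≤ 1 / ((n₂ : ℝ) + 1) := by
      refine one_div_le_one_div_of_le (by positivity) ?_
      have : (n₂ : ℝ) ≤ n := by exact_mod_cast le_max_right n₁ n₂
      linarith
    have hnδ : 1 / ((n : ℝ) + 1) ≤ δ := hn3.trans (hn₂.le.trans (min_le_left _ _))
    have hnε : 1 / ((n : ℝ) + 1) ≤ ε := hn3.trans (hn₂.le.trans (min_le_right _ _))
    filter_upwards [hNt.eventually_ge_atTop n, hx] with i h1 hxi j hj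
    have h2 : G (N i) i j := by
      by_contra h3
      exact hj (Finset.mem_filter.2 ⟨Finset.mem_univ _, h3⟩)
    refine (nz_offL (hent _ _) (hne _ _) hnδ hnT).trans
      ((h2 n (Finset.mem_range.2 (by omega))).trans ?_)
    exact mul_le_mul_of_nonneg_right hnε hxi.le

end

end Pool.Agent.H465.PT
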