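import Pool.Agent.H465.CG.Stm

/-!
# Project CG (helper465): the analytic part
-/

set_option autoImplicit false

open NumberField Filter Topology Set
open scoped ComplexConjugate

namespace Pool.Agent.H465.CG

lemma refl_re (s : ℂ) : (1 - conj s).re = 1 - s.re := by simp

lemma refl_im (s : ℂ) : (1 - conj s).im = s.im := by simp

lemma refl_refl (s : ℂ) : 1 - conj (1 - conj s) = s := by simp

lemma conj_diff {f : ℂ → ℂ} {s : ℂ} (h : DifferentiableAt ℂ f (1 - conj s)) :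
    DifferentiableAt ℂ (fun z => conj (f (1 - conj z))) s := by
  have h2 : DifferentiableAt ℂ (fun z => f (1 - z)) (conj s) :=
    DifferentiableAt.comp (conj s) h (differentiableAt_id.const_sub 1)
  have h3 := h2.conj_conj
  rw [Complex.conj_conj] at h3
  exact h3

/-- the sign of the functional equation -/
lemma exists_w {Λ : ℂ → ℂ} (h : Differentiable ℂ Λ) (hs : ∀ s, ‖Λ (1 - conj s)‖ = ‖Λ s‖) :
    ∃ w : ℂ, ‖w‖ = 1 ∧ ∀ s, Λ s = w * conj (Λ (1 - conj s)) := by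
  by_cases h0 : ∀ s, Λ s = 0
  · exact ⟨1, norm_one, fun s => by rw [h0, h0, map_zero, mul_zero]⟩
  push Not at h0
  obtain ⟨s₁, h1⟩ := h0
  set G : ℂ → ℂ := fun s => conj (Λ (1 - conj s)) with hG
  have hGd : Differentiable ℂ G := fun s => conj_diff (h _)
  have hGn : ∀ s, ‖G s‖ = ‖Λ s‖ := fun s => by
    rw [hG]
    simp only
    rw [Complex.norm_conj, hs]
  have hG1 : G s₁ ≠ 0 := by
    rw [← norm_ne_zero_iff, hGn, norm_ne_zero_iff]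
    exact h1
  have hnear : ∀ᶠ z in 𝓝 s₁, G z ≠ 0 := hGd.continuous.continuousAt.eventually_ne hG1
  have hq : ∀ᶠ z in 𝓝 s₁, ‖Λ z / G z‖ = 1 := by
    filter_upwards [hnear] with z hz
    rw [norm_div, ← hGn, div_self (norm_ne_zero_iff.2 hz)]
  have hd : ∀ᶠ z in 𝓝 s₁, DifferentiableAt ℂ (fun z => Λ z / G z) z := by
    filter_upwards [hnear] with z hz
    exact (h z).div (hGd z) hz
  have hmax : IsLocalMax (norm ∘ fun z => Λ z / G z) s₁ := by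
    filter_upwards [hq] with z hz
    simp only [Function.comp_apply]
    rw [hz, hq.self_of_nhds]
  have hc := Complex.eventually_eq_of_isLocalMax_norm hd hmax
  set w := Λ s₁ / G s₁ with hw
  refine ⟨w, hq.self_of_nhds, fun s => ?_⟩
  have hev : Λ =ᶠ[𝓝 s₁] fun z => w * G z := by
    filter_upwards [hc, hnear] with z hz hz1
    rw [← hz, div_mul_cancel₀ _ hz1]
  have e := AnalyticOnNhd.eq_of_eventuallyEq (fun z _ => h.analyticAt z)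
    (fun z _ => (hGd.const_mul w).analyticAt z) hev
  exact congrFun e s

lemma exp_sq_norm (s : ℂ) (t : ℝ) : ‖Complex.exp ((s - (1 / 2 + t * Complex.I)) ^ 2)‖ =
    Real.exp ((s.re - 1 / 2) ^ 2 - (s.im - t) ^ 2) := by
  rw [Complex.norm_exp]
  congr 1
  simp [pow_two]

/-- the gaussian factor kills the polynomials -/
lemma gauss {T t : ℝ} (ht : |t| ≤ T) (M : ℕ) {s : ℂ} (h1 : -(1 / 4) ≤ s.re) (h2 : s.re ≤ 5 / 4) :
    (1 + ‖s‖) ^ M * Real.exp ((s.re - 1 / 2) ^ 2 - (s.im - t) ^ 2) ≤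
      (9 / 4 + T) ^ M * Real.exp ((M : ℝ) ^ 2 / 4 + 9 / 16) := by
  have hT : 0 ≤ T := (abs_nonneg t).trans ht
  set x := |s.im - t| with hx
  have hx0 : 0 ≤ x := abs_nonneg _
  have h3 : |s.im| ≤ x + T := by
    have : s.im = (s.im - t) + t := by ring
    calc |s.im| = |(s.im - t) + t| := by rw [← this]
      _ ≤ _ := (abs_add_le _ _).trans (by linarith)
  have h4 : |s.re| ≤ 5 / 4 := abs_le.2 ⟨by linarith, h2⟩
  have h5 : 1 + ‖s‖ ≤ (9 / 4 + T) * (1 + x) := by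
    have := Complex.norm_le_abs_re_add_abs_im s
    nlinarith
  have h6 : 1 + x ≤ Real.exp x := by
    have := Real.add_one_le_exp x
    linarith
  have h7 : (1 + ‖s‖) ^ M ≤ (9 / 4 + T) ^ M * Real.exp (M * x) := by
    calc (1 + ‖s‖) ^ M ≤ ((9 / 4 + T) * (1 + x)) ^ M := by
          refine pow_le_pow_left₀ (by positivity) h5 M
      _ = (9 / 4 + T) ^ M * (1 + x) ^ M := mul_pow _ _ _
      _ ≤ (9 / 4 + T) ^ M * Real.exp x ^ M := by gcongr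
      _ = _ := by rw [← Real.exp_nat_mul]
  have h8 : (s.im - t) ^ 2 = x ^ 2 := by rw [hx, sq_abs]
  have h9 : (s.re - 1 / 2) ^ 2 ≤ 9 / 16 := by nlinarith
  calc (1 + ‖s‖) ^ M * Real.exp ((s.re - 1 / 2) ^ 2 - (s.im - t) ^ 2)
      ≤ ((9 / 4 + T) ^ M * Real.exp (M * x)) * Real.exp ((s.re - 1 / 2) ^ 2 - (s.im - t) ^ 2) := by
        gcongr
    _ = (9 / 4 + T) ^ M * Real.exp (M * x + ((s.re - 1 / 2) ^ 2 - (s.im - t) ^ 2)) := by
        rw [mul_assoc, ← Real.exp_add]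
    _ ≤ _ := by
        refine mul_le_mul_of_nonneg_left (Real.exp_le_exp.2 ?_) (by positivity)
        rw [h8]
        nlinarith [sq_nonneg ((M : ℝ) / 2 - x)]

/-- Phragmén–Lindelöf for a bounded function in the strip -/
lemma pl {h : ℂ → ℂ} (hd : ∀ s : ℂ, -(1 / 2) < s.re → s.re < 3 / 2 → DifferentiableAt ℂ h s)
    {B Q : ℝ} (hB : ∀ s : ℂ, -(1 / 4) ≤ s.re → s.re ≤ 5 / 4 → ‖h s‖ ≤ B)
    (h1 : ∀ s : ℂ, s.re = -(1 / 4) → ‖h s‖ ≤ Q) (h2 : ∀ s : ℂ, s.re = 5 / 4 → ‖h s‖ ≤ Q) {s : ℂ}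
    (hs : s.re = 1 / 2) : ‖h s‖ ≤ Q := by
  refine PhragmenLindelof.vertical_strip (a := -(1 / 4)) (b := 5 / 4) (f := h) ?_ ?_ h1 h2
    (by rw [hs]; norm_num) (by rw [hs]; norm_num)
  · refine DifferentiableOn.diffContOnCl fun z hz => ?_
    have hcl : closure (Complex.re ⁻¹' Ioo (-(1 / 4) : ℝ) (5 / 4)) ⊆
        Complex.re ⁻¹' Icc (-(1 / 4) : ℝ) (5 / 4) :=
      closure_minimal (fun z hz => ⟨hz.1.le, hz.2.le⟩) (isClosed_Icc.preimage Complex.continuous_re)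
    obtain ⟨h3, h4⟩ := hcl hz
    exact (hd z (by linarith) (by linarith)).differentiableWithinAt
  · refine ⟨0, by positivity, 0, ?_⟩
    simp only [zero_mul, Real.exp_zero]
    refine Asymptotics.IsBigO.of_bound B ?_
    refine eventually_inf_principal.2 (Eventually.of_forall fun z hz => ?_)
    rw [norm_one, mul_one]
    exact hB z hz.1.le hz.2.le

lemma norm_A {A : ℝ} (hA : 1 ≤ A) (s : ℂ) : ‖(A : ℂ) ^ (s / 2)‖ = A ^ (s.re / 2) := by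
  rw [Complex.norm_cpow_eq_rpow_re_of_pos (by linarith)]
  congr 1
  simp

lemma norm_A_sq {A : ℝ} (hA : 1 ≤ A) (s : ℂ) : ‖(A : ℂ) ^ (s / 2)‖ ^ 2 = A ^ s.re := by
  rw [norm_A hA, ← Real.rpow_natCast, ← Real.rpow_mul (by linarith)]
  congr 1
  push_cast
  ring

lemma A_diff {A : ℝ} (hA : 1 ≤ A) (s : ℂ) : DifferentiableAt ℂ (fun z : ℂ => (A : ℂ) ^ (z / 2)) s := by
  refine DifferentiableAt.const_cpow (by fun_prop) (Or.inl ?_)
  have : (0 : ℝ) < A := by linarith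
  exact_mod_cast this.ne'

lemma ksym {w x x' b b' : ℂ} (hw : ‖w‖ = 1) (hx : x = w * conj x') :
    ‖x' - b' - w * conj b‖ = ‖x - b - w * conj b'‖ := by
  have hww : w * conj w = 1 := by
    rw [Complex.mul_conj, Complex.normSq_eq_norm_sq, hw]
    simp
  have h1 : x - b - w * conj b' = w * conj (x' - b' - w * conj b) := by
    rw [map_sub, map_sub, map_mul, Complex.conj_conj, hx]
    linear_combination b * hww
  rw [h1, norm_mul, hw, one_mul, Complex.norm_conj]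

set_option maxHeartbeats 1600000 in
theorem t_an : SAn := by
  intro T C₀ M₀ hT hC₀
  -- the constants
  set E : ℝ := (9 / 4 + T) ^ M₀ * Real.exp ((M₀ : ℝ) ^ 2 / 4 + 9 / 16) with hE
  have hE0 : 0 < E := by rw [hE]; positivity
  set C₁ : ℝ := 2 * C₀ ^ 2 * 4 ^ M₀ * E ^ 2 with hC₁
  have hC10 : 0 < C₁ := by rw [hC₁]; positivity
  set C₂ : ℝ := 6 * C₀ ^ 2 * (2 + T) ^ (2 * M₀) with hC₂
  have hC20 : 0 < C₂ := by rw [hC₂]; positivity
  refine ⟨max 1 (3 * C₁ + C₂), le_max_left _ _, ?_⟩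
  intro ι _ A Λ g P R H₁ H₂ H₃ hA hΛ hsym hgrow hgd hgb hPd hPb hfac hH1 hH2 hH3 s₀ hs₀ ht₀
  have hH1n : 0 ≤ H₁ := (Finset.sum_nonneg fun i _ => by positivity).trans (hH1 s₀ hs₀)
  have hH2n : 0 ≤ H₂ := (Finset.sum_nonneg fun i _ => by positivity).trans
    (hH2 ((-(1 / 4) : ℝ) : ℂ) (by simp))
  have hH3n : 0 ≤ H₃ := (Finset.sum_nonneg fun i _ => by positivity).trans
    (hH3 ((5 / 4 : ℝ) : ℂ) (by simp))
  choose w hw1 hw using fun i => exists_w (hΛ i) (hsym i)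
  set t := s₀.im with ht
  have hs0e : s₀ = 1 / 2 + t * Complex.I := by
    apply Complex.ext <;> simp [hs₀, ht]
  obtain ⟨B, hBdef⟩ : ∃ B : ι → ℂ → ℂ, B = fun i s => (A : ℂ) ^ (s / 2) * g i s * P i s := ⟨_, rfl⟩
  have hBe : ∀ i s, B i s = (A : ℂ) ^ (s / 2) * g i s * P i s := fun i s => by rw [hBdef]
  have hBd : ∀ i s, -(1 / 2) < s.re → DifferentiableAt ℂ (B i) s := fun i s hs => by
    rw [hBdef]
    exact ((A_diff hA s).mul (hgd i s hs)).mul (hPd i s)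
  obtain ⟨K, hK⟩ : ∃ K : ι → ℂ → ℂ, K = fun i s => Λ i s - B i s - w i * conj (B i (1 - conj s)) :=
    ⟨_, rfl⟩
  have hKe : ∀ i s, K i s = Λ i s - B i s - w i * conj (B i (1 - conj s)) := fun i s => by rw [hK]
  have hKd : ∀ i s, -(1 / 2) < s.re → s.re < 3 / 2 → DifferentiableAt ℂ (K i) s := by
    intro i s h1 h2
    rw [hK]
    refine ((hΛ i s).sub (hBd i s h1)).sub ((conj_diff (hBd i _ ?_)).const_mul _)
    rw [refl_re]
    linarith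
  have hKsym : ∀ i s, ‖K i (1 - conj s)‖ = ‖K i s‖ := by
    intro i s
    rw [hKe, hKe, refl_refl]
    exact ksym (hw1 i) (hw i s)
  obtain ⟨Ef, hEf⟩ : ∃ Ef : ℂ → ℂ, Ef = fun s => Complex.exp ((s - (1 / 2 + t * Complex.I)) ^ 2) :=
    ⟨_, rfl⟩
  have hEfn : ∀ s, ‖Ef s‖ = Real.exp ((s.re - 1 / 2) ^ 2 - (s.im - t) ^ 2) := fun s => by
    rw [hEf]
    exact exp_sq_norm s t
  have hEfd : Differentiable ℂ Ef := by
    rw [hEf]
    fun_prop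
  have hEfsym : ∀ s, ‖Ef (1 - conj s)‖ = ‖Ef s‖ := by
    intro s
    rw [hEfn, hEfn, refl_re, refl_im]
    congr 1
    ring
  -- the right boundary
  set Q : ℝ := C₁ * (A ^ (-(1 / 4) : ℝ) * H₂ + A ^ (5 / 4 : ℝ) * H₃) with hQ
  have hA0 : 0 < A := by linarith
  have hright : ∀ s : ℂ, s.re = 5 / 4 → ∑ i, ‖Ef s * K i s‖ ^ 2 ≤ Q := by
    intro s hs
    set s' := 1 - conj s with hs'
    have hs're : s'.re = -(1 / 4) := by rw [hs', refl_re, hs]; norm_num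
    have hn' : ‖s'‖ ≤ 1 + ‖s‖ := by
      rw [hs']
      refine (norm_sub_le _ _).trans ?_
      rw [norm_one, Complex.norm_conj]
    have hKe' : ∀ i, K i s = (A : ℂ) ^ (s / 2) * g i s * R i s - w i * conj (B i s') := by
      intro i
      rw [hKe, hfac i s hs, hBe i s]
      ring
    have h1 : ∀ i, ‖K i s‖ ^ 2 ≤ 2 * (C₀ ^ 2 * 4 ^ M₀ * (1 + ‖s‖) ^ (2 * M₀)) *
        (A ^ (5 / 4 : ℝ) * ‖R i s‖ ^ 2 + A ^ (-(1 / 4) : ℝ) * ‖P i s'‖ ^ 2) := by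
      intro i
      have e1 : ‖g i s‖ ^ 2 ≤ C₀ ^ 2 * 4 ^ M₀ * (1 + ‖s‖) ^ (2 * M₀) := by
        have h2 := hgb i s (by rw [hs]; norm_num) (by rw [hs])
        have h4 : (1 : ℝ) ≤ 4 ^ M₀ := one_le_pow₀ (by norm_num)
        calc ‖g i s‖ ^ 2 ≤ (C₀ * (1 + ‖s‖) ^ M₀) ^ 2 := by gcongr
          _ = C₀ ^ 2 * 1 * (1 + ‖s‖) ^ (2 * M₀) := by rw [mul_pow, ← pow_mul, mul_comm M₀ 2]; ring
          _ ≤ _ := by gcongr
      have e2 : ‖g i s'‖ ^ 2 ≤ C₀ ^ 2 * 4 ^ M₀ * (1 + ‖s‖) ^ (2 * M₀) := by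
        have h2 := hgb i s' (by rw [hs're]) (by rw [hs're]; norm_num)
        have h3 : 1 + ‖s'‖ ≤ 2 * (1 + ‖s‖) := by
          have := norm_nonneg s
          linarith
        calc ‖g i s'‖ ^ 2 ≤ (C₀ * (1 + ‖s'‖) ^ M₀) ^ 2 := by gcongr
          _ ≤ (C₀ * (2 * (1 + ‖s‖)) ^ M₀) ^ 2 := by gcongr
          _ = C₀ ^ 2 * (2 ^ M₀) ^ 2 * ((1 + ‖s‖) ^ M₀) ^ 2 := by rw [mul_pow 2]; ring
          _ = _ := by
            rw [← pow_mul, ← pow_mul, mul_comm M₀ 2, pow_mul 2 2 M₀]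
            norm_num
      have e3 : ‖K i s‖ ≤ ‖(A : ℂ) ^ (s / 2) * g i s * R i s‖ + ‖B i s'‖ := by
        rw [hKe']
        refine (norm_sub_le _ _).trans ?_
        rw [norm_mul (w i), hw1, one_mul, Complex.norm_conj]
      have e4 : ‖K i s‖ ^ 2 ≤ 2 * ‖(A : ℂ) ^ (s / 2) * g i s * R i s‖ ^ 2 + 2 * ‖B i s'‖ ^ 2 := by
        have h5 := norm_nonneg (K i s)
        have h6 : ‖K i s‖ ^ 2 ≤ (‖(A : ℂ) ^ (s / 2) * g i s * R i s‖ + ‖B i s'‖) ^ 2 := by gcongr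
        nlinarith [sq_nonneg (‖(A : ℂ) ^ (s / 2) * g i s * R i s‖ - ‖B i s'‖)]
      refine e4.trans ?_
      rw [hBe, norm_mul, norm_mul, norm_mul, norm_mul, mul_pow, mul_pow, mul_pow, mul_pow,
        norm_A_sq hA, norm_A_sq hA, hs, hs're]
      have a1 : 0 ≤ A ^ (5 / 4 : ℝ) * ‖R i s‖ ^ 2 := by positivity
      have a2 : 0 ≤ A ^ (-(1 / 4) : ℝ) * ‖P i s'‖ ^ 2 := by positivity
      nlinarith [mul_le_mul_of_nonneg_left e1 a1, mul_le_mul_of_nonneg_left e2 a2]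
    have h2 : ∑ i, ‖K i s‖ ^ 2 ≤ 2 * (C₀ ^ 2 * 4 ^ M₀ * (1 + ‖s‖) ^ (2 * M₀)) *
        (A ^ (5 / 4 : ℝ) * H₃ + A ^ (-(1 / 4) : ℝ) * H₂) := by
      refine (Finset.sum_le_sum fun i _ => h1 i).trans ?_
      rw [← Finset.mul_sum, Finset.sum_add_distrib, ← Finset.mul_sum, ← Finset.mul_sum]
      have := hH3 s hs
      have := hH2 s' hs're
      gcongr
    have h3 : (1 + ‖s‖) ^ (2 * M₀) * ‖Ef s‖ ^ 2 ≤ E ^ 2 := by
      have h4 := gauss ht₀ M₀ (s := s) (by rw [hs]; norm_num) (by rw [hs])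
      rw [← hEfn] at h4
      calc (1 + ‖s‖) ^ (2 * M₀) * ‖Ef s‖ ^ 2 = ((1 + ‖s‖) ^ M₀ * ‖Ef s‖) ^ 2 := by
            rw [mul_pow, ← pow_mul, mul_comm M₀ 2]
        _ ≤ E ^ 2 := by gcongr
    calc ∑ i, ‖Ef s * K i s‖ ^ 2 = ‖Ef s‖ ^ 2 * ∑ i, ‖K i s‖ ^ 2 := by
          rw [Finset.mul_sum]
          refine Finset.sum_congr rfl fun i _ => ?_
          rw [norm_mul, mul_pow]
      _ ≤ ‖Ef s‖ ^ 2 * (2 * (C₀ ^ 2 * 4 ^ M₀ * (1 + ‖s‖) ^ (2 * M₀)) *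
        (A ^ (5 / 4 : ℝ) * H₃ + A ^ (-(1 / 4) : ℝ) * H₂)) := by gcongr
      _ = (2 * C₀ ^ 2 * 4 ^ M₀) * ((1 + ‖s‖) ^ (2 * M₀) * ‖Ef s‖ ^ 2) *
        (A ^ (-(1 / 4) : ℝ) * H₂ + A ^ (5 / 4 : ℝ) * H₃) := by ring
      _ ≤ (2 * C₀ ^ 2 * 4 ^ M₀) * E ^ 2 *
        (A ^ (-(1 / 4) : ℝ) * H₂ + A ^ (5 / 4 : ℝ) * H₃) := by gcongr
      _ = Q := by rw [hQ, hC₁]
  have hleft : ∀ s : ℂ, s.re = -(1 / 4) → ∑ i, ‖Ef s * K i s‖ ^ 2 ≤ Q := by
    intro s hs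
    refine le_trans (le_of_eq ?_) (hright (1 - conj s) (by rw [refl_re, hs]; norm_num))
    refine Finset.sum_congr rfl fun i _ => ?_
    rw [norm_mul, norm_mul, hKsym, hEfsym]
  -- boundedness
  have hbd : ∀ i, ∃ b : ℝ, ∀ s : ℂ, -(1 / 4) ≤ s.re → s.re ≤ 5 / 4 → ‖Ef s * K i s‖ ≤ b := by
    intro i
    obtain ⟨b₁, k, hb₁⟩ := hgrow i
    obtain ⟨b₂, hb₂⟩ := hPb i
    have hBb : ∀ s : ℂ, -(1 / 4) ≤ s.re → s.re ≤ 5 / 4 → ‖B i s‖ ≤
        A ^ (5 / 4 : ℝ) * C₀ * |b₂| * (1 + ‖s‖) ^ M₀ := by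
      intro s h1 h2
      rw [hBe, norm_mul, norm_mul, norm_A hA]
      have e1 : A ^ (s.re / 2) ≤ A ^ (5 / 4 : ℝ) := Real.rpow_le_rpow_of_exponent_le hA (by linarith)
      have e2 := hgb i s h1 h2
      have e3 := (hb₂ s h1 h2).trans (le_abs_self _)
      calc A ^ (s.re / 2) * ‖g i s‖ * ‖P i s‖ ≤
          A ^ (5 / 4 : ℝ) * (C₀ * (1 + ‖s‖) ^ M₀) * |b₂| := by gcongr
        _ = _ := by ring
    set L := max k M₀ with hL
    have hone : ∀ s : ℂ, (1 : ℝ) ≤ 1 + ‖s‖ := fun s => by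
      have := norm_nonneg s
      linarith
    set b₃ := A ^ (5 / 4 : ℝ) * C₀ * |b₂| with hb3
    have hb30 : 0 ≤ b₃ := by rw [hb3]; positivity
    have hKb : ∀ s : ℂ, -(1 / 4) ≤ s.re → s.re ≤ 5 / 4 → ‖K i s‖ ≤
        (|b₁| + b₃ + b₃ * 2 ^ M₀) * (1 + ‖s‖) ^ L := by
      intro s h1 h2
      have e1 : ‖Λ i s‖ ≤ |b₁| * (1 + ‖s‖) ^ L := by
        refine (hb₁ s (by linarith) (by linarith)).trans ?_
        exact mul_le_mul (le_abs_self _) (pow_le_pow_right₀ (hone s) (le_max_left _ _))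
          (by positivity) (abs_nonneg _)
      have e2 : ‖B i s‖ ≤ b₃ * (1 + ‖s‖) ^ L := by
        refine (hBb s h1 h2).trans ?_
        exact mul_le_mul_of_nonneg_left (pow_le_pow_right₀ (hone s) (le_max_right _ _)) hb30
      have e3 : ‖B i (1 - conj s)‖ ≤ b₃ * 2 ^ M₀ * (1 + ‖s‖) ^ L := by
        refine (hBb _ (by rw [refl_re]; linarith) (by rw [refl_re]; linarith)).trans ?_
        have h3 : 1 + ‖1 - conj s‖ ≤ 2 * (1 + ‖s‖) := by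
          have h4 := norm_sub_le 1 (conj s)
          rw [norm_one, Complex.norm_conj] at h4
          have := norm_nonneg s
          linarith
        calc b₃ * (1 + ‖1 - conj s‖) ^ M₀ ≤ b₃ * (2 * (1 + ‖s‖)) ^ M₀ := by gcongr
          _ = b₃ * 2 ^ M₀ * (1 + ‖s‖) ^ M₀ := by rw [mul_pow]; ring
          _ ≤ _ := mul_le_mul_of_nonneg_left (pow_le_pow_right₀ (hone s) (le_max_right _ _))
            (by positivity)
      have e4 : ‖K i s‖ ≤ ‖Λ i s‖ + ‖B i s‖ + ‖B i (1 - conj s)‖ := by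
        rw [hKe]
        refine (norm_sub_le _ _).trans (add_le_add (norm_sub_le _ _) ?_)
        rw [norm_mul, hw1, one_mul, Complex.norm_conj]
      refine e4.trans ?_
      linarith
    refine ⟨(|b₁| + b₃ + b₃ * 2 ^ M₀) *
      ((9 / 4 + T) ^ L * Real.exp ((L : ℝ) ^ 2 / 4 + 9 / 16)), fun s h1 h2 => ?_⟩
    have h3 := gauss ht₀ L h1 h2
    rw [← hEfn] at h3
    rw [norm_mul]
    calc ‖Ef s‖ * ‖K i s‖ ≤ ‖Ef s‖ * ((|b₁| + b₃ + b₃ * 2 ^ M₀) * (1 + ‖s‖) ^ L) := by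
          gcongr
          exact hKb s h1 h2
      _ = (|b₁| + b₃ + b₃ * 2 ^ M₀) * ((1 + ‖s‖) ^ L * ‖Ef s‖) := by ring
      _ ≤ _ := by gcongr
  -- the interior point
  have hQ0 : 0 ≤ Q := by rw [hQ]; positivity
  set S := ∑ i, ‖K i s₀‖ ^ 2 with hS
  have hEf0 : Ef s₀ = 1 := by
    rw [hEf, hs0e]
    simp
  have hSQ : S ≤ Q := by
    obtain ⟨h, hh⟩ : ∃ h : ℂ → ℂ, h = fun s => ∑ i, conj (K i s₀) * (Ef s * K i s) := ⟨_, rfl⟩
    have hS0 : 0 ≤ S := Finset.sum_nonneg fun i _ => by positivity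
    have hcs : ∀ s : ℂ, (∑ i, ‖Ef s * K i s‖ ^ 2 ≤ Q) → ‖h s‖ ≤ Real.sqrt (S * Q) := by
      intro s hs
      refine Real.le_sqrt_of_sq_le ?_
      have h1 : ‖h s‖ ≤ ∑ i, ‖K i s₀‖ * ‖Ef s * K i s‖ := by
        rw [hh]
        refine (norm_sum_le _ _).trans (le_of_eq ?_)
        refine Finset.sum_congr rfl fun i _ => ?_
        rw [norm_mul, Complex.norm_conj]
      have h2 := Finset.sum_mul_sq_le_sq_mul_sq Finset.univ (fun i => ‖K i s₀‖)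
        (fun i => ‖Ef s * K i s‖)
      calc ‖h s‖ ^ 2 ≤ (∑ i, ‖K i s₀‖ * ‖Ef s * K i s‖) ^ 2 := by gcongr
        _ ≤ S * ∑ i, ‖Ef s * K i s‖ ^ 2 := h2
        _ ≤ S * Q := by gcongr
    choose b hb using hbd
    have h1 := pl (h := h) (B := ∑ i, ‖K i s₀‖ * b i) (Q := Real.sqrt (S * Q))
      (fun s h1 h2 => by
        rw [hh]
        refine DifferentiableAt.fun_sum fun i _ => ?_
        exact ((hEfd s).mul (hKd i s h1 h2)).const_mul _)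
      (fun s h1 h2 => by
        rw [hh]
        refine (norm_sum_le _ _).trans (Finset.sum_le_sum fun i _ => ?_)
        rw [norm_mul, Complex.norm_conj]
        exact mul_le_mul_of_nonneg_left (hb i s h1 h2) (norm_nonneg _))
      (fun s hs => hcs s (hleft s hs)) (fun s hs => hcs s (hright s hs)) hs₀
    have h2 : h s₀ = (S : ℂ) := by
      rw [hh, hS]
      simp only [hEf0]
      push_cast
      refine Finset.sum_congr rfl fun i _ => ?_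
      rw [one_mul, mul_comm, Complex.mul_conj, Complex.normSq_eq_norm_sq]
      push_cast
      rfl
    rw [h2, Complex.norm_real, Real.norm_eq_abs, abs_of_nonneg hS0] at h1
    have h3 : S ^ 2 ≤ S * Q := by
      have := pow_le_pow_left₀ hS0 h1 2
      rwa [Real.sq_sqrt (by positivity)] at this
    rcases hS0.eq_or_lt with h0 | h0
    · rw [← h0]; exact hQ0
    · nlinarith
  have hs00 : 1 - conj s₀ = s₀ := by
    apply Complex.ext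
    · rw [refl_re, hs₀]; norm_num
    · rw [refl_im]
  have hns : ‖s₀‖ ≤ 1 + T := by
    refine (Complex.norm_le_abs_re_add_abs_im _).trans ?_
    rw [hs₀, abs_of_pos (by norm_num : (0 : ℝ) < 1 / 2)]
    linarith
  have hfin : ∀ i, ‖Λ i s₀‖ ^ 2 ≤ 3 * ‖K i s₀‖ ^ 2 +
      6 * C₀ ^ 2 * (2 + T) ^ (2 * M₀) * A ^ (1 / 2 : ℝ) * ‖P i s₀‖ ^ 2 := by
    intro i
    have e1 : Λ i s₀ = K i s₀ + B i s₀ + w i * conj (B i (1 - conj s₀)) := by
      rw [hKe]; ring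
    have e2 : ‖Λ i s₀‖ ≤ ‖K i s₀‖ + 2 * ‖B i s₀‖ := by
      rw [e1]
      refine (norm_add_le _ _).trans ?_
      rw [norm_mul, hw1, one_mul, Complex.norm_conj, hs00]
      have := norm_add_le (K i s₀) (B i s₀)
      linarith
    have e3 : ‖B i s₀‖ ^ 2 ≤ C₀ ^ 2 * (2 + T) ^ (2 * M₀) * A ^ (1 / 2 : ℝ) * ‖P i s₀‖ ^ 2 := by
      rw [hBe, norm_mul, norm_mul, mul_pow, mul_pow, norm_A_sq hA, hs₀]
      have h1 := hgb i s₀ (by rw [hs₀]; norm_num) (by rw [hs₀]; norm_num)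
      have h2 : ‖g i s₀‖ ≤ C₀ * (2 + T) ^ M₀ := by
        refine h1.trans ?_
        have : 1 + ‖s₀‖ ≤ 2 + T := by linarith
        gcongr
      calc A ^ (1 / 2 : ℝ) * ‖g i s₀‖ ^ 2 * ‖P i s₀‖ ^ 2 ≤
          A ^ (1 / 2 : ℝ) * (C₀ * (2 + T) ^ M₀) ^ 2 * ‖P i s₀‖ ^ 2 := by gcongr
        _ = _ := by rw [mul_pow, ← pow_mul, mul_comm M₀ 2]; ring
    have e4 : ‖Λ i s₀‖ ^ 2 ≤ (‖K i s₀‖ + 2 * ‖B i s₀‖) ^ 2 := by gcongr
    nlinarith [sq_nonneg (‖K i s₀‖ - ‖B i s₀‖)]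
  have hP1 := hH1 s₀ hs₀
  calc ∑ i, ‖Λ i s₀‖ ^ 2 ≤ ∑ i, (3 * ‖K i s₀‖ ^ 2 +
      6 * C₀ ^ 2 * (2 + T) ^ (2 * M₀) * A ^ (1 / 2 : ℝ) * ‖P i s₀‖ ^ 2) :=
        Finset.sum_le_sum fun i _ => hfin i
    _ = 3 * S + 6 * C₀ ^ 2 * (2 + T) ^ (2 * M₀) * A ^ (1 / 2 : ℝ) * ∑ i, ‖P i s₀‖ ^ 2 := by
        rw [Finset.sum_add_distrib, ← Finset.mul_sum, ← Finset.mul_sum]
    _ ≤ 3 * Q + 6 * C₀ ^ 2 * (2 + T) ^ (2 * M₀) * A ^ (1 / 2 : ℝ) * H₁ := by gcongr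
    _ = C₂ * (A ^ (1 / 2 : ℝ) * H₁) + 3 * C₁ * (A ^ (-(1 / 4) : ℝ) * H₂ + A ^ (5 / 4 : ℝ) * H₃) := by
        rw [hQ, hC₂]; ring
    _ ≤ (3 * C₁ + C₂) * (A ^ (1 / 2 : ℝ) * H₁ + A ^ (-(1 / 4) : ℝ) * H₂ +
        A ^ (5 / 4 : ℝ) * H₃) := by
        have a1 : 0 ≤ A ^ (1 / 2 : ℝ) * H₁ := by positivity
        have a2 : 0 ≤ A ^ (-(1 / 4) : ℝ) * H₂ := by positivity
        have a3 : 0 ≤ A ^ (5 / 4 : ℝ) * H₃ := by positivity
        nlinarith [mul_nonneg hC10.le a1, mul_nonneg hC20.le a2, mul_nonneg hC20.le a3]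
    _ ≤ _ := by
        refine mul_le_mul_of_nonneg_right (le_max_right _ _) ?_
        positivity

end Pool.Agent.H465.CG
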