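import Pool.Agent.H465.PT.BB
import Pool.Agent.H465.PT.W

/-!
# The leading coefficient at a point of the critical line: the sharp law
-/

set_option autoImplicit false

open MeasureTheory Metric Set Filter Topology
open scoped Real ENNReal ComplexConjugate

namespace Pool.Agent.H465.PT

open Pool.Agent.H465.EQ

lemma pt_sub (t t₀ : ℝ) : (pt t - t₀ * Complex.I : ℂ) = pt (t - t₀) := by
  apply Complex.ext
  · simp [pt]
  · simp [pt]

lemma pt_half (t₀ : ℝ) : (pt t₀ - 1 / 2 : ℂ) = t₀ * Complex.I := by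
  apply Complex.ext
  · simp [pt]
  · simp [pt]

lemma bpc_int {δ : ℝ} (hδ : 0 < δ) (t₀ : ℝ) : ∫ t : ℝ, bp δ (pt t - t₀ * Complex.I) ≤ 4 * δ := by
  simp_rw [pt_sub]
  rw [integral_sub_right_eq_self (fun t : ℝ => bp δ (pt t)) t₀]
  exact bp_int hδ

lemma bpc_norm (z : ℂ) (t₀ : ℝ) : ‖z - t₀ * Complex.I - 1 / 2‖ = ‖z - pt t₀‖ := by
  congr 1
  have := pt_half t₀
  rw [← this]
  ring

lemma bpc_cont (δ t₀ : ℝ) : Continuous fun z : ℂ => bp δ (z - t₀ * Complex.I) :=
  (bp_cont δ).comp (continuous_id.sub continuous_const)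

lemma bpc_comp {δ : ℝ} (hδ : 0 < δ) (t₀ : ℝ) :
    HasCompactSupport fun z : ℂ => bp δ (z - t₀ * Complex.I) := by
  have h := (bp_comp hδ).comp_homeomorph (Homeomorph.addRight (-(t₀ * Complex.I) : ℂ))
  have e : (bp δ ∘ (Homeomorph.addRight (-(t₀ * Complex.I) : ℂ))) =
      fun z : ℂ => bp δ (z - t₀ * Complex.I) := by
    funext z
    simp [sub_eq_add_neg]
  rwa [e] at h

/-- few zeros near the point -/
lemma nz_bumpc {f : ℂ → ℂ} (hf : Differentiable ℂ f) {z₀ : ℂ} (h0 : f z₀ ≠ 0) {δ x t₀ : ℝ}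
    (hδ : 0 < δ) (hx : 0 < x)
    (h : |(∑ᶠ u, mu f u * bp δ (u - t₀ * Complex.I)) -
      x / (2 * π) * ∫ t : ℝ, bp δ (pt t - t₀ * Complex.I)| ≤ δ / 4 * x) :
    nz f (closedBall (pt t₀) δ) ≤ δ * x := by
  have h1 := nz_le_finsum hf h0 (S := closedBall (pt t₀) δ) (R := 2 * δ + ‖pt t₀‖)
    (g := fun u => bp δ (u - t₀ * Complex.I)) ?_
    (fun z => bp_nn δ _) (fun z hz => bp_one hδ (by
      rw [bpc_norm]
      rwa [mem_closedBall, dist_eq_norm] at hz))
    (fun z hz => bp_zero hδ (by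
      rw [bpc_norm]
      have := norm_sub_norm_le z (pt t₀)
      linarith))
  · have h2 := (abs_le.1 h).2
    have h3 := bpc_int hδ t₀
    have hpi := Real.pi_gt_three
    have h4 : x / (2 * π) * ∫ t : ℝ, bp δ (pt t - t₀ * Complex.I) ≤ 3 / 4 * δ * x := by
      calc x / (2 * π) * ∫ t : ℝ, bp δ (pt t - t₀ * Complex.I) ≤ x / (2 * π) * (4 * δ) := by gcongr
        _ = x * (4 * δ) / (2 * π) := by ring
        _ ≤ 3 / 4 * δ * x := by
            rw [div_le_iff₀ (by positivity)]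
            nlinarith [mul_pos hδ hx]
    linarith
  · intro z hz
    rw [mem_closedBall, dist_eq_norm] at hz
    rw [mem_closedBall_zero_iff]
    have h1 : ‖z‖ ≤ ‖z - pt t₀‖ + ‖pt t₀‖ := by
      have := norm_add_le (z - pt t₀) (pt t₀)
      rwa [sub_add_cancel] at this
    linarith

/-- **The law for one function.** -/
theorem law_onec {f : ℂ → ℂ} (hf : Differentiable ℂ f) {z₀ : ℂ} (h0 : f z₀ ≠ 0) {δ x a ω R t₀ : ℝ}
    (hδ : 0 < δ) (hR : ‖pt t₀‖ + δ ≤ R) (hx : 0 ≤ x)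
    (h : ∫ z in closedBall (0 : ℂ) R, |Real.log ‖f z‖ - x * (U0 z + a)| ≤ ω) :
    |Real.log ‖meromorphicTrailingCoeffAt f (pt t₀)‖ - x * a +
      ∑ᶠ u, mu f u * lk δ (u - pt t₀)| ≤
      nz f (closedBall (pt t₀) δ) + mu f (pt t₀) * |Real.log δ| + x * δ / 2 +
        ω / (π * δ ^ 2) := by
  have hpi := Real.pi_pos
  have h1 := disc_tc hf h0 (pt t₀) hδ
  set S : ℝ := ∑ᶠ u, mu f u * lk δ (u - pt t₀) with hS
  set N : ℝ := nz f (closedBall (pt t₀) δ) with hN
  set l : ℝ := Real.log ‖meromorphicTrailingCoeffAt f (pt t₀)‖ with hl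
  have hsub : ball (pt t₀) δ ⊆ closedBall 0 R := by
    intro z hz
    rw [mem_ball, dist_eq_norm] at hz
    rw [mem_closedBall_zero_iff]
    have h1 : ‖z‖ ≤ ‖z - pt t₀‖ + ‖pt t₀‖ := by
      have := norm_add_le (z - pt t₀) (pt t₀)
      rwa [sub_add_cancel] at this
    linarith
  have hiP : IntegrableOn (fun z => Real.log ‖f z‖) (closedBall (0 : ℂ) R) :=
    (locInt hf h0).integrableOn_isCompact (isCompact_closedBall _ _)
  have hiU : IntegrableOn (fun z => x * (U0 z + a)) (closedBall (0 : ℂ) R) :=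
    (((continuous_U0.add continuous_const).const_mul x).locallyIntegrable.integrableOn_isCompact
      (isCompact_closedBall _ _))
  have h2 : |∫ z in ball (pt t₀) δ, (Real.log ‖f z‖ - x * (U0 z + a))| ≤ ω := by
    refine (abs_integral_le_integral_abs).trans ?_
    refine le_trans ?_ h
    exact setIntegral_mono_set (hiP.sub hiU).abs (Eventually.of_forall fun z => abs_nonneg _)
      hsub.eventuallyLE
  rw [integral_sub (hiP.mono_set hsub) (hiU.mono_set hsub)] at h2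
  have hvol := vol_ball_real (pt t₀) hδ.le
  have h3 : |(∫ z in ball (pt t₀) δ, x * (U0 z + a)) - π * δ ^ 2 * (x * a)| ≤
      π * δ ^ 2 * (x * δ / 2) := by
    have e : (∫ z in ball (pt t₀) δ, x * (U0 z + a)) - π * δ ^ 2 * (x * a) =
        ∫ z in ball (pt t₀) δ, (x * (U0 z + a) - x * a) := by
      rw [integral_sub (hiU.mono_set hsub) (integrableOn_const measure_ball_lt_top.ne),
        setIntegral_const, hvol, smul_eq_mul]
    rw [e]
    have h4 : ‖∫ z in ball (pt t₀) δ, (x * (U0 z + a) - x * a)‖ ≤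
        (x * δ / 2) * (volume : Measure ℂ).real (ball (pt t₀) δ) := by
      refine norm_setIntegral_le_of_norm_le_const measure_ball_lt_top fun z hz => ?_
      rw [mem_ball, dist_eq_norm] at hz
      have e2 : x * (U0 z + a) - x * a = x * U0 z := by ring
      rw [e2, Real.norm_eq_abs, abs_mul, abs_of_nonneg hx, abs_of_nonneg (U0_nonneg z)]
      have h5 := Complex.abs_re_le_norm (z - pt t₀)
      have h6 : (z - pt t₀ : ℂ).re = z.re - 1 / 2 := by rw [Complex.sub_re, pt_re]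
      rw [h6] at h5
      unfold U0
      calc x * (|z.re - 1 / 2| / 2) ≤ x * (δ / 2) := by gcongr; linarith
        _ = x * δ / 2 := by ring
    rw [hvol, Real.norm_eq_abs] at h4
    linarith
  have hpd : 0 < π * δ ^ 2 := by positivity
  have h7 : |π * δ ^ 2 * (l + S + mu f (pt t₀) * Real.log δ - x * a)| ≤
      π * δ ^ 2 * N + π * δ ^ 2 * (x * δ / 2) + ω := by
    rw [abs_le] at h1 h2 h3 ⊢
    constructor <;> linarith [h1.1, h1.2, h2.1, h2.2, h3.1, h3.2]
  rw [abs_mul, abs_of_pos hpd] at h7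
  have h8 : |l + S + mu f (pt t₀) * Real.log δ - x * a| ≤ N + x * δ / 2 + ω / (π * δ ^ 2) := by
    have e : π * δ ^ 2 * N + π * δ ^ 2 * (x * δ / 2) + ω =
        π * δ ^ 2 * (N + x * δ / 2 + ω / (π * δ ^ 2)) := by
      field_simp
    rw [e] at h7
    exact le_of_mul_le_mul_left h7 hpd
  have h9 : |mu f (pt t₀) * Real.log δ| = mu f (pt t₀) * |Real.log δ| := by
    rw [abs_mul, abs_of_nonneg (mu_nonneg _ _)]
  calc |l - x * a + S| = |(l + S + mu f (pt t₀) * Real.log δ - x * a) -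
        mu f (pt t₀) * Real.log δ| := by congr 1; ring
    _ ≤ |l + S + mu f (pt t₀) * Real.log δ - x * a| + |mu f (pt t₀) * Real.log δ| := abs_sub _ _
    _ ≤ _ := by rw [h9]; linarith

/-- the difference of two logarithms -/
noncomputable def gg (r₁ r₂ : ℝ) (w : ℂ) : ℝ := Real.log (max r₂ ‖w‖) - Real.log (max r₁ ‖w‖)

lemma gg_cont {r₁ r₂ : ℝ} (h1 : 0 < r₁) (h2 : 0 < r₂) : Continuous (gg r₁ r₂) := by
  unfold gg
  refine Continuous.sub ?_ ?_
  · exact Continuous.log (by fun_prop) fun w => (h2.trans_le (le_max_left _ _)).ne'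
  · exact Continuous.log (by fun_prop) fun w => (h1.trans_le (le_max_left _ _)).ne'

lemma gg_far {r₁ r₂ : ℝ} (h2 : r₁ ≤ r₂) {w : ℂ} (h : r₂ ≤ ‖w‖) : gg r₁ r₂ w = 0 := by
  unfold gg
  rw [max_eq_right h, max_eq_right (h2.trans h), sub_self]

lemma gg_zero {r₁ r₂ : ℝ} (h1 : 0 < r₁) (h2 : 0 < r₂) :
    gg r₁ r₂ 0 = Real.log r₂ - Real.log r₁ := by
  unfold gg
  rw [norm_zero, max_eq_left h2.le, max_eq_left h1.le]

lemma gg_comp {r₁ r₂ : ℝ} (h2 : r₁ ≤ r₂) (c : ℂ) :
    HasCompactSupport fun z : ℂ => gg r₁ r₂ (z - c) := by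
  refine HasCompactSupport.of_support_subset_isCompact (isCompact_closedBall c r₂) ?_
  intro z hz
  rw [mem_closedBall, dist_eq_norm]
  by_contra h
  exact hz (gg_far h2 (not_le.1 h).le)

/-- the logarithm with the maximum -/
lemma lk_max {r : ℝ} (hr : 0 < r) {w : ℂ} (hw : w ≠ 0) :
    lk r w = Real.log (max r ‖w‖) - Real.log ‖w‖ := by
  have hw' : 0 < ‖w‖ := norm_pos_iff.2 hw
  rcases le_total ‖w‖ r with h | h
  · rw [lk_near hw h, max_eq_left h, ← div_eq_mul_inv, Real.log_div hr.ne' hw'.ne']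
  · rw [lk_far hr.le h, max_eq_right h, sub_self]

lemma lk_gg {r₁ r₂ : ℝ} (h1 : 0 < r₁) (h2 : 0 < r₂) {w : ℂ} (hw : w ≠ 0) :
    lk r₂ w = lk r₁ w + gg r₁ r₂ w := by
  rw [lk_max h2 hw, lk_max h1 hw]
  unfold gg
  ring

/-- the integral over the line -/
lemma gg_int {r₁ r₂ : ℝ} (h1 : 0 < r₁) (h2 : r₁ ≤ r₂) (t₀ : ℝ) :
    ∫ t : ℝ, gg r₁ r₂ (pt t - pt t₀) = 2 * (r₂ - r₁) := by
  have h20 : 0 < r₂ := h1.trans_le h2
  set φ : ℝ → ℝ := fun s => Real.log (max r₂ s) - Real.log (max r₁ s) with hφ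
  have hφc : Continuous φ := by
    refine Continuous.sub ?_ ?_
    · exact Continuous.log (by fun_prop) fun w => (h20.trans_le (le_max_left _ _)).ne'
    · exact Continuous.log (by fun_prop) fun w => (h1.trans_le (le_max_left _ _)).ne'
  have e1 : ∀ t : ℝ, gg r₁ r₂ (pt t - pt t₀) = φ |t - t₀| := by
    intro t
    have : (pt t - pt t₀ : ℂ) = ((t - t₀ : ℝ) : ℂ) * Complex.I := by
      apply Complex.ext
      · simp [pt]
      · simp [pt]
    rw [this, hφ]
    unfold gg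
    rw [norm_mul, Complex.norm_I, mul_one, Complex.norm_real, Real.norm_eq_abs]
  simp_rw [e1]
  rw [integral_sub_right_eq_self (fun t : ℝ => φ |t|) t₀, integral_comp_abs (f := φ)]
  congr 1
  have e2 : ∫ s in Ioi (0 : ℝ), φ s = ∫ s in Ioc (0 : ℝ) r₂, φ s := by
    refine setIntegral_eq_of_subset_of_forall_sdiff_eq_zero (μ := volume) (s := Ioc (0 : ℝ) r₂)
      (t := Ioi (0 : ℝ)) (f := φ) measurableSet_Ioi Ioc_subset_Ioi_self fun s hs => ?_
    have h3 : r₂ < s := by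
      by_contra h4
      exact hs.2 ⟨hs.1, not_lt.1 h4⟩
    rw [hφ]
    simp only
    rw [max_eq_right h3.le, max_eq_right (h2.trans h3.le), sub_self]
  rw [e2, ← intervalIntegral.integral_of_le h20.le]
  have e3 : ∫ s in (0 : ℝ)..r₂, φ s = (∫ s in (0 : ℝ)..r₁, φ s) + ∫ s in r₁..r₂, φ s :=
    (intervalIntegral.integral_add_adjacent_intervals (hφc.intervalIntegrable _ _)
      (hφc.intervalIntegrable _ _)).symm
  have e4 : ∫ s in (0 : ℝ)..r₁, φ s = ∫ s in (0 : ℝ)..r₁, (Real.log r₂ - Real.log r₁) := by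
    refine intervalIntegral.integral_congr fun s hs => ?_
    rw [uIcc_of_le h1.le] at hs
    rw [hφ]
    simp only
    rw [max_eq_left hs.2, max_eq_left (hs.2.trans h2)]
  have e5 : ∫ s in r₁..r₂, φ s = ∫ s in r₁..r₂, (Real.log r₂ - Real.log s) := by
    refine intervalIntegral.integral_congr fun s hs => ?_
    rw [uIcc_of_le h2] at hs
    rw [hφ]
    simp only
    rw [max_eq_left hs.2, max_eq_right hs.1]
  have e6 : ∫ s in r₁..r₂, (Real.log r₂ - Real.log s) =
      (r₂ - r₁) * Real.log r₂ - (r₂ * Real.log r₂ - r₁ * Real.log r₁ - r₂ + r₁) := by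
    rw [intervalIntegral.integral_sub (by simp) intervalIntegral.intervalIntegrable_log',
      intervalIntegral.integral_const, integral_log, smul_eq_mul]
  rw [e3, e4, e5, e6, intervalIntegral.integral_const, smul_eq_mul]
  ring

/-- a change of the radius -/
lemma radius {f : ℂ → ℂ} (hf : Differentiable ℂ f) {z₀ : ℂ} (h0 : f z₀ ≠ 0) {r₁ r₂ : ℝ}
    (h1 : 0 < r₁) (h2 : r₁ ≤ r₂) (c : ℂ) :
    ∑ᶠ u, mu f u * lk r₂ (u - c) = (∑ᶠ u, mu f u * lk r₁ (u - c)) +
      (∑ᶠ u, mu f u * gg r₁ r₂ (u - c)) - mu f c * (Real.log r₂ - Real.log r₁) := by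
  classical
  have h20 : 0 < r₂ := h1.trans_le h2
  set Z : Finset ℂ := insert c (fin_zeros hf h0 c r₂).toFinset with hZ
  have key : ∀ g : ℂ → ℝ, (∀ u, r₂ < ‖u - c‖ → g u = 0) →
      ∑ᶠ u, mu f u * g u = ∑ u ∈ Z, mu f u * g u := by
    intro g hg
    refine finsum_eq_sum_of_support_subset _ fun u hu => ?_
    rw [Function.mem_support] at hu
    rw [hZ, Finset.mem_coe, Finset.mem_insert, Set.Finite.mem_toFinset]
    right
    refine ⟨mu_ne hf (left_ne_zero_of_mul hu), ?_⟩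
    by_contra hcon
    rw [mem_closedBall, dist_eq_norm, not_le] at hcon
    exact right_ne_zero_of_mul hu (hg u hcon)
  rw [key _ (fun u hu => lk_far h20.le hu.le), key _ (fun u hu => lk_far h1.le (h2.trans hu.le)),
    key _ (fun u hu => gg_far h2 hu.le), ← Finset.sum_add_distrib]
  have hc : c ∈ Z := Finset.mem_insert_self _ _
  rw [← Finset.add_sum_erase _ _ hc, ← Finset.add_sum_erase _ (fun u => mu f u * lk r₁ (u - c) +
    mu f u * gg r₁ r₂ (u - c)) hc]
  have e1 : ∑ u ∈ Z.erase c, mu f u * lk r₂ (u - c) =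
      ∑ u ∈ Z.erase c, (mu f u * lk r₁ (u - c) + mu f u * gg r₁ r₂ (u - c)) := by
    refine Finset.sum_congr rfl fun u hu => ?_
    rw [lk_gg h1 h20 (sub_ne_zero.2 (Finset.ne_of_mem_erase hu))]
    ring
  rw [e1]
  simp only [sub_self]
  rw [gg_zero h1 h20]
  have e2 : ∀ r : ℝ, lk r 0 = 0 := fun r => by
    unfold lk
    simp
  rw [e2, e2]
  ring

section family
variable {ι : Type} {l : Filter ι} {x : ι → ℝ} {Λ : ι → ℂ → ℂ}

/-- equidistribution, uniformly for the translates of a function -/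
theorem equi_unif (hent : ∀ i, Differentiable ℂ (Λ i)) (hne : ∀ i, Λ i 2 ≠ 0)
    (hx : ∀ᶠ i in l, 0 < x i)
    (heq : ∀ (g : ℂ → ℝ), Continuous g → HasCompactSupport g → ∀ c : ℝ, 0 < c →
      ∀ᶠ i in l, |(∑ᶠ u, mu (Λ i) u * g u) - x i / (2 * π) * ∫ t : ℝ, g (pt t)| ≤ c * x i)
    {g : ℂ → ℝ} (hg : Continuous g) (hgc : HasCompactSupport g) (T : ℝ) {κ : ℝ} (hκ : 0 < κ) :
    ∀ᶠ i in l, ∀ t : ℝ, |t| ≤ T →
      |(∑ᶠ u, mu (Λ i) u * g (u - t * Complex.I)) - x i / (2 * π) * ∫ s : ℝ, g (pt s)| ≤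
        κ * x i := by
  classical
  obtain ⟨r, hr⟩ := hgc.isCompact.isBounded.subset_closedBall (0 : ℂ)
  have hgr : ∀ z : ℂ, g z ≠ 0 → ‖z‖ ≤ r := fun z hz =>
    mem_closedBall_zero_iff.1 (hr (subset_tsupport g hz))
  set R : ℝ := |r| + |T| + 1 with hR
  -- the number of the zeros
  set g₁ : ℂ → ℝ := fun z => max 0 (min 1 (R + 1 - ‖z‖)) with hg₁
  have hg₁c : Continuous g₁ := by
    rw [hg₁]
    fun_prop
  have hg₁z : ∀ z : ℂ, R + 1 < ‖z‖ → g₁ z = 0 := fun z hz =>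
    max_eq_left ((min_le_right _ _).trans (by linarith))
  have hg₁k : HasCompactSupport g₁ := by
    refine HasCompactSupport.of_support_subset_isCompact (isCompact_closedBall (0 : ℂ) (R + 1)) ?_
    intro z hz
    rw [mem_closedBall_zero_iff]
    by_contra h
    exact hz (hg₁z z (not_le.1 h))
  set M : ℝ := 1 / (2 * π) * |∫ t : ℝ, g₁ (pt t)| + 1 with hM
  have hpi := Real.pi_pos
  have hM0 : 0 < M := by positivity
  have hN : ∀ᶠ i in l, nz (Λ i) (closedBall 0 R) ≤ M * x i := by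
    filter_upwards [heq g₁ hg₁c hg₁k 1 one_pos, hx] with i hi hxi
    have h1 := nz_le_finsum (hent i) (hne i) (S := closedBall 0 R) (R := R + 1) (g := g₁)
      (closedBall_subset_closedBall (by linarith)) (fun z => le_max_left _ _)
      (fun z hz => le_max_of_le_right (le_min le_rfl (by
        rw [mem_closedBall_zero_iff] at hz
        linarith))) hg₁z
    have h2 := (abs_le.1 hi).2
    have h3 : x i / (2 * π) * ∫ t : ℝ, g₁ (pt t) ≤ 1 / (2 * π) * |∫ t : ℝ, g₁ (pt t)| * x i := by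
      calc x i / (2 * π) * ∫ t : ℝ, g₁ (pt t) ≤ x i / (2 * π) * |∫ t : ℝ, g₁ (pt t)| := by
            gcongr
            exact le_abs_self _
        _ = _ := by ring
    have h4 : M * x i = 1 / (2 * π) * |∫ t : ℝ, g₁ (pt t)| * x i + 1 * x i := by
      rw [hM]
      ring
    linarith
  -- uniform continuity
  set κ₁ : ℝ := κ / (2 * M) with hκ₁
  have hκ₁0 : 0 < κ₁ := by positivity
  obtain ⟨θ₀, hθ₀, huc⟩ := Metric.uniformContinuous_iff.1
    (hgc.uniformContinuous_of_continuous hg) κ₁ hκ₁0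
  set θ : ℝ := min (θ₀ / 2) 1 with hθ
  have hθ0 : 0 < θ := lt_min (by positivity) one_pos
  have hθ1 : θ ≤ 1 := min_le_right _ _
  have hθ2 : θ < θ₀ := lt_of_le_of_lt (min_le_left _ _) (by linarith)
  -- the net
  set N : ℕ := ⌈|T| / θ⌉₊ + 1 with hNd
  have hnet : ∀ᶠ i in l, ∀ j ∈ Finset.Icc (-(N : ℤ)) N,
      |(∑ᶠ u, mu (Λ i) u * g (u - ((j * θ : ℝ) : ℂ) * Complex.I)) -
        x i / (2 * π) * ∫ s : ℝ, g (pt s)| ≤ κ / 2 * x i := by
    rw [Filter.eventually_all_finset]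
    intro j _
    have hgt : Continuous fun z : ℂ => g (z - ((j * θ : ℝ) : ℂ) * Complex.I) :=
      hg.comp (continuous_id.sub continuous_const)
    have hgk : HasCompactSupport fun z : ℂ => g (z - ((j * θ : ℝ) : ℂ) * Complex.I) := by
      have h := hgc.comp_homeomorph (Homeomorph.addRight (-(((j * θ : ℝ) : ℂ) * Complex.I) : ℂ))
      have e : (g ∘ (Homeomorph.addRight (-(((j * θ : ℝ) : ℂ) * Complex.I) : ℂ))) =
          fun z : ℂ => g (z - ((j * θ : ℝ) : ℂ) * Complex.I) := by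
        funext z
        simp [sub_eq_add_neg]
      rwa [e] at h
    have h1 := heq _ hgt hgk (κ / 2) (by positivity)
    have e : ∫ s : ℝ, g (pt s - ((j * θ : ℝ) : ℂ) * Complex.I) = ∫ s : ℝ, g (pt s) := by
      simp_rw [pt_sub]
      exact integral_sub_right_eq_self (fun s : ℝ => g (pt s)) (j * θ)
    rwa [e] at h1
  filter_upwards [hN, hnet, hx] with i h1 h2 hxi t ht
  set j : ℤ := ⌊t / θ⌋ with hj
  have j1 : (j : ℝ) * θ ≤ t := by
    have := Int.floor_le (t / θ)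
    rwa [le_div_iff₀ hθ0] at this
  have j2 : t < j * θ + θ := by
    have := Int.lt_floor_add_one (t / θ)
    rw [div_lt_iff₀ hθ0] at this
    linarith
  have ht' := abs_le.1 ht
  have hTT := le_abs_self T
  have hjm : j ∈ Finset.Icc (-(N : ℤ)) N := by
    have hc := Nat.le_ceil (|T| / θ)
    have k1 : t / θ ≤ |T| / θ := by
      gcongr
      linarith
    have k2 : -(|T| / θ) ≤ t / θ := by
      rw [← neg_div]
      gcongr
      linarith
    rw [Finset.mem_Icc]
    constructor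
    · have : (-(N : ℤ) : ℝ) ≤ (j : ℝ) := by
        have h3 := Int.lt_floor_add_one (t / θ)
        rw [hNd]
        push_cast
        linarith
      exact_mod_cast this
    · have : (j : ℝ) ≤ (N : ℝ) := by
        have h3 := Int.floor_le (t / θ)
        rw [hNd]
        push_cast
        linarith
      exact_mod_cast this
  have h3 := h2 j hjm
  set tj : ℝ := j * θ with htj
  -- the finite set of the zeros
  set Z : Finset ℂ := (finite_zeros (hent i) (hne i) R).toFinset with hZ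
  have hNZ : nz (Λ i) (closedBall 0 R) = ∑ u ∈ Z, mu (Λ i) u := by
    refine nz_eq (fun u h1 h2 => ?_) (fun u h1 => ?_) (hent i)
    · exact (Finite.mem_toFinset _).2 ⟨h2, h1⟩
    · exact ((Finite.mem_toFinset _).1 h1).2
  have hsum : ∀ a : ℝ, |a| ≤ |T| + 1 → ∑ᶠ u, mu (Λ i) u * g (u - a * Complex.I) =
      ∑ u ∈ Z, mu (Λ i) u * g (u - a * Complex.I) := by
    intro a ha
    refine finsum_eq_sum_of_support_subset _ fun u hu => ?_
    rw [Function.mem_support] at hu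
    rw [hZ, Finset.mem_coe, Finite.mem_toFinset]
    refine ⟨mu_ne (hent i) (left_ne_zero_of_mul hu), ?_⟩
    have h4 := hgr _ (right_ne_zero_of_mul hu)
    rw [mem_closedBall_zero_iff]
    have h5 : ‖u‖ ≤ ‖u - a * Complex.I‖ + ‖(a * Complex.I : ℂ)‖ := by
      have := norm_add_le (u - a * Complex.I) (a * Complex.I)
      rwa [sub_add_cancel] at this
    rw [norm_mul, Complex.norm_I, mul_one, Complex.norm_real, Real.norm_eq_abs] at h5
    have := le_abs_self r
    linarith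
  have hTabs := abs_nonneg T
  have hta : |t| ≤ |T| + 1 := by linarith
  have htja : |tj| ≤ |T| + 1 := abs_le.2 ⟨by linarith, by linarith⟩
  have hdiff : |(∑ᶠ u, mu (Λ i) u * g (u - t * Complex.I)) -
      ∑ᶠ u, mu (Λ i) u * g (u - tj * Complex.I)| ≤ κ / 2 * x i := by
    rw [hsum t hta, hsum tj htja, ← Finset.sum_sub_distrib]
    refine (Finset.abs_sum_le_sum_abs _ _).trans ?_
    have h4 : ∀ u ∈ Z, |mu (Λ i) u * g (u - t * Complex.I) - mu (Λ i) u * g (u - tj * Complex.I)| ≤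
        mu (Λ i) u * κ₁ := by
      intro u _
      rw [← mul_sub, abs_mul, abs_of_nonneg (mu_nonneg _ _)]
      refine mul_le_mul_of_nonneg_left ?_ (mu_nonneg _ _)
      have h5 : Dist.dist (u - t * Complex.I) (u - tj * Complex.I) < θ₀ := by
        rw [dist_eq_norm]
        have e : (u - t * Complex.I - (u - tj * Complex.I) : ℂ) = ((tj - t : ℝ) : ℂ) * Complex.I := by
          push_cast
          ring
        rw [e, norm_mul, Complex.norm_I, mul_one, Complex.norm_real, Real.norm_eq_abs]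
        refine lt_of_le_of_lt (abs_le.2 ⟨?_, ?_⟩) hθ2 <;> linarith
      have h6 := huc h5
      rw [Real.dist_eq] at h6
      exact h6.le
    refine (Finset.sum_le_sum h4).trans ?_
    rw [← Finset.sum_mul, ← hNZ]
    calc nz (Λ i) (closedBall 0 R) * κ₁ ≤ M * x i * κ₁ := by gcongr
      _ = κ / 2 * x i := by
          rw [hκ₁]
          field_simp
  have h7 := abs_add_le ((∑ᶠ u, mu (Λ i) u * g (u - t * Complex.I)) -
      ∑ᶠ u, mu (Λ i) u * g (u - tj * Complex.I))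
      ((∑ᶠ u, mu (Λ i) u * g (u - tj * Complex.I)) - x i / (2 * π) * ∫ s : ℝ, g (pt s))
  rw [sub_add_sub_cancel] at h7
  linarith

/-- **The law for families of entire functions.** -/
theorem law_lim (hent : ∀ i, Differentiable ℂ (Λ i)) (hne : ∀ i, Λ i 2 ≠ 0)
    (hx : ∀ᶠ i in l, 0 < x i)
    (h5 : ∀ T ε : ℝ, 0 ≤ T → 0 < ε → ∀ᶠ i in l, ∫ z in closedBall (0 : ℂ) T,
        VV (x i) (Λ i) z ≤ ε * x i)
    (h2 : ∀ g : ℂ → ℝ, Continuous g → HasCompactSupport g →
        Tendsto (fun i => (∑ᶠ u, mu (Λ i) u * g u) / x i) l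
          (𝓝 (1 / (2 * π) * ∫ t : ℝ, g (pt t)))) (T : ℝ) {δ ε : ℝ} (hδ : 0 < δ) (hε : 0 < ε) :
    ∀ᶠ i in l, ∀ t₀ : ℝ, |t₀| ≤ T →
      |Real.log ‖meromorphicTrailingCoeffAt (Λ i) (pt t₀)‖ - x i * (1 / 4) +
        ∑ᶠ u, mu (Λ i) u * lk δ (u - pt t₀) - δ / π * x i| ≤ ε * x i ∧
      mu (Λ i) (pt t₀) ≤ ε * x i := by
  have hpi := Real.pi_gt_three
  have heq : ∀ (g : ℂ → ℝ), Continuous g → HasCompactSupport g → ∀ c : ℝ, 0 < c →
      ∀ᶠ i in l, |(∑ᶠ u, mu (Λ i) u * g u) - x i / (2 * π) * ∫ t : ℝ, g (pt t)| ≤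
        c * x i := by
    intro g hg hgc c hc
    have h3 := Metric.tendsto_nhds.1 (h2 g hg hgc) c hc
    filter_upwards [h3, hx] with i hi hxi
    rw [Real.dist_eq] at hi
    have e : (∑ᶠ u, mu (Λ i) u * g u) / x i - 1 / (2 * π) * ∫ t : ℝ, g (pt t) =
        ((∑ᶠ u, mu (Λ i) u * g u) - x i / (2 * π) * ∫ t : ℝ, g (pt t)) / x i := by
      field_simp
    rw [e, abs_div, abs_of_pos hxi, div_lt_iff₀ hxi] at hi
    exact hi.le
  have heu := fun (g : ℂ → ℝ) (hg : Continuous g) (hgc : HasCompactSupport g) (c : ℝ)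
    (hc : 0 < c) => equi_unif hent hne hx heq hg hgc T hc
  set δ₁ : ℝ := min δ (ε / 8) with hδ₁
  have hd0 : 0 < δ₁ := lt_min hδ (by positivity)
  have hd1 : δ₁ ≤ δ := min_le_left _ _
  have hd2 : δ₁ ≤ ε / 8 := min_le_right _ _
  set η : ℝ := ε / (8 * (|Real.log δ₁| + |Real.log δ| + 1)) with hη
  have hη0 : 0 < η := by positivity
  have hη1 : η ≤ ε := by
    refine div_le_self hε.le ?_
    have := abs_nonneg (Real.log δ₁)
    have := abs_nonneg (Real.log δ)
    linarith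
  set R : ℝ := T + 1 + δ₁ with hR
  have hgk : HasCompactSupport fun z : ℂ => gg δ₁ δ (z - 1 / 2) := gg_comp hd1 (1 / 2)
  have hgc : Continuous fun z : ℂ => gg δ₁ δ (z - 1 / 2) :=
    (gg_cont hd0 hδ).comp (continuous_id.sub continuous_const)
  filter_upwards [hx, h5 (max R 0) (π * δ₁ ^ 2 * (ε / 8)) (le_max_right _ _) (by positivity),
    heu _ (bp_cont δ₁) (bp_comp hd0) (δ₁ / 4) (by positivity),
    heu _ (bp_cont η) (bp_comp hη0) (η / 4) (by positivity),
    heu _ hgc hgk (ε / 8) (by positivity)] with i hxi a1 a2' a3' a4' t₀ ht₀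
  have hR' : ‖pt t₀‖ + δ₁ ≤ max R 0 := by
    have := pt_norm ht₀
    refine le_trans ?_ (le_max_left _ _)
    linarith
  have etr : ∀ r : ℝ, ∫ t : ℝ, bp r (pt t - t₀ * Complex.I) = ∫ t : ℝ, bp r (pt t) := by
    intro r
    simp_rw [pt_sub]
    exact integral_sub_right_eq_self (fun s : ℝ => bp r (pt s)) t₀
  have a2 := a2' t₀ ht₀
  have a3 := a3' t₀ ht₀
  rw [← etr] at a2 a3
  have b1 := nz_bumpc (hent i) (hne i) hd0 hxi a2
  have b2 := (mu_le_nz (hent i) (hne i) (c := pt t₀) hη0).trans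
    (nz_bumpc (hent i) (hne i) hη0 hxi a3)
  have b3 := law_onec (a := 1 / 4) (hent i) (hne i) hd0 hR' hxi.le a1
  have b4 := radius (hent i) (hne i) hd0 hd1 (pt t₀)
  have a4 := a4' t₀ ht₀
  have e0 : ∀ u : ℂ, (u - t₀ * Complex.I - 1 / 2 : ℂ) = u - pt t₀ := by
    intro u
    rw [← pt_half]
    ring
  have e00 : ∫ s : ℝ, gg δ₁ δ (pt s - 1 / 2) = 2 * (δ - δ₁) := by
    have h1 := gg_int hd0 hd1 0
    have h2 : pt 0 = 1 / 2 := by
      have := pt_half 0
      rw [Complex.ofReal_zero, zero_mul] at this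
      exact sub_eq_zero.1 this
    rwa [h2] at h1
  simp only [e0] at a4
  rw [e00] at a4
  set l₀ := Real.log ‖meromorphicTrailingCoeffAt (Λ i) (pt t₀)‖
  set S := ∑ᶠ u, mu (Λ i) u * lk δ (u - pt t₀)
  set S₁ := ∑ᶠ u, mu (Λ i) u * lk δ₁ (u - pt t₀)
  set G := ∑ᶠ u, mu (Λ i) u * gg δ₁ δ (u - pt t₀)
  set m := mu (Λ i) (pt t₀)
  have hm : 0 ≤ m := mu_nonneg _ _
  refine ⟨?_, b2.trans (mul_le_mul_of_nonneg_right hη1 hxi.le)⟩
  have e1 : π * δ₁ ^ 2 * (ε / 8) * x i / (π * δ₁ ^ 2) = ε / 8 * x i := by field_simp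
  rw [e1] at b3
  have e2 : x i / (2 * π) * (2 * (δ - δ₁)) = (δ / π) * x i - δ₁ / π * x i := by
    field_simp
  rw [e2] at a4
  have c1 : m * (|Real.log δ₁| + |Real.log δ| + 1) ≤ ε / 8 * x i := by
    calc m * (|Real.log δ₁| + |Real.log δ| + 1) ≤
          η * x i * (|Real.log δ₁| + |Real.log δ| + 1) := by gcongr
      _ = ε / 8 * x i := by
          rw [hη]
          field_simp
  have c2 : m * |Real.log δ₁| ≤ ε / 8 * x i := by
    refine le_trans (mul_le_mul_of_nonneg_left ?_ hm) c1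
    have := abs_nonneg (Real.log δ)
    linarith
  have c3 : |m * (Real.log δ - Real.log δ₁)| ≤ ε / 8 * x i := by
    rw [abs_mul, abs_of_nonneg hm]
    refine le_trans (mul_le_mul_of_nonneg_left ?_ hm) c1
    refine (abs_sub _ _).trans ?_
    linarith
  have c4 : δ₁ * x i ≤ ε / 8 * x i := mul_le_mul_of_nonneg_right hd2 hxi.le
  have c5 : δ₁ / π * x i ≤ ε / 8 * x i := by
    refine mul_le_mul_of_nonneg_right ((div_le_self hd0.le (by linarith)).trans hd2) hxi.le
  have c6 : 0 ≤ δ₁ / π * x i := by positivity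
  have c7 : 0 < ε * x i := by positivity
  rw [abs_le] at b3 a4 c3 ⊢
  rw [b4]
  constructor <;> linarith [b3.1, b3.2, a4.1, a4.2, c3.1, c3.2]

end family

section deg
variable {c b : ℝ → ℝ} {k n : ℕ} {x : ℝ} {Λ L : ℂ → ℂ}

/-- the leading coefficients of `Λ` and `L` -/
lemma Deg.tc (h : Deg c b k n x Λ L) {t₀ T : ℝ} (hT : ‖pt t₀‖ ≤ T) :
    |Real.log ‖meromorphicTrailingCoeffAt Λ (pt t₀)‖ - x * (1 / 4) -
      Real.log ‖meromorphicTrailingCoeffAt L (pt t₀)‖| ≤ n * (c T + dd (1 / 2) T) := by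
  obtain ⟨γ, g1, g2, g3, -⟩ := h.fac
  set p : ℂ := pt t₀ with hp
  have hre : p.re = 1 / 2 := pt_re t₀
  have hp1 : p ≠ 1 := pt_ne_one t₀
  have hop : IsOpen {z : ℂ | 0 < z.re ∧ z ≠ 1} :=
    (isOpen_lt continuous_const Complex.continuous_re).inter isOpen_ne
  have hpm : p ∈ {z : ℂ | 0 < z.re ∧ z ≠ 1} := ⟨by rw [hre]; norm_num, hp1⟩
  set k' : ℂ → ℂ := fun z => Complex.exp (((x / 2 : ℝ) : ℂ) * z) * γ z * (z - 1) ^ k with hk
  have hd : DifferentiableOn ℂ k' {z : ℂ | 0 < z.re ∧ z ≠ 1} := by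
    intro z hz
    refine DifferentiableAt.differentiableWithinAt ?_
    refine DifferentiableAt.mul (DifferentiableAt.mul ?_ (g1 z hz.1).1) ?_
    · exact ((differentiableAt_id.const_mul _).cexp)
    · exact (differentiableAt_id.sub_const _).pow _
  have hka := hd.analyticAt (hop.mem_nhds hpm)
  have hL : AnalyticAt ℂ L p := by
    have : DifferentiableOn ℂ L {z : ℂ | 0 < z.re ∧ z ≠ 1} := fun z hz =>
      (h.dif z hz.1 hz.2).differentiableWithinAt
    exact this.analyticAt (hop.mem_nhds hpm)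
  have hγ : γ p ≠ 0 := (g1 p hpm.1).2
  have hs1 : p - 1 ≠ 0 := sub_ne_zero.2 hp1
  have hk0 : k' p ≠ 0 :=
    mul_ne_zero (mul_ne_zero (Complex.exp_ne_zero _) hγ) (pow_ne_zero _ hs1)
  have hLo : meromorphicOrderAt L p ≠ ⊤ := by
    rw [hL.meromorphicOrderAt_eq]
    have h2 := order_ne_top h.ent (z₀ := 2) (h.neL (by norm_num)) p
    rw [h.order hpm.1 hp1] at h2
    intro h3
    rw [ENat.map_eq_top_iff] at h3
    exact h2 h3
  have h1 : Λ =ᶠ[𝓝[≠] p] k' * L := by
    refine Filter.Eventually.filter_mono nhdsWithin_le_nhds ?_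
    filter_upwards [hop.mem_nhds hpm] with z hz
    rw [g2 z hz.1 hz.2, Pi.mul_apply, hk]
    ring
  rw [meromorphicTrailingCoeffAt_congr_nhdsNE h1,
    MeromorphicAt.meromorphicTrailingCoeffAt_mul hka.meromorphicAt hL.meromorphicAt,
    hka.meromorphicTrailingCoeffAt_of_ne_zero hk0, norm_mul,
    Real.log_mul (norm_ne_zero_iff.2 hk0)
      (norm_ne_zero_iff.2 (hL.meromorphicAt.meromorphicTrailingCoeffAt_ne_zero hLo))]
  have e : Real.log ‖k' p‖ = x * (1 / 4) + Real.log ‖γ p‖ + k * Real.log ‖p - 1‖ := by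
    rw [hk]
    simp only
    rw [norm_mul, norm_mul, norm_pow, exp_norm, hre,
      Real.log_mul (by have := norm_pos_iff.2 hγ; positivity)
        (by have := norm_pos_iff.2 hs1; positivity),
      Real.log_mul (Real.exp_ne_zero _) (norm_ne_zero_iff.2 hγ), Real.log_exp, Real.log_pow]
    ring
  rw [e]
  have h4 := g3 T p (by rw [hre]) hT
  have h5 : |Real.log ‖p - 1‖| ≤ dd (1 / 2) T := dd_le (by norm_num) (pt_dist t₀) hT
  have hkn : (k : ℝ) ≤ n := by exact_mod_cast h.kn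
  have h6 : |(k : ℝ) * Real.log ‖p - 1‖| ≤ n * dd (1 / 2) T := by
    rw [abs_mul, abs_of_nonneg (by positivity : (0 : ℝ) ≤ k)]
    exact mul_le_mul hkn h5 (abs_nonneg _) (by positivity)
  have e2 : x * (1 / 4) + Real.log ‖γ p‖ + k * Real.log ‖p - 1‖ +
      Real.log ‖meromorphicTrailingCoeffAt L p‖ - x * (1 / 4) -
      Real.log ‖meromorphicTrailingCoeffAt L p‖ = Real.log ‖γ p‖ + k * Real.log ‖p - 1‖ := by ring
  rw [e2, mul_add]
  exact (abs_add_le _ _).trans (add_le_add h4 h6)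

end deg

section family
variable {c b : ℝ → ℝ} {ι : Type} {l : Filter ι} {k n : ι → ℕ} {x : ι → ℝ} {Λ L : ι → ℂ → ℂ}

/-- **The law for families of L-functions.** -/
theorem deg_law (hc : ∀ T, 0 ≤ c T) (hb : ∀ ϑ, 0 ≤ b ϑ)
    (h : ∀ i, Deg c b (k i) (n i) (x i) (Λ i) (L i))
    (hA : Tendsto (fun i => x i / n i) l atTop)
    (hE : ∀ g : ℂ → ℝ, Continuous g → HasCompactSupport g →
        Tendsto (fun i => zs (L i) g / x i) l (𝓝 (1 / (2 * π) * ∫ t : ℝ, g (pt t))))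
    (T : ℝ) {δ ε : ℝ} (hδ : 0 < δ) (hε : 0 < ε) :
    ∀ᶠ i in l, ∀ t : ℝ, |t| ≤ T →
      |Real.log ‖meromorphicTrailingCoeffAt (L i) (pt t)‖ +
        zs (L i) (fun ρ => lk δ (ρ - pt t)) - δ / π * x i| ≤ ε * x i ∧
      (analyticOrderNatAt (L i) (pt t) : ℝ) ≤ ε * x i := by
  have hP := fun T η hη => deg_pot hc hb h hA (ϑ := 1 / 4) (by norm_num) le_rfl T η hη
  have hx : ∀ᶠ i in l, 0 < x i := (deg_small hA one_pos).mono fun i hi => hi.2
  have key := tfae (A := 1 / 2) (Λ := Λ) (by norm_num) hx hP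
  have hent : ∀ i, Differentiable ℂ (Λ i) := fun i => (h i).ent
  have hne : ∀ i, Λ i 2 ≠ 0 := fun i => (h i).neL (by norm_num)
  have e2 : ∀ g : ℂ → ℝ, Continuous g → HasCompactSupport g →
        Tendsto (fun i => (∑ᶠ u, mu (Λ i) u * g u) / x i) l
          (𝓝 (1 / (2 * π) * ∫ t : ℝ, g (pt t))) := by
    intro g hg hgc
    have := hE g hg hgc
    simp_rw [fun i => (h i).zs_eq g] at this
    exact this
  have e5 := (key.out 1 4).1 e2
  have h1 := law_lim hent hne hx e5 e2 T hδ (show 0 < ε / 2 by positivity)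
  set C : ℝ := c (T + 1) + dd (1 / 2) (T + 1) with hC
  have hC0 : 0 ≤ C := add_nonneg (hc _) (dd_nonneg _ _)
  filter_upwards [h1, hx, deg_small hA (show 0 < ε / (2 * (C + 1)) by positivity)] with i a1 hxi a2 t
    ht
  have a3 := (a1 t ht).1
  have a4 := (h i).tc (pt_norm ht)
  have a5 : (n i : ℝ) * C ≤ ε / 2 * x i := by
    calc (n i : ℝ) * C ≤ ε / (2 * (C + 1)) * x i * (C + 1) := by
          refine mul_le_mul a2.1 (by linarith) hC0 (by positivity)
      _ = ε / 2 * x i := by field_simp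
  rw [← hC] at a4
  constructor
  · rw [(h i).zs_eq]
    rw [abs_le] at a3 a4 ⊢
    constructor <;> linarith [a3.1, a3.2, a4.1, a4.2]
  · have a6 := (a1 t ht).2
    rw [(h i).mu_eq, if_pos (by rw [pt_re]; norm_num)] at a6
    refine a6.trans (mul_le_mul_of_nonneg_right ?_ hxi.le)
    linarith

end family

end Pool.Agent.H465.PT
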