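import Pool.Agent.H465.CG.Fam

/-!
# Project CG (helper465): families of characters of imaginary quadratic fields, the main theorem
-/

set_option autoImplicit false

open NumberField Filter Topology Set MeasureTheory
open scoped ComplexConjugate Real

namespace Pool.Agent.H465.CG

open Pool.Agent.Y773 (LI)
open Pool.Agent.H465.PT (Deg IsCont BB zs rh pt_re pt_im pt_dist)
open Pool.Agent.H465.EQ (pt)

/-- the size of the family: `#Ψ log A` -/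
noncomputable def xx {K : Type} [Field K] [NumberField K] (m : ℕ)
    (Ψ : Finset (Ideal (𝓞 K) →*₀ ℂ)) : ℝ := Ψ.card * Real.log (AA K m)

/-- the hypotheses -/
structure FamH {ι : Type} (l : Filter ι) (K : ι → Type) [∀ i, Field (K i)]
    [∀ i, NumberField (K i)] (m : ι → ℕ) (Ψ : ∀ i, Finset (Ideal (𝓞 (K i)) →*₀ ℂ))
    (L : ∀ i, (Ideal (𝓞 (K i)) →*₀ ℂ) → ℂ → ℂ) (M : ℝ) : Prop where
  M0 : 0 ≤ M
  deg2 : ∀ i, Module.finrank ℚ (K i) = 2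
  m1 : ∀ i, 1 ≤ m i
  ne : ∀ i, (Ψ i).Nonempty
  supp : ∀ i, ∀ ψ ∈ Ψ i, ∀ 𝔞 : Ideal (𝓞 (K i)), 𝔞 ≠ ⊥ →
    (ψ 𝔞 ≠ 0 ↔ IsCoprime 𝔞 (Ideal.span {(m i : 𝓞 (K i))}))
  agree : ∀ i, ∀ ψ ∈ Ψ i, ∀ ψ' ∈ Ψ i, ∀ x : 𝓞 (K i), x ≠ 0 →
    x - 1 ∈ Ideal.span {(m i : 𝓞 (K i))} → ψ (Ideal.span {x}) = ψ' (Ideal.span {x})
  data : ∀ i, ∀ ψ ∈ Ψ i, ∃ (k : ℕ) (μ : (K i →+* ℂ) → ℝ) (Λ F : ℂ → ℂ),
    HM ψ k M μ (AA (K i) (m i)) Λ F
  cont : ∀ i, ∀ ψ ∈ Ψ i, IsCont ψ (L i ψ)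
  big : Tendsto (fun i => AA (K i) (m i)) l atTop
  ratio : Tendsto (fun i => Real.log (Nat.card (ClassGroup (𝓞 (K i))) * (m i : ℝ) ^ 2 /
    (Ψ i).card) / Real.log (AA (K i) (m i))) l (𝓝 0)

section
variable {ι : Type} {l : Filter ι} {K : ι → Type} [∀ i, Field (K i)]
    [∀ i, NumberField (K i)] [∀ i, IsTotallyComplex (K i)] {m : ι → ℕ}
    {Ψ : ∀ i, Finset (Ideal (𝓞 (K i)) →*₀ ℂ)}
    {L : ∀ i, (Ideal (𝓞 (K i)) →*₀ ℂ) → ℂ → ℂ} {M : ℝ}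

/-- **the mean square** -/
theorem fam_ms (h : FamH l K m Ψ L M) {T ε : ℝ} (hε : 0 < ε) :
    ∀ᶠ i in l, ∀ t : ℝ, |t| ≤ T →
      ∑ ψ ∈ Ψ i, ‖L i ψ (pt t)‖ ^ 2 ≤ (Ψ i).card * AA (K i) (m i) ^ ε := by
  obtain ⟨C, hC, hms⟩ := sms (ε / 3) |T| M (by positivity) (abs_nonneg _) h.M0
  choose! k μ Λ F hd using h.data
  have h1 : ∀ᶠ i in l, 4 * C ≤ AA (K i) (m i) ^ (ε / 3) :=
    ((tendsto_rpow_atTop (by positivity : 0 < ε / 3)).comp h.big).eventually_ge_atTop _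
  have h2 : ∀ᶠ i in l, 1 < AA (K i) (m i) := h.big.eventually_gt_atTop 1
  have h3 := h.ratio.eventually (gt_mem_nhds (show (0 : ℝ) < ε / 3 by positivity))
  filter_upwards [h1, h2, h3] with i a1 a2 a3 t ht
  set A := AA (K i) (m i) with hA
  have hA0 : 0 < A := by linarith
  have hlog : 0 < Real.log A := Real.log_pos a2
  have hcard : (0 : ℝ) < (Ψ i).card := by exact_mod_cast (h.ne i).card_pos
  set H : ℝ := Nat.card (ClassGroup (𝓞 (K i))) * (m i : ℝ) ^ 2 with hH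
  have hH0 : 0 < H := by
    have h4 : (0 : ℝ) < m i := by exact_mod_cast h.m1 i
    have h5 : (0 : ℝ) < Nat.card (ClassGroup (𝓞 (K i))) := by exact_mod_cast Nat.card_pos
    positivity
  have b1 : H / (Ψ i).card ≤ A ^ (ε / 3) := by
    have a4 : Real.log (H / (Ψ i).card) < ε / 3 * Real.log A := (div_lt_iff₀ hlog).1 a3
    rw [Real.rpow_def_of_pos hA0, ← Real.log_le_iff_le_exp (by positivity)]
    linarith [mul_comm (ε / 3) (Real.log A)]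
  have b2 : H ≤ (Ψ i).card * A ^ (ε / 3) := by
    rw [div_le_iff₀ hcard] at b1
    linarith
  have key := hms (K i) (h.deg2 i) (m i) (h.m1 i) (Ψ i) (h.supp i) (h.agree i) (k i) (μ i) (Λ i)
    (F i) (hd i) (pt t) (pt_re t) (by rw [pt_im]; exact ht.trans (le_abs_self _))
  have hL : ∀ ψ ∈ Ψ i, ‖L i ψ (pt t)‖ ^ 2 ≤ 4 * ‖F i ψ (pt t)‖ ^ 2 := by
    intro ψ hψ
    have e1 := Pool.Agent.H465.PT.cont_eq (h.cont i ψ hψ) (hd i ψ hψ).entF (hd i ψ hψ).ser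
      (Pool.Agent.H465.PT.pt_ne_one t)
    have e2 := pt_dist t
    have e3 : 1 / 2 ≤ ‖pt t - 1‖ ^ k i ψ := by
      have : k i ψ = 0 ∨ k i ψ = 1 := by
        have := (hd i ψ hψ).k1
        omega
      rcases this with h6 | h6
      · rw [h6, pow_zero]
        norm_num
      · rw [h6, pow_one]
        exact e2
    have e4 : ‖F i ψ (pt t)‖ = ‖pt t - 1‖ ^ k i ψ * ‖L i ψ (pt t)‖ := by
      rw [e1, norm_mul, norm_pow]
    have e5 : ‖L i ψ (pt t)‖ ≤ 2 * ‖F i ψ (pt t)‖ := by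
      rw [e4]
      nlinarith [norm_nonneg (L i ψ (pt t))]
    nlinarith [norm_nonneg (L i ψ (pt t)), norm_nonneg (F i ψ (pt t))]
  calc ∑ ψ ∈ Ψ i, ‖L i ψ (pt t)‖ ^ 2 ≤ ∑ ψ ∈ Ψ i, 4 * ‖F i ψ (pt t)‖ ^ 2 := Finset.sum_le_sum hL
    _ = 4 * ∑ ψ ∈ Ψ i, ‖F i ψ (pt t)‖ ^ 2 := by rw [Finset.mul_sum]
    _ ≤ 4 * (C * H * A ^ (ε / 3)) := by
        refine mul_le_mul_of_nonneg_left key (by norm_num)
    _ = (4 * C) * (H * A ^ (ε / 3)) := by ring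
    _ ≤ A ^ (ε / 3) * ((Ψ i).card * A ^ (ε / 3) * A ^ (ε / 3)) := by
        refine mul_le_mul a1 ?_ (by positivity) (by positivity)
        exact mul_le_mul_of_nonneg_right b2 (by positivity)
    _ = (Ψ i).card * (A ^ (ε / 3) * A ^ (ε / 3) * A ^ (ε / 3)) := by ring
    _ = _ := by
        rw [← Real.rpow_add hA0, ← Real.rpow_add hA0]
        congr 2
        ring

/-- the Lindelöf hypothesis on the line, for the product -/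
theorem fam_lind (h : FamH l K m Ψ L M) {T ε : ℝ} (hε : 0 < ε) :
    ∀ᶠ i in l, ∀ t : ℝ, |t| ≤ T →
      ‖∏ ψ ∈ Ψ i, L i ψ (pt t)‖ ≤ Real.exp (xx (m i) (Ψ i) * ε) := by
  have h2 : ∀ᶠ i in l, 1 < AA (K i) (m i) := h.big.eventually_gt_atTop 1
  filter_upwards [fam_ms h (T := T) (show 0 < 2 * ε by positivity), h2] with i a1 a2 t ht
  have hA0 : 0 < AA (K i) (m i) := by linarith
  have b1 := amgm (Ψ i) (fun ψ => ‖L i ψ (pt t)‖ ^ 2) (fun _ _ => by positivity)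
    (c := AA (K i) (m i) ^ (2 * ε)) (by positivity) (a1 t ht)
  rw [Finset.prod_pow, ← norm_prod] at b1
  have e : (AA (K i) (m i) ^ (2 * ε)) ^ (Ψ i).card = Real.exp (xx (m i) (Ψ i) * ε) ^ 2 := by
    unfold xx
    rw [Real.rpow_def_of_pos hA0, ← Real.exp_nat_mul, ← Real.exp_nat_mul]
    congr 1
    push_cast
    ring
  rw [e] at b1
  exact (pow_le_pow_iff_left₀ (norm_nonneg _) (Real.exp_pos _).le two_ne_zero).1 b1

/-- the constant of the gamma factors -/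
noncomputable def cM (M : ℝ) : ℝ → ℝ := (Pool.Agent.H643.CG8.t M).choose

lemma cM_nonneg (M T : ℝ) : 0 ≤ cM M T := (Pool.Agent.H643.CG8.t M).choose_spec.1 T

/-- the analytic data of the product -/
theorem fam_deg (h : FamH l K m Ψ L M) : ∃ (k : ι → ℕ) (Λ : ι → ℂ → ℂ), ∀ i,
    Deg (cM M) BB (k i) (2 * (Ψ i).card) (xx (m i) (Ψ i)) (Λ i)
      (fun s => ∏ ψ ∈ Ψ i, L i ψ s) := by
  choose! k μ Λ F hd using h.data
  refine ⟨fun i => ∑ ψ : ↥(Ψ i), k i ψ.1, fun i s => ∏ ψ : ↥(Ψ i), Λ i ψ.1 s, fun i => ?_⟩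
  have h1 := Pool.Agent.H707.CG.sProd (cM M) BB (↥(Ψ i)) (fun ψ => k i ψ.1)
    (fun _ => Module.finrank ℚ (K i)) (fun _ => Real.log (AA (K i) (m i))) (fun ψ => Λ i ψ.1)
    (fun ψ => L i ψ.1) fun ψ => (Pool.Agent.H643.CG8.t M).choose_spec.2 (K i) ψ.1 (k i ψ.1)
      (μ i ψ.1) _ (Λ i ψ.1) (F i ψ.1) (L i ψ.1) (hd i ψ.1 ψ.2) (h.cont i ψ.1 ψ.2)
  have e1 : ∑ _ψ : ↥(Ψ i), Module.finrank ℚ (K i) = 2 * (Ψ i).card := by
    rw [Finset.sum_const, Finset.card_univ, Fintype.card_coe, h.deg2 i, smul_eq_mul, mul_comm]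
  have e2 : ∑ _ψ : ↥(Ψ i), Real.log (AA (K i) (m i)) = xx (m i) (Ψ i) := by
    rw [Finset.sum_const, Finset.card_univ, Fintype.card_coe, nsmul_eq_mul]
    rfl
  have e3 : (fun s => ∏ ψ : ↥(Ψ i), L i ψ.1 s) = fun s => ∏ ψ ∈ Ψ i, L i ψ s := by
    funext s
    exact Finset.prod_coe_sort (Ψ i) (fun ψ => L i ψ s)
  rw [e1, e2, e3] at h1
  exact h1

lemma fam_big (h : FamH l K m Ψ L M) :
    Tendsto (fun i => xx (m i) (Ψ i) / ((2 * (Ψ i).card : ℕ) : ℝ)) l atTop := by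
  have e : ∀ i, Real.log (AA (K i) (m i)) / 2 = xx (m i) (Ψ i) / ((2 * (Ψ i).card : ℕ) : ℝ) := by
    intro i
    have hcard : (0 : ℝ) < (Ψ i).card := by exact_mod_cast (h.ne i).card_pos
    unfold xx
    push_cast
    field_simp
  refine Tendsto.congr e ?_
  exact (Real.tendsto_log_atTop.comp h.big).atTop_div_const (by norm_num)

lemma fam_pos (h : FamH l K m Ψ L M) : ∀ᶠ i in l, 0 < xx (m i) (Ψ i) := by
  have h2 : ∀ᶠ i in l, 1 < AA (K i) (m i) := h.big.eventually_gt_atTop 1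
  filter_upwards [h2] with i a2
  have hcard : (0 : ℝ) < (Ψ i).card := by exact_mod_cast (h.ne i).card_pos
  have := Real.log_pos a2
  unfold xx
  positivity

/-- **The main theorem for families**. -/
theorem fam (hOrd : SOrd) (h : FamH l K m Ψ L M) :
    (∀ T ε : ℝ, 0 < ε → ∀ᶠ i in l,
      zs (fun s => ∏ ψ ∈ Ψ i, L i ψ s)
        ({ρ : ℂ | |ρ.im| ≤ T ∧ ε ≤ |ρ.re - 1 / 2|}.indicator fun _ => 1) ≤
          ε * xx (m i) (Ψ i)) ∧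
    (∀ g : ℂ → ℝ, Continuous g → HasCompactSupport g →
      Tendsto (fun i => zs (fun s => ∏ ψ ∈ Ψ i, L i ψ s) g / xx (m i) (Ψ i)) l
        (𝓝 (1 / (2 * π) * ∫ t : ℝ, g (pt t)))) ∧
    (∀ T ε : ℝ, 0 < ε → ∀ᶠ i in l, ∀ s : ℂ, 1 / 2 ≤ s.re → ‖s‖ ≤ T → ε ≤ ‖s - 1‖ →
      ‖∏ ψ ∈ Ψ i, L i ψ s‖ ≤ Real.exp (xx (m i) (Ψ i) * ε)) ∧
    (∀ T ε : ℝ, 0 < ε → ∀ᶠ i in l, ∀ t : ℝ, |t| ≤ T →
      ‖∏ ψ ∈ Ψ i, L i ψ (pt t)‖ ≤ Real.exp (xx (m i) (Ψ i) * ε)) ∧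
    (∀ T ε : ℝ, 0 < ε → ∀ᶠ i in l,
      ∫ s in rh (1 / 2) T, |Real.log ‖∏ ψ ∈ Ψ i, L i ψ s‖| ≤ ε * xx (m i) (Ψ i)) ∧
    (∀ T ε : ℝ, 0 < ε → ∀ᶠ i in l, ∀ t : ℝ, |t| ≤ T →
      ((∑ ψ ∈ Ψ i, analyticOrderNatAt (L i ψ) (pt t) : ℕ) : ℝ) ≤ ε * xx (m i) (Ψ i)) ∧
    (∀ T ε : ℝ, 0 < ε → ∀ᶠ i in l, ∀ t : ℝ, |t| ≤ T →
      (analyticOrderNatAt (fun s => ∏ ψ ∈ Ψ i, L i ψ s) (pt t) : ℝ) ≤ ε * xx (m i) (Ψ i)) := by
  obtain ⟨k, Λ, hdeg⟩ := fam_deg h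
  have key := Pool.Agent.H465.PT.deg_tfae (cM_nonneg M) Pool.Agent.H465.PT.BB_nonneg hdeg
    (fam_big h)
  have h4 : ∀ T ε : ℝ, 0 < ε → ∀ᶠ i in l, ∀ t : ℝ, |t| ≤ T →
      ‖∏ ψ ∈ Ψ i, L i ψ (pt t)‖ ≤ Real.exp (xx (m i) (Ψ i) * ε) := fun T ε hε => fam_lind h hε
  have h1 := (key.out 3 0).1 h4
  have h2 := (key.out 3 1).1 h4
  have h3 := (key.out 3 2).1 h4
  have h5 := (key.out 3 4).1 h4
  have h6 := hOrd (cM M) BB ι l k (fun i => 2 * (Ψ i).card) (fun i => xx (m i) (Ψ i)) Λ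
    (fun i s => ∏ ψ ∈ Ψ i, L i ψ s) hdeg (fam_pos h) h2
  refine ⟨h1, h2, h3, h4, h5, fun T ε hε => ?_, h6⟩
  filter_upwards [h6 T ε hε] with i a1 t ht
  refine le_trans (le_of_eq ?_) (a1 t ht)
  have hdat := h.data i
  have hT : (1 : ℂ) ≠ pt t := (Pool.Agent.H465.PT.pt_ne_one t).symm
  rw [(order_prod (Ψ i) (L i) (pt t) ?_ ?_).1]
  · intro ψ hψ
    have hop : IsOpen ({1}ᶜ : Set ℂ) := isOpen_compl_singleton
    have : DifferentiableOn ℂ (L i ψ) ({1}ᶜ : Set ℂ) := fun z hz =>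
      ((h.cont i ψ hψ).dif z hz).differentiableWithinAt
    exact this.analyticAt (hop.mem_nhds hT.symm)
  · intro ψ hψ
    obtain ⟨k', μ', Λ', F', hd'⟩ := h.data i ψ hψ
    have hdg := (Pool.Agent.H643.CG8.t M).choose_spec.2 (K i) ψ k' μ' _ Λ' F' (L i ψ) hd'
      (h.cont i ψ hψ)
    have e1 := hdg.order (s := pt t) (by rw [pt_re]; norm_num) hT.symm
    rw [← e1]
    exact Pool.Agent.H465.PT.order_ne_top hdg.ent (z₀ := 2) (hdg.neL (by norm_num)) _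

end

end Pool.Agent.H465.CG
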