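import Pool.Agent.H465.CG.Cen
import Pool.Agent.H465.CG.Alm
import Pool.Agent.H465.CG.Fam2

/-!
# Project CG (helper465): the leading coefficients on the critical line
-/

set_option autoImplicit false

open NumberField Filter Topology Set MeasureTheory Metric
open scoped ComplexConjugate Real

namespace Pool.Agent.H465.CG

open Pool.Agent.Y773 (LI)
open Pool.Agent.H465.PT (Deg IsCont BB zs rh pt_re pt_im pt_dist nz nz_eq nz_filter offL)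
open Pool.Agent.H465.EQ (pt lk mu finite_zeros)

/-- the zeros of a product -/
lemma nz_prod {J : Type} [Fintype J] {f : J → ℂ → ℂ} (hf : ∀ j, Differentiable ℂ (f j))
    (h0 : ∀ j, f j 2 ≠ 0) {S : Set ℂ} {R : ℝ} (hS : S ⊆ closedBall 0 R) :
    nz (fun s => ∏ j, f j s) S = ∑ j, nz (f j) S := by
  classical
  have hd : Differentiable ℂ fun s => ∏ j, f j s := by
    have h1 := Differentiable.finsetProd (u := Finset.univ) (f := f) (fun j _ => hf j)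
    have e : (∏ j, f j) = fun s => ∏ j, f j s := by
      funext s
      rw [Finset.prod_apply]
    rwa [e] at h1
  have hp0 : (fun s => ∏ j, f j s) 2 ≠ 0 := Finset.prod_ne_zero_iff.2 fun j _ => h0 j
  rw [nz_filter hd hp0 hS]
  have e : ∀ j, nz (f j) S = ∑ u ∈ (finite_zeros hd hp0 R).toFinset.filter (· ∈ S), mu (f j) u := by
    intro j
    refine nz_eq (fun u h1 h2 => ?_) (fun _ h1 => (Finset.mem_filter.1 h1).2) (hf j)
    refine Finset.mem_filter.2 ⟨(Set.Finite.mem_toFinset _).2 ⟨?_, hS h1⟩, h1⟩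
    exact Finset.prod_eq_zero (Finset.mem_univ j) h2
  simp_rw [e]
  rw [Finset.sum_comm]
  refine Finset.sum_congr rfl fun u _ => ?_
  unfold mu
  rw [(order_prod Finset.univ f u (fun j _ => (hf j).analyticAt u)
    (fun j _ => Pool.Agent.H465.PT.order_ne_top (hf j) (h0 j) u)).1]
  push_cast
  rfl

section
variable {ι : Type} {l : Filter ι} {K : ι → Type} [∀ i, Field (K i)]
    [∀ i, NumberField (K i)] [∀ i, IsTotallyComplex (K i)] {m : ι → ℕ}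
    {Ψ : ∀ i, Finset (Ideal (𝓞 (K i)) →*₀ ℂ)}
    {L : ∀ i, (Ideal (𝓞 (K i)) →*₀ ℂ) → ℂ → ℂ} {M : ℝ}

omit [∀ i, IsTotallyComplex (K i)] in
/-- the analytic data of the members and the product -/
theorem fam_deg2 (h : FamH l K m Ψ L M) :
    ∃ (k : ∀ i, ↥(Ψ i) → ℕ) (Λ : ∀ i, ↥(Ψ i) → ℂ → ℂ),
      (∀ i j, Deg (cM M) BB (k i j) 2 (Real.log (AA (K i) (m i))) (Λ i j) (L i j.1)) ∧
      ∀ i, Deg (cM M) BB (∑ j, k i j) (2 * (Ψ i).card) (xx (m i) (Ψ i)) (fun s => ∏ j, Λ i j s)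
        (fun s => ∏ ψ ∈ Ψ i, L i ψ s) := by
  choose! k μ Λ F hd using h.data
  have h0 : ∀ i (j : ↥(Ψ i)), Deg (cM M) BB (k i j.1) (Module.finrank ℚ (K i))
      (Real.log (AA (K i) (m i))) (Λ i j.1) (L i j.1) := fun i ψ =>
    (Pool.Agent.H643.CG8.t M).choose_spec.2 (K i) ψ.1 (k i ψ.1)
      (μ i ψ.1) _ (Λ i ψ.1) (F i ψ.1) (L i ψ.1) (hd i ψ.1 ψ.2) (h.cont i ψ.1 ψ.2)
  refine ⟨fun i ψ => k i ψ.1, fun i ψ => Λ i ψ.1, fun i j => ?_, fun i => ?_⟩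
  · have := h0 i j
    rwa [h.deg2 i] at this
  have h1 := Pool.Agent.H707.CG.sProd (cM M) BB (↥(Ψ i)) (fun ψ => k i ψ.1)
    (fun _ => Module.finrank ℚ (K i)) (fun _ => Real.log (AA (K i) (m i))) (fun ψ => Λ i ψ.1)
    (fun ψ => L i ψ.1) fun ψ => h0 i ψ
  have e1 : ∑ _ψ : ↥(Ψ i), Module.finrank ℚ (K i) = 2 * (Ψ i).card := by
    rw [Finset.sum_const, Finset.card_univ, Fintype.card_coe, h.deg2 i, smul_eq_mul, mul_comm]
  have e2 : ∑ _ψ : ↥(Ψ i), Real.log (AA (K i) (m i)) = xx (m i) (Ψ i) := by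
    rw [Finset.sum_const, Finset.card_univ, Fintype.card_coe, nsmul_eq_mul]
    rfl
  have e3 : (fun s => ∏ ψ : ↥(Ψ i), L i ψ.1 s) = fun s => ∏ ψ ∈ Ψ i, L i ψ s := by
    funext s
    exact Finset.prod_coe_sort (Ψ i) (fun ψ => L i ψ s)
  rw [e1, e2, e3] at h1
  exact h1

/-- the law for the product -/
theorem fam_law (h : FamH l K m Ψ L M) (T : ℝ) {δ ε : ℝ} (hδ : 0 < δ) (hε : 0 < ε) :
    ∀ᶠ i in l, ∀ t : ℝ, |t| ≤ T →
      |Real.log ‖meromorphicTrailingCoeffAt (fun s => ∏ ψ ∈ Ψ i, L i ψ s) (pt t)‖ +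
        zs (fun s => ∏ ψ ∈ Ψ i, L i ψ s) (fun ρ => lk δ (ρ - pt t)) -
          δ / π * xx (m i) (Ψ i)| ≤ ε * xx (m i) (Ψ i) ∧
      (analyticOrderNatAt (fun s => ∏ ψ ∈ Ψ i, L i ψ s) (pt t) : ℝ) ≤ ε * xx (m i) (Ψ i) := by
  obtain ⟨k, Λ, hdeg⟩ := fam_deg h
  have key := Pool.Agent.H465.PT.deg_tfae (cM_nonneg M) Pool.Agent.H465.PT.BB_nonneg hdeg
    (fam_big h)
  have h4 : ∀ T ε : ℝ, 0 < ε → ∀ᶠ i in l, ∀ t : ℝ, |t| ≤ T →
      ‖∏ ψ ∈ Ψ i, L i ψ (pt t)‖ ≤ Real.exp (xx (m i) (Ψ i) * ε) := fun T ε hε => fam_lind h hε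
  have h2 := (key.out 3 1).1 h4
  exact Pool.Agent.H465.PT.deg_law (cM_nonneg M) Pool.Agent.H465.PT.BB_nonneg hdeg (fam_big h) h2 T
    hδ hε

/-- the properties of a single L-function -/
structure Good (T δ ε : ℝ) (g : ℂ → ℝ) (X : ℝ) (L : ℂ → ℂ) : Prop where
  near : zs L ({ρ : ℂ | |ρ.im| ≤ T ∧ ε ≤ |ρ.re - 1 / 2|}.indicator fun _ => 1) ≤ ε * X
  equi : |zs L g - X / (2 * π) * ∫ t : ℝ, g (pt t)| ≤ ε * X
  lind : ∀ s : ℂ, 1 / 2 ≤ s.re → ‖s‖ ≤ T → ε ≤ ‖s - 1‖ → ‖L s‖ ≤ Real.exp (X * ε)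
  int : ∫ s in rh (1 / 2) T, |Real.log ‖L s‖| ≤ ε * X
  law : ∀ t : ℝ, |t| ≤ T → |Real.log ‖meromorphicTrailingCoeffAt L (pt t)‖ +
    zs L (fun ρ => lk δ (ρ - pt t)) - δ / π * X| ≤ ε * X
  ord : ∀ t : ℝ, |t| ≤ T → (analyticOrderNatAt L (pt t) : ℝ) ≤ ε * X

omit [∀ i, IsTotallyComplex (K i)] in
/-- the properties follow if few zeros are off the line -/
theorem good_of {k : ∀ i, ↥(Ψ i) → ℕ} {Λ : ∀ i, ↥(Ψ i) → ℂ → ℂ}
    (hd1 : ∀ i j, Deg (cM M) BB (k i j) 2 (Real.log (AA (K i) (m i))) (Λ i j) (L i j.1))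
    (hbig : Tendsto (fun i => AA (K i) (m i)) l atTop) (T : ℝ) {δ ε : ℝ} (hδ : 0 < δ) (hε : 0 < ε)
    {g : ℂ → ℝ} (hg : Continuous g) (hgc : HasCompactSupport g) {l' : Filter (Σ i, ↥(Ψ i))}
    (hl' : Tendsto Sigma.fst l' l)
    (hn : ∀ δ T ε : ℝ, 0 < δ → 0 < ε → ∀ᶠ p in l', nz (Λ p.1 p.2) (offL δ T) ≤
      ε * Real.log (AA (K p.1) (m p.1))) :
    ∀ᶠ p in l', Good T δ ε g (Real.log (AA (K p.1) (m p.1))) (L p.1 p.2.1) := by
  have hAA : ∀ᶠ i in l, 0 < Real.log (AA (K i) (m i)) := by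
    filter_upwards [hbig.eventually_gt_atTop 1] with i hi
    exact Real.log_pos hi
  have hx' : ∀ᶠ p in l', 0 < Real.log (AA (K p.1) (m p.1)) := hl'.eventually hAA
  have hbig : Tendsto (fun p : Σ i, ↥(Ψ i) => Real.log (AA (K p.1) (m p.1)) / ((2 : ℕ) : ℝ)) l'
      atTop := by
    have := ((Real.tendsto_log_atTop.comp hbig).atTop_div_const
      (show (0 : ℝ) < ((2 : ℕ) : ℝ) by norm_num)).comp hl'
    exact this
  have hdg : ∀ p : Σ i, ↥(Ψ i), Deg (cM M) BB (k p.1 p.2) 2 (Real.log (AA (K p.1) (m p.1)))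
      (Λ p.1 p.2) (L p.1 p.2.1) := fun p => hd1 p.1 p.2
  have hP := fun T η hη => Pool.Agent.H465.PT.deg_pot (cM_nonneg M)
    Pool.Agent.H465.PT.BB_nonneg hdg hbig (ϑ := 1 / 4) (by norm_num) le_rfl T η hη
  have k1 := Pool.Agent.H465.PT.tfae (A := 1 / 2) (Λ := fun p : Σ i, ↥(Ψ i) => Λ p.1 p.2)
    (by norm_num) hx' hP
  have k2 := (k1.out 0 1).1 hn
  have hE : ∀ g : ℂ → ℝ, Continuous g → HasCompactSupport g →
      Tendsto (fun p : Σ i, ↥(Ψ i) => zs (L p.1 p.2.1) g / Real.log (AA (K p.1) (m p.1))) l'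
        (𝓝 (1 / (2 * π) * ∫ t : ℝ, g (pt t))) := by
    intro g hg hgc
    have := k2 g hg hgc
    simp_rw [fun p : Σ i, ↥(Ψ i) => (hdg p).zs_eq g]
    exact this
  have k3 := Pool.Agent.H465.PT.deg_tfae (cM_nonneg M) Pool.Agent.H465.PT.BB_nonneg hdg hbig
  have q1 := (k3.out 1 0).1 hE
  have q2 := Metric.tendsto_nhds.1 (hE g hg hgc) ε hε
  have q3 := (k3.out 1 2).1 hE
  have q5 := (k3.out 1 4).1 hE
  have q6 := Pool.Agent.H465.PT.deg_law (cM_nonneg M) Pool.Agent.H465.PT.BB_nonneg hdg hbig hE T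
    hδ hε
  filter_upwards [q1 T ε hε, q2, q3 T ε hε, q5 T ε hε, q6, hx'] with p a1 a2 a3 a5 a6 hxp
  refine ⟨a1, ?_, a3, a5, fun t ht => (a6 t ht).1, fun t ht => (a6 t ht).2⟩
  rw [Real.dist_eq] at a2
  have e : zs (L p.1 p.2.1) g / Real.log (AA (K p.1) (m p.1)) -
      1 / (2 * π) * ∫ t : ℝ, g (pt t) =
      (zs (L p.1 p.2.1) g - Real.log (AA (K p.1) (m p.1)) / (2 * π) * ∫ t : ℝ, g (pt t)) /
        Real.log (AA (K p.1) (m p.1)) := by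
    field_simp
  rw [e, abs_div, abs_of_pos hxp, div_lt_iff₀ hxp] at a2
  exact a2.le

/-- **Almost all members.** -/
theorem fam_almost (h : FamH l K m Ψ L M) :
    ∃ E : ∀ i, Finset (Ideal (𝓞 (K i)) →*₀ ℂ), (∀ i, E i ⊆ Ψ i) ∧
      Tendsto (fun i => ((E i).card : ℝ) / (Ψ i).card) l (𝓝 0) ∧
      ∀ (T δ ε : ℝ) (g : ℂ → ℝ), 0 < δ → 0 < ε → Continuous g → HasCompactSupport g →
        ∀ᶠ i in l, ∀ ψ ∈ Ψ i, ψ ∉ E i →
          Good T δ ε g (Real.log (AA (K i) (m i))) (L i ψ) := by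
  classical
  obtain ⟨k, Λ, hd1, hd2⟩ := fam_deg2 h
  have hAA : ∀ᶠ i in l, 0 < Real.log (AA (K i) (m i)) := by
    filter_upwards [h.big.eventually_gt_atTop 1] with i hi
    exact Real.log_pos hi
  have hpr := Pool.Agent.H465.PT.deg_tfae (cM_nonneg M) Pool.Agent.H465.PT.BB_nonneg hd2
    (fam_big h)
  have h4 : ∀ T ε : ℝ, 0 < ε → ∀ᶠ i in l, ∀ t : ℝ, |t| ≤ T →
      ‖∏ ψ ∈ Ψ i, L i ψ (pt t)‖ ≤ Real.exp (xx (m i) (Ψ i) * ε) := fun T ε hε => fam_lind h hε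
  have h2 := (hpr.out 3 1).1 h4
  have hprod : ∀ δ T ε : ℝ, 0 < δ → 0 < ε → ∀ᶠ i in l,
      nz (fun s => ∏ j, Λ i j s) (offL δ T) ≤ ε * xx (m i) (Ψ i) := by
    have hP := fun T η hη => Pool.Agent.H465.PT.deg_pot (cM_nonneg M)
      Pool.Agent.H465.PT.BB_nonneg hd2 (fam_big h) (ϑ := 1 / 4) (by norm_num) le_rfl T η hη
    have key := Pool.Agent.H465.PT.tfae (A := 1 / 2) (Λ := fun i s => ∏ j, Λ i j s) (by norm_num)
      (fam_pos h) hP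
    refine (key.out 0 1).2 ?_
    intro g hg hgc
    have := h2 g hg hgc
    simp_rw [fun i => (hd2 i).zs_eq g] at this
    exact this
  have hnear : ∀ δ T ε : ℝ, 0 < δ → 0 < ε → ∀ᶠ i in l,
      ∑ j, nz (Λ i j) (offL δ T) ≤ ε * (Fintype.card ↥(Ψ i) * Real.log (AA (K i) (m i))) := by
    intro δ T ε hδ hε
    filter_upwards [hprod δ T ε hδ hε] with i hi
    rw [← nz_prod (fun j => (hd1 i j).ent) (fun j => (hd1 i j).neL (by norm_num)) (R := T)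
      (fun u hu => mem_closedBall_zero_iff.2 hu.2), Fintype.card_coe]
    exact hi
  obtain ⟨E, hE1, hE2⟩ := Pool.Agent.H465.PT.almost2 (fun i j => (hd1 i j).ent)
    (fun i j => (hd1 i j).neL (by norm_num)) hAA h.big hnear
  refine ⟨fun i => (E i).map (Function.Embedding.subtype (· ∈ Ψ i)), fun i ψ hψ => ?_, ?_,
    fun T δ ε g hδ hε hg hgc => ?_⟩
  · obtain ⟨j, -, rfl⟩ := Finset.mem_map.1 hψ
    exact j.2
  · refine hE1.congr fun i => ?_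
    rw [Finset.card_map, Fintype.card_coe]
  · set l' : Filter (Σ i, ↥(Ψ i)) := comap Sigma.fst l ⊓ 𝓟 {p | p.2 ∉ E p.1} with hl'
    have h1 : Tendsto Sigma.fst l' l := tendsto_comap.mono_left inf_le_left
    have h3 : ∀ δ T ε : ℝ, 0 < δ → 0 < ε → ∀ᶠ p in l', nz (Λ p.1 p.2) (offL δ T) ≤
        ε * Real.log (AA (K p.1) (m p.1)) := by
      intro δ T ε hδ hε
      rw [hl', eventually_inf_principal]
      filter_upwards [tendsto_comap.eventually (hE2 δ T ε hδ hε)] with p hp hp2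
      exact hp p.2 hp2
    have h5 := good_of hd1 h.big T hδ hε hg hgc h1 h3
    rw [hl', eventually_inf_principal, eventually_comap] at h5
    filter_upwards [h5] with i hi ψ hψ hn
    refine hi ⟨i, ⟨ψ, hψ⟩⟩ rfl ?_
    intro hc
    exact hn (Finset.mem_map.2 ⟨⟨ψ, hψ⟩, hc, rfl⟩)

end

end Pool.Agent.H465.CG
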