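import Pool.Agent.H465.CG.Ms2
import Pool.Agent.H650.CGSShort
import Pool.Agent.H740.CGSLong
import Pool.Agent.H591.CGSGeo
import Pool.Agent.H297.CGSPair
import Pool.Agent.H860.CGSDiv
import Pool.Agent.H333.CGSLs
import Pool.Agent.H707.CGSProd
import Pool.Agent.H643.CGSHMdeg

/-!
# Project CG (helper465): families of characters of imaginary quadratic fields
-/

set_option autoImplicit false

open NumberField Filter Topology Set MeasureTheory
open scoped ComplexConjugate Real

namespace Pool.Agent.H465.CG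

open Pool.Agent.Y773 (LI)
open Pool.Agent.H465.PT (Deg IsCont BB zs rh)
open Pool.Agent.H465.EQ (pt)

/-- the inequality of the arithmetic and geometric means -/
lemma amgm {κ : Type} (S : Finset κ) (a : κ → ℝ) (ha : ∀ i ∈ S, 0 ≤ a i) {c : ℝ} (hc : 0 < c)
    (h : ∑ i ∈ S, a i ≤ S.card * c) : ∏ i ∈ S, a i ≤ c ^ S.card := by
  have h1 : ∀ i ∈ S, a i ≤ c * Real.exp (a i / c - 1) := by
    intro i _
    have h2 := Real.add_one_le_exp (a i / c - 1)
    rw [sub_add_cancel] at h2
    calc a i = c * (a i / c) := by field_simp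
      _ ≤ _ := mul_le_mul_of_nonneg_left h2 hc.le
  calc ∏ i ∈ S, a i ≤ ∏ i ∈ S, (c * Real.exp (a i / c - 1)) := Finset.prod_le_prod ha h1
    _ = c ^ S.card * Real.exp (∑ i ∈ S, (a i / c - 1)) := by
        rw [Finset.prod_mul_distrib, Finset.prod_const, Real.exp_sum]
    _ ≤ c ^ S.card * 1 := by
        refine mul_le_mul_of_nonneg_left (Real.exp_le_one_iff.2 ?_) (by positivity)
        rw [Finset.sum_sub_distrib, Finset.sum_const, nsmul_eq_mul, mul_one, ← Finset.sum_div,
          sub_nonpos, div_le_iff₀ hc]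
        exact h
    _ = _ := mul_one _

theorem sms : SMs :=
  ms (Pool.Agent.H650.CG.t_short Pool.Agent.H591.CG.t_SGeo Pool.Agent.H297.CG.sPair
      Pool.Agent.H860.CGSDiv.t)
    (Pool.Agent.H740.CGL.t_long Pool.Agent.H591.CG.t_SGeo Pool.Agent.H297.CG.sPair
      Pool.Agent.H860.CGSDiv.t) Pool.Agent.H333.CG.sls

/-- the order of a product -/
lemma order_prod {κ : Type} (S : Finset κ) (f : κ → ℂ → ℂ) (z : ℂ)
    (ha : ∀ i ∈ S, AnalyticAt ℂ (f i) z) (hn : ∀ i ∈ S, analyticOrderAt (f i) z ≠ ⊤) :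
    analyticOrderNatAt (fun s => ∏ i ∈ S, f i s) z = ∑ i ∈ S, analyticOrderNatAt (f i) z ∧
      analyticOrderAt (fun s => ∏ i ∈ S, f i s) z ≠ ⊤ := by
  classical
  induction S using Finset.induction_on with
  | empty =>
    simp only [Finset.prod_empty, Finset.sum_empty]
    have h0 : analyticOrderAt (fun _ : ℂ => (1 : ℂ)) z = 0 :=
      analyticAt_const.analyticOrderAt_eq_zero.2 one_ne_zero
    constructor
    · unfold analyticOrderNatAt
      rw [h0]
      rfl
    · rw [h0]
      exact ENat.zero_ne_top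
  | insert j S hj ih =>
    obtain ⟨h1, h2⟩ := ih (fun i hi => ha i (Finset.mem_insert_of_mem hi))
      (fun i hi => hn i (Finset.mem_insert_of_mem hi))
    have e : (fun s => ∏ i ∈ insert j S, f i s) = f j * fun s => ∏ i ∈ S, f i s := by
      funext s
      rw [Finset.prod_insert hj]
      rfl
    have a1 : AnalyticAt ℂ (fun s => ∏ i ∈ S, f i s) z :=
      Finset.analyticAt_fun_prod _ fun i hi => ha i (Finset.mem_insert_of_mem hi)
    have a2 := ha j (Finset.mem_insert_self _ _)
    have n2 := hn j (Finset.mem_insert_self _ _)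
    rw [e, Finset.sum_insert hj, ← h1]
    refine ⟨analyticOrderNatAt_mul a2 a1 n2 h2, ?_⟩
    rw [analyticOrderAt_mul a2 a1]
    exact WithTop.add_ne_top.2 ⟨n2, h2⟩

end Pool.Agent.H465.CG
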