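import Pool.Agent.H465.CG.Ray
import Pool.Agent.H894.CGSUnr
import Pool.Agent.H115.CGSInj
import Pool.Agent.H187.CGSHilb

/-!
# Project CG (helper465): the zeta function of the Hilbert class field
-/

set_option autoImplicit false

open NumberField IsDedekindDomain Filter Topology Set
open scoped ComplexConjugate Real

namespace Pool.Agent.H465.CG

open Pool.Agent.Y773 (LI)
open Pool.Agent.Y773.G (IsPrimChar)
open Pool.Agent.Y772.NZ (one one_ne one_norm)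
open Pool.Agent.H465.PT (IsCont)

lemma twc_norm {K : Type} [Field K] [NumberField K] {ψ : Ideal (𝓞 K) →*₀ ℂ}
    (h : ∀ 𝔞, ‖ψ 𝔞‖ ≤ 1) (f : ClassGroup (𝓞 K) →* ℂˣ) (𝔞 : Ideal (𝓞 K)) : ‖twc ψ f 𝔞‖ ≤ 1 := by
  by_cases h0 : 𝔞 = ⊥
  · rw [h0, ← Ideal.zero_eq_bot, map_zero, norm_zero]
    exact zero_le_one
  · rw [twc_apply ψ f h0, norm_mul]
    have h1 : ‖((f (ClassGroup.mk0 ⟨𝔞, mem_nonZeroDivisors_iff_ne_zero.mpr h0⟩) : ℂˣ) : ℂ)‖ = 1 := by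
      set g := ClassGroup.mk0 ⟨𝔞, mem_nonZeroDivisors_iff_ne_zero.mpr h0⟩
      have h2 : (((f g : ℂˣ) : ℂ)) ^ (Fintype.card (ClassGroup (𝓞 K))) = 1 := by
        rw [← Units.val_pow_eq_pow_val, ← map_pow, pow_card_eq_one, map_one, Units.val_one]
      exact Complex.norm_eq_one_of_pow_eq_one h2 Fintype.card_ne_zero
    rw [h1, mul_one]
    exact h 𝔞

theorem prod_eq {K H : Type} [Field K] [NumberField K] [Field H] [NumberField H] [Algebra K H]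
    (hH : IsHilbert K H) {m : ℕ} (hm : 1 ≤ m) {ψ : Ideal (𝓞 K) →*₀ ℂ}
    (hs : ∀ 𝔞 : Ideal (𝓞 K), 𝔞 ≠ ⊥ → (ψ 𝔞 ≠ 0 ↔ IsCoprime 𝔞 (Ideal.span {(m : 𝓞 K)})))
    (hn : ∀ 𝔞, ‖ψ 𝔞‖ ≤ 1) {Ψ : Finset (Ideal (𝓞 K) →*₀ ℂ)}
    (hf : ∀ χ, χ ∈ Ψ ↔ ∃ f : ClassGroup (𝓞 K) →* ℂˣ, χ = twc ψ f)
    {θ : HeightOneSpectrum (𝓞 H) → ℂ}
    (hθ : ∀ v w, Above w v → θ w = ψ v.asIdeal ^ orderOf (pcl v)) {ζ : ℂ → ℂ}
    (h1 : ∀ s : ℂ, s ≠ 1 → DifferentiableAt ℂ ζ s)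
    (h2 : ∀ s : ℂ, 1 < s.re → HasProd (fun w : HeightOneSpectrum (𝓞 H) =>
      (1 - θ w * ((Ideal.absNorm w.asIdeal : ℕ) : ℂ) ^ (-s))⁻¹) (ζ s))
    {L : (Ideal (𝓞 K) →*₀ ℂ) → ℂ → ℂ} (hL : ∀ χ ∈ Ψ, IsCont χ (L χ)) {s : ℂ} (hs1 : s ≠ 1) :
    ∏ χ ∈ Ψ, L χ s = ζ s := by
  classical
  haveI hfin : Finite (ClassGroup (𝓞 K) →* ℂˣ) := by
    haveI : Finite ↥Ψ := inferInstance
    refine Finite.of_injective (β := ↥Ψ) (fun f => ⟨twc ψ f, (hf _).2 ⟨f, rfl⟩⟩) fun f g hfg => ?_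
    exact Pool.Agent.H115.CG.sInj K m hm ψ hs (congrArg Subtype.val hfg)
  letI : Fintype (ClassGroup (𝓞 K) →* ℂˣ) := Fintype.ofFinite _
  have hinj := Pool.Agent.H115.CG.sInj K m hm ψ hs
  have hΨ : Ψ = Finset.univ.image (twc ψ) := by
    ext χ
    rw [hf, Finset.mem_image]
    constructor
    · rintro ⟨f, rfl⟩
      exact ⟨f, Finset.mem_univ _, rfl⟩
    · rintro ⟨f, -, rfl⟩
      exact ⟨f, rfl⟩
  have h3 : ∀ z : ℂ, 1 < z.re → ∏ χ ∈ Ψ, L χ z = ζ z := by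
    intro z hz
    have h4 := Pool.Agent.H187.CGH.hilb K H hH ψ hn θ hθ z hz
    rw [(h2 z hz).unique h4]
    calc ∏ χ ∈ Ψ, L χ z = ∏ χ ∈ Ψ, LI χ z := Finset.prod_congr rfl fun χ hχ => (hL χ hχ).ser z hz
      _ = ∏ f : ClassGroup (𝓞 K) →* ℂˣ, LI (twc ψ f) z := by
          rw [hΨ, Finset.prod_image fun f _ g _ h => hinj h]
  have hop : IsOpen ({1}ᶜ : Set ℂ) := isOpen_compl_singleton
  have a1 : AnalyticOnNhd ℂ (fun z => ∏ χ ∈ Ψ, L χ z) ({1}ᶜ : Set ℂ) := by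
    refine DifferentiableOn.analyticOnNhd (fun z hz => ?_) hop
    exact (DifferentiableAt.fun_finsetProd fun χ hχ => (hL χ hχ).dif z hz).differentiableWithinAt
  have a2 : AnalyticOnNhd ℂ ζ ({1}ᶜ : Set ℂ) :=
    DifferentiableOn.analyticOnNhd (fun z hz => (h1 z hz).differentiableWithinAt) hop
  have h5 : (2 : ℂ) ∈ ({1}ᶜ : Set ℂ) := by simp
  have h6 : (fun z => ∏ χ ∈ Ψ, L χ z) =ᶠ[𝓝 2] ζ := by
    filter_upwards [(isOpen_lt continuous_const Complex.continuous_re).mem_nhds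
      (show (1 : ℝ) < (2 : ℂ).re by norm_num)] with z hz
    exact h3 z hz
  exact a1.eqOn_of_preconnected_of_eventuallyEq a2 Pool.Agent.H465.PT.conn_compl_one h5 h6 hs1

end Pool.Agent.H465.CG
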