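import Pool.Agent.H465.CG.Stm2
import Pool.Agent.H465.CG.An

/-!
# Project CG (helper465): the mean square on the critical line
-/

set_option autoImplicit false

open NumberField Filter Topology Set
open scoped ComplexConjugate Real

namespace Pool.Agent.H465.CG

open Pool.Agent.Y773 (LI)
open Pool.Agent.H465.PT (gr_diff gr_log)

/-- `s` times the gamma factor -/
noncomputable def Gm (μ : ℝ) (s : ℂ) : ℂ :=
  if μ = 0 then 2 * π * Complex.Gammaℝ (s + 2) else s * Complex.Gammaℝ (s + μ)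

lemma Gm_eq {μ : ℝ} {s : ℂ} (hs : s ≠ 0) : Gm μ s = s * Complex.Gammaℝ (s + μ) := by
  unfold Gm
  split_ifs with h
  · have hpi : (π : ℂ) ≠ 0 := by exact_mod_cast Real.pi_ne_zero
    rw [h, Complex.ofReal_zero, add_zero, Complex.Gammaℝ_add_two hs]
    field_simp
  · rfl

lemma Gm_diff {μ : ℝ} (hμ : μ = 0 ∨ 1 / 2 ≤ μ) {s : ℂ} (hs : -(1 / 2) < s.re) :
    DifferentiableAt ℂ (Gm μ) s := by
  rcases eq_or_ne μ 0 with h | h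
  · have e : Gm μ = fun s => 2 * π * Complex.Gammaℝ (s + 2) := by
      funext s
      rw [Gm, if_pos h]
    rw [e]
    refine DifferentiableAt.const_mul ?_ _
    refine DifferentiableAt.comp (g := Complex.Gammaℝ) s (gr_diff ?_)
      (differentiableAt_id.add_const (2 : ℂ))
    simp only [id_eq, Complex.add_re, Complex.re_ofNat]
    linarith
  · have e : Gm μ = fun s => s * Complex.Gammaℝ (s + μ) := by
      funext s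
      rw [Gm, if_neg h]
    have h2 : 1 / 2 ≤ μ := hμ.resolve_left h
    rw [e]
    refine differentiableAt_id.mul ?_
    refine DifferentiableAt.comp (g := Complex.Gammaℝ) s (gr_diff ?_)
      (differentiableAt_id.add_const (μ : ℂ))
    simp only [id_eq, Complex.add_re, Complex.ofReal_re]
    linarith

lemma Gm_bd (M : ℝ) : ∃ C : ℝ, 1 ≤ C ∧ ∀ μ : ℝ, (μ = 0 ∨ 1 / 2 ≤ μ) → μ ≤ M →
    ∀ s : ℂ, -(1 / 4) ≤ s.re → s.re ≤ 5 / 4 → ‖Gm μ s‖ ≤ C * (1 + ‖s‖) := by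
  have hpi := Real.pi_pos
  obtain ⟨C, hC, h⟩ := Pool.Agent.R399.TW.gam_bd (a := 1 / 4) (b := 5 / 4 + max M 2)
    (by norm_num)
  refine ⟨max 1 (max C (2 * π * C)), le_max_left _ _, fun μ hμ hM s h1 h2 => ?_⟩
  have hs : 0 ≤ ‖s‖ := norm_nonneg s
  unfold Gm
  split_ifs with h0
  · have h3 : ‖Complex.Gammaℝ (s + 2)‖ ≤ C := by
      refine h _ ?_ ?_
      · simp only [Complex.add_re, Complex.re_ofNat]
        linarith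
      · simp only [Complex.add_re, Complex.re_ofNat]
        linarith [le_max_right M 2]
    have h6 : ‖(2 * π : ℂ)‖ = 2 * π := by
      rw [norm_mul, Complex.norm_real, Real.norm_of_nonneg hpi.le]
      simp
    rw [norm_mul, h6]
    calc 2 * π * ‖Complex.Gammaℝ (s + 2)‖ ≤ 2 * π * C := by gcongr
      _ ≤ max 1 (max C (2 * π * C)) := (le_max_right _ _).trans (le_max_right _ _)
      _ = max 1 (max C (2 * π * C)) * 1 := (mul_one _).symm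
      _ ≤ _ := by
          refine mul_le_mul_of_nonneg_left (by linarith) ?_
          exact zero_le_one.trans (le_max_left _ _)
  · have h5 : 1 / 2 ≤ μ := hμ.resolve_left h0
    have h3 : ‖Complex.Gammaℝ (s + μ)‖ ≤ C := by
      refine h _ ?_ ?_
      · simp only [Complex.add_re, Complex.ofReal_re]
        linarith
      · simp only [Complex.add_re, Complex.ofReal_re]
        linarith [le_max_left M 2]
    rw [norm_mul]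
    calc ‖s‖ * ‖Complex.Gammaℝ (s + μ)‖ ≤ ‖s‖ * C := by gcongr
      _ ≤ (1 + ‖s‖) * max 1 (max C (2 * π * C)) :=
          mul_le_mul (by linarith) ((le_max_left _ _).trans (le_max_right _ _)) hC (by linarith)
      _ = _ := mul_comm _ _

lemma gr_low (M T : ℝ) : ∃ c : ℝ, 0 < c ∧ c ≤ 1 ∧ ∀ μ : ℝ, 0 ≤ μ → μ ≤ M → ∀ s : ℂ,
    1 / 2 ≤ s.re → ‖s‖ ≤ T → c ≤ ‖Complex.Gammaℝ (s + μ)‖ := by
  obtain ⟨C, hC, h⟩ := gr_log (T + M)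
  refine ⟨Real.exp (-C), Real.exp_pos _, Real.exp_le_one_iff.2 (by linarith),
    fun μ h0 h1 s h2 h3 => ?_⟩
  have h4 : 1 / 2 ≤ (s + (μ : ℂ)).re := by
    simp only [Complex.add_re, Complex.ofReal_re]
    linarith
  have h5 : ‖s + (μ : ℂ)‖ ≤ T + M := by
    refine (norm_add_le _ _).trans ?_
    rw [Complex.norm_real, Real.norm_of_nonneg h0]
    linarith
  have h6 := (abs_le.1 (h _ h4 h5)).1
  have h7 : 0 < ‖Complex.Gammaℝ (s + μ)‖ :=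
    norm_pos_iff.2 (Complex.Gammaℝ_ne_zero_of_re_pos (by linarith))
  rwa [Real.le_log_iff_exp_le h7] at h6

/-- the weight -/
noncomputable def gf {κ : Type} [Fintype κ] (k : ℕ) (μ : κ → ℝ) (s : ℂ) : ℂ :=
  (s - 1) ^ 2 * (s * (s - 1)) ^ k * ∏ φ, Gm (μ φ) s

lemma gf_diff {κ : Type} [Fintype κ] {k : ℕ} {μ : κ → ℝ} (hμ : ∀ φ, μ φ = 0 ∨ 1 / 2 ≤ μ φ)
    {s : ℂ} (hs : -(1 / 2) < s.re) : DifferentiableAt ℂ (gf k μ) s := by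
  unfold gf
  refine DifferentiableAt.mul ?_ ?_
  · refine DifferentiableAt.mul ((differentiableAt_id.sub_const _).pow _) ?_
    exact (differentiableAt_id.mul (differentiableAt_id.sub_const _)).pow _
  · exact DifferentiableAt.fun_finsetProd fun φ _ => Gm_diff (hμ φ) hs

lemma gf_bd {M C : ℝ} (hC1 : 1 ≤ C) (hC : ∀ μ : ℝ, (μ = 0 ∨ 1 / 2 ≤ μ) → μ ≤ M →
    ∀ s : ℂ, -(1 / 4) ≤ s.re → s.re ≤ 5 / 4 → ‖Gm μ s‖ ≤ C * (1 + ‖s‖))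
    {κ : Type} [Fintype κ] (hκ : Fintype.card κ = 2) {k : ℕ} (hk : k ≤ 1) {μ : κ → ℝ}
    (hμ : ∀ φ, μ φ = 0 ∨ 1 / 2 ≤ μ φ) (hM : ∀ φ, μ φ ≤ M) {s : ℂ} (h1 : -(1 / 4) ≤ s.re)
    (h2 : s.re ≤ 5 / 4) : ‖gf k μ s‖ ≤ C ^ 2 * (1 + ‖s‖) ^ 6 := by
  have hs : 0 ≤ ‖s‖ := norm_nonneg s
  have hs1 : ‖s - 1‖ ≤ 1 + ‖s‖ := by
    refine (norm_sub_le _ _).trans ?_
    rw [norm_one, add_comm]
  have h3 : ∏ φ, ‖Gm (μ φ) s‖ ≤ (C * (1 + ‖s‖)) ^ 2 := by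
    calc ∏ φ, ‖Gm (μ φ) s‖ ≤ ∏ _φ : κ, (C * (1 + ‖s‖)) :=
          Finset.prod_le_prod (fun φ _ => norm_nonneg _) fun φ _ => hC _ (hμ φ) (hM φ) s h1 h2
      _ = _ := by rw [Finset.prod_const, Finset.card_univ, hκ]
  have h4 : (‖s‖ * ‖s - 1‖) ^ k ≤ ((1 + ‖s‖) * (1 + ‖s‖)) ^ k := by
    refine pow_le_pow_left₀ (by positivity) ?_ _
    exact mul_le_mul (by linarith) hs1 (norm_nonneg _) (by linarith)
  have h5 : ((1 + ‖s‖) * (1 + ‖s‖)) ^ k ≤ ((1 + ‖s‖) * (1 + ‖s‖)) ^ 1 := by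
    refine pow_le_pow_right₀ ?_ hk
    nlinarith
  unfold gf
  rw [norm_mul, norm_mul, norm_pow, norm_pow, norm_mul, norm_prod]
  calc ‖s - 1‖ ^ 2 * (‖s‖ * ‖s - 1‖) ^ k * ∏ φ, ‖Gm (μ φ) s‖ ≤
        (1 + ‖s‖) ^ 2 * ((1 + ‖s‖) * (1 + ‖s‖)) ^ 1 * (C * (1 + ‖s‖)) ^ 2 := by
        refine mul_le_mul ?_ h3 (Finset.prod_nonneg fun φ _ => norm_nonneg _) (by positivity)
        exact mul_le_mul (pow_le_pow_left₀ (norm_nonneg _) hs1 _) (h4.trans h5) (by positivity)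
          (by positivity)
    _ = _ := by ring

/-- the mean square bound -/
def SMs : Prop := ∀ ε T M : ℝ, 0 < ε → 0 ≤ T → 0 ≤ M → ∃ C : ℝ, 1 ≤ C ∧
  ∀ (K : Type) [Field K] [NumberField K] [IsTotallyComplex K],
  Module.finrank ℚ K = 2 → ∀ (m : ℕ), 1 ≤ m → ∀ Ψ : Finset (Ideal (𝓞 K) →*₀ ℂ),
    (∀ ψ ∈ Ψ, ∀ 𝔞 : Ideal (𝓞 K), 𝔞 ≠ ⊥ → (ψ 𝔞 ≠ 0 ↔ IsCoprime 𝔞 (Ideal.span {(m : 𝓞 K)}))) →
    (∀ ψ ∈ Ψ, ∀ ψ' ∈ Ψ, ∀ x : 𝓞 K, x ≠ 0 → x - 1 ∈ Ideal.span {(m : 𝓞 K)} →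
      ψ (Ideal.span {x}) = ψ' (Ideal.span {x})) →
    ∀ (k : (Ideal (𝓞 K) →*₀ ℂ) → ℕ) (μ : (Ideal (𝓞 K) →*₀ ℂ) → (K →+* ℂ) → ℝ)
      (Λ F : (Ideal (𝓞 K) →*₀ ℂ) → ℂ → ℂ),
    (∀ ψ ∈ Ψ, HM ψ (k ψ) M (μ ψ) (AA K m) (Λ ψ) (F ψ)) →
    ∀ s : ℂ, s.re = 1 / 2 → |s.im| ≤ T → ∑ ψ ∈ Ψ, ‖F ψ s‖ ^ 2 ≤
      C * (Nat.card (ClassGroup (𝓞 K)) * (m : ℝ) ^ 2) * AA K m ^ ε

section
variable {K : Type} [Field K] [NumberField K]

lemma NN_pos {𝔞 : Ideal (𝓞 K)} (h : 𝔞 ≠ ⊥) : 0 < NN 𝔞 := by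
  unfold NN
  exact_mod_cast Nat.pos_of_ne_zero (fun h0 => h (Ideal.absNorm_eq_zero_iff.1 h0))

lemma one_le_NN {𝔞 : Ideal (𝓞 K)} (h : 𝔞 ≠ ⊥) : 1 ≤ NN 𝔞 := by
  unfold NN
  exact_mod_cast Nat.pos_of_ne_zero (fun h0 => h (Ideal.absNorm_eq_zero_iff.1 h0))

lemma norm_NNc {𝔞 : Ideal (𝓞 K)} (h : 𝔞 ≠ ⊥) (s : ℂ) :
    ‖((Ideal.absNorm 𝔞 : ℕ) : ℂ) ^ (-s)‖ = NN 𝔞 ^ (-s.re) := by
  rw [Complex.norm_natCast_cpow_of_pos
    (Nat.pos_of_ne_zero (fun h0 => h (Ideal.absNorm_eq_zero_iff.1 h0))), Complex.neg_re]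
  rfl

lemma one_le_AA {m : ℕ} (hm : 1 ≤ m) : 1 ≤ AA K m := by
  have h1 : (1 : ℝ) ≤ |(discr K : ℝ)| := by
    rw [← Int.cast_abs]
    exact_mod_cast Int.one_le_abs (discr_ne_zero K)
  have h2 : (1 : ℝ) ≤ (m : ℝ) ^ 2 := one_le_pow₀ (by exact_mod_cast hm)
  unfold AA
  nlinarith

lemma fin_small (A : ℝ) : {𝔞 : Ideal (𝓞 K) | 𝔞 ≠ ⊥ ∧ 9 * NN 𝔞 ^ 2 ≤ A}.Finite := by
  refine (Ideal.finite_setOf_absNorm_le (S := 𝓞 K) ⌈A⌉₊).subset fun 𝔞 h => ?_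
  obtain ⟨h1, h2⟩ := h
  have h3 := one_le_NN h1
  have h4 : NN 𝔞 ≤ (⌈A⌉₊ : ℝ) := by
    refine le_trans ?_ (Nat.le_ceil A)
    nlinarith
  unfold NN at h4
  simp only [mem_setOf_eq]
  exact_mod_cast h4

end

end Pool.Agent.H465.CG
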