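import Pool.Agent.H465.CG.Ms

/-!
# Project CG (helper465): the mean square on the critical line, proof
-/

set_option autoImplicit false

open NumberField Filter Topology Set
open scoped ComplexConjugate Real

namespace Pool.Agent.H465.CG

open Pool.Agent.Y773 (LI)

section
variable {K : Type} [Field K] [NumberField K]

/-- the finite Dirichlet polynomial -/
noncomputable def PP (S : Finset (Ideal (𝓞 K))) (ψ : Ideal (𝓞 K) →*₀ ℂ) (s : ℂ) : ℂ :=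
  ∑ 𝔞 ∈ S, ((Ideal.absNorm 𝔞 : ℕ) : ℂ) ^ (-s) * ψ 𝔞

lemma PP_diff {S : Finset (Ideal (𝓞 K))} (hS : ∀ 𝔞 ∈ S, 𝔞 ≠ ⊥) (ψ : Ideal (𝓞 K) →*₀ ℂ) :
    Differentiable ℂ (PP S ψ) := by
  intro s
  unfold PP
  refine DifferentiableAt.fun_sum fun 𝔞 h => ?_
  refine DifferentiableAt.mul_const ?_ _
  refine (differentiableAt_id.neg).const_cpow (Or.inl ?_)
  have := NN_pos (hS 𝔞 h)
  unfold NN at this
  exact_mod_cast this.ne'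

lemma PP_bd {S : Finset (Ideal (𝓞 K))} (hS : ∀ 𝔞 ∈ S, 𝔞 ≠ ⊥) {ψ : Ideal (𝓞 K) →*₀ ℂ}
    (hψ : ∀ 𝔞, ‖ψ 𝔞‖ ≤ 1) : ∃ B : ℝ, ∀ s : ℂ, -(1 / 4) ≤ s.re → s.re ≤ 5 / 4 →
      ‖PP S ψ s‖ ≤ B := by
  refine ⟨∑ 𝔞 ∈ S, NN 𝔞 ^ (1 / 4 : ℝ), fun s h1 _ => ?_⟩
  unfold PP
  refine (norm_sum_le _ _).trans (Finset.sum_le_sum fun 𝔞 h => ?_)
  rw [norm_mul, norm_NNc (hS 𝔞 h)]
  calc NN 𝔞 ^ (-s.re) * ‖ψ 𝔞‖ ≤ NN 𝔞 ^ (-s.re) * 1 := by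
        refine mul_le_mul_of_nonneg_left (hψ 𝔞) ?_
        exact Real.rpow_nonneg (NN_pos (hS 𝔞 h)).le _
    _ = NN 𝔞 ^ (-s.re) := mul_one _
    _ ≤ _ := Real.rpow_le_rpow_of_exponent_le (one_le_NN (hS 𝔞 h)) (by linarith)

open Classical in
/-- the Bessel inequality for the Dirichlet polynomials -/
lemma PP_sq [IsTotallyComplex K] (hLs : SLs) (h2 : Module.finrank ℚ K = 2) {m : ℕ} (hm : 1 ≤ m)
    {Ψ : Finset (Ideal (𝓞 K) →*₀ ℂ)}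
    (h0 : ∀ ψ ∈ Ψ, ∀ 𝔞 : Ideal (𝓞 K), 𝔞 ≠ ⊥ →
      (ψ 𝔞 ≠ 0 ↔ IsCoprime 𝔞 (Ideal.span {(m : 𝓞 K)})))
    (h1 : ∀ ψ ∈ Ψ, ∀ 𝔞, ‖ψ 𝔞‖ ≤ 1)
    (hag : ∀ ψ ∈ Ψ, ∀ ψ' ∈ Ψ, ∀ x : 𝓞 K, x ≠ 0 → x - 1 ∈ Ideal.span {(m : 𝓞 K)} →
      ψ (Ideal.span {x}) = ψ' (Ideal.span {x}))
    {S : Finset (Ideal (𝓞 K))} (hS : ∀ 𝔞 ∈ S, 𝔞 ≠ ⊥) {σ : ℝ} {s : ℂ} (hs : s.re = σ) :
    ∑ ψ ∈ Ψ, ‖PP S ψ s‖ ^ 2 ≤ (Nat.card (ClassGroup (𝓞 K)) : ℝ) * (m : ℝ) ^ 2 *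
      ∑ p ∈ (S ×ˢ S).filter (fun p => Rel m p.1 p.2), (NN p.1 * NN p.2) ^ (-σ) := by
  have h := hLs K h2 m hm Ψ h0 h1 hag S hS (fun 𝔞 => ((Ideal.absNorm 𝔞 : ℕ) : ℂ) ^ (-s))
  refine h.trans (le_of_eq ?_)
  congr 1
  refine Finset.sum_congr rfl fun p hp => ?_
  have hp1 := (Finset.mem_product.1 (Finset.mem_filter.1 hp).1)
  rw [norm_NNc (hS _ hp1.1), norm_NNc (hS _ hp1.2), hs,
    Real.mul_rpow (NN_pos (hS _ hp1.1)).le (NN_pos (hS _ hp1.2)).le]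

open Classical in
lemma tail_tendsto {ψ : Ideal (𝓞 K) →*₀ ℂ} (hψ : ∀ 𝔞, ‖ψ 𝔞‖ ≤ 1) {s : ℂ} (hs : 1 < s.re)
    {A : ℝ} (S : Finset (Ideal (𝓞 K))) (hS : ∀ 𝔞, 𝔞 ∈ S ↔ 𝔞 ≠ ⊥ ∧ 9 * NN 𝔞 ^ 2 ≤ A) :
    Tendsto (fun U : Finset (Ideal (𝓞 K)) =>
      PP (U.filter fun 𝔞 => 𝔞 ≠ ⊥ ∧ A < 9 * NN 𝔞 ^ 2) ψ s) atTop (𝓝 (LI ψ s - PP S ψ s)) := by
  have h1 := Pool.Agent.Y772.DK.term_summable (a := fun 𝔞 => ψ 𝔞) (map_zero _) hψ hs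
  have h2 : HasSum (fun 𝔞 : Ideal (𝓞 K) => ψ 𝔞 * ((Ideal.absNorm 𝔞 : ℕ) : ℂ) ^ (-s)) (LI ψ s) :=
    h1.of_norm.hasSum
  have h3 : HasSum (fun 𝔞 : Ideal (𝓞 K) =>
      if 𝔞 ∈ S then ψ 𝔞 * ((Ideal.absNorm 𝔞 : ℕ) : ℂ) ^ (-s) else 0) (PP S ψ s) := by
    have h4 := hasSum_sum_of_ne_finset_zero (s := S) (f := fun 𝔞 : Ideal (𝓞 K) =>
      if 𝔞 ∈ S then ψ 𝔞 * ((Ideal.absNorm 𝔞 : ℕ) : ℂ) ^ (-s) else 0)
      (L := SummationFilter.unconditional _) (fun b hb => if_neg hb)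
    have h5 : ∑ b ∈ S, (if b ∈ S then ψ b * ((Ideal.absNorm b : ℕ) : ℂ) ^ (-s) else 0) =
        PP S ψ s := by
      unfold PP
      refine Finset.sum_congr rfl fun b hb => ?_
      rw [if_pos hb, mul_comm]
    rwa [h5] at h4
  have h6 := h2.sub h3
  refine Tendsto.congr (fun U => ?_) h6
  unfold PP
  rw [Finset.sum_filter]
  refine Finset.sum_congr rfl fun 𝔞 _ => ?_
  dsimp only
  by_cases h0 : 𝔞 = ⊥
  · have h7 : 𝔞 ∉ S := fun h8 => ((hS 𝔞).1 h8).1 h0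
    have h9 : ¬ (𝔞 ≠ ⊥ ∧ A < 9 * NN 𝔞 ^ 2) := fun h10 => h10.1 h0
    rw [if_neg h7, if_neg h9, h0, ← Ideal.zero_eq_bot, map_zero, zero_mul, sub_zero]
  · by_cases h7 : 9 * NN 𝔞 ^ 2 ≤ A
    · rw [if_pos ((hS 𝔞).2 ⟨h0, h7⟩), sub_self, if_neg (fun h10 => absurd h7 (not_le.2 h10.2))]
    · rw [if_neg (fun h10 => h7 ((hS 𝔞).1 h10).2), if_pos ⟨h0, not_le.1 h7⟩, sub_zero, mul_comm]

end

theorem ms (hSh : SShort) (hLo : SLong) (hLs : SLs) : SMs := by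
  classical
  intro ε T M hε hT hM
  obtain ⟨C₁, hC₁, hsh⟩ := hSh ε hε
  obtain ⟨C₂, hC₂, hlo⟩ := hLo ε hε
  obtain ⟨G, hG, hgb⟩ := Gm_bd M
  obtain ⟨C₃, hC₃, han⟩ := t_an T (G ^ 2) 6 hT (one_le_pow₀ hG)
  obtain ⟨c, hc, hc1, hlow⟩ := gr_low M (1 / 2 + T)
  refine ⟨C₃ * (2 * C₁ + C₂) * (1024 / c ^ 4), ?_, ?_⟩
  · have h1 : (1 : ℝ) ≤ 1024 / c ^ 4 := by
      rw [le_div_iff₀ (by positivity)]
      have : c ^ 4 ≤ 1 := pow_le_one₀ hc.le hc1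
      linarith
    have h2 : (1 : ℝ) ≤ 2 * C₁ + C₂ := by linarith
    nlinarith [mul_le_mul hC₃ h2 zero_le_one (by linarith : (0 : ℝ) ≤ C₃)]
  intro K _ _ _ h2 m hm Ψ h0 hag k μ Λ F hd s hs1 hs2
  set A := AA K m with hA
  have hA1 : 1 ≤ A := one_le_AA hm
  have hA0 : 0 < A := by linarith
  set H : ℝ := (Nat.card (ClassGroup (𝓞 K)) : ℝ) * (m : ℝ) ^ 2 with hH
  have hH0 : 0 ≤ H := by positivity
  have h1 : ∀ ψ ∈ Ψ, ∀ 𝔞, ‖ψ 𝔞‖ ≤ 1 := fun ψ h => (hd ψ h).le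
  set S : Finset (Ideal (𝓞 K)) := (fin_small (K := K) A).toFinset with hSd
  have hS : ∀ 𝔞, 𝔞 ∈ S ↔ 𝔞 ≠ ⊥ ∧ 9 * NN 𝔞 ^ 2 ≤ A := fun 𝔞 => by
    rw [hSd, Set.Finite.mem_toFinset]
    exact Iff.rfl
  have hSb : ∀ 𝔞 ∈ S, 𝔞 ≠ ⊥ := fun 𝔞 h => ((hS 𝔞).1 h).1
  have hcard : Fintype.card (K →+* ℂ) = 2 := by
    rw [← h2]
    exact NumberField.Embeddings.card K ℂ
  have hshort := hsh K h2 m hm S fun 𝔞 h => (hS 𝔞).1 h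
  -- the estimate
  have key := han (↥Ψ) A (fun ψ s => (s * (s - 1)) ^ 2 * Λ ψ.1 s) (fun ψ => gf (k ψ.1) (μ ψ.1))
    (fun ψ => PP S ψ.1) (fun ψ s => LI ψ.1 s - PP S ψ.1 s) (H * (C₁ * A ^ ε))
    (H * (C₁ * A ^ (ε + 3 / 4))) (H * (C₂ * A ^ (-(3 / 4) + ε))) hA1 ?_ ?_ ?_ ?_ ?_ ?_ ?_ ?_ ?_ ?_ ?_
    s hs1 hs2
  rotate_left
  · intro ψ
    refine Differentiable.mul ?_ (hd ψ.1 ψ.2).entL
    exact ((differentiable_id).mul ((differentiable_id).sub_const _)).pow _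
  · intro ψ z
    rw [norm_mul, norm_mul, (hd ψ.1 ψ.2).sym z, norm_pow, norm_pow, norm_mul, norm_mul]
    have e1 : ‖1 - conj z‖ = ‖z - 1‖ := by
      rw [← Complex.norm_conj, map_sub, map_one, Complex.conj_conj, norm_sub_rev]
    have e2 : ‖1 - conj z - 1‖ = ‖z‖ := by
      have : 1 - conj z - 1 = -conj z := by ring
      rw [this, norm_neg, Complex.norm_conj]
    rw [e1, e2, mul_comm ‖z - 1‖]
  · intro ψ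
    obtain ⟨B, j, hB⟩ := (hd ψ.1 ψ.2).grow
    refine ⟨|B|, 4 + j, fun z z1 z2 => ?_⟩
    have hz : 0 ≤ ‖z‖ := norm_nonneg z
    have hz1 : ‖z - 1‖ ≤ 1 + ‖z‖ := by
      refine (norm_sub_le _ _).trans ?_
      rw [norm_one, add_comm]
    rw [norm_mul, norm_pow, norm_mul]
    have e3 := hB z (by linarith) (by linarith)
    have e4 : ‖Λ ψ.1 z‖ ≤ |B| * (1 + ‖z‖) ^ j :=
      e3.trans (mul_le_mul_of_nonneg_right (le_abs_self _) (by positivity))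
    calc (‖z‖ * ‖z - 1‖) ^ 2 * ‖Λ ψ.1 z‖ ≤ ((1 + ‖z‖) * (1 + ‖z‖)) ^ 2 * (|B| * (1 + ‖z‖) ^ j) := by
          refine mul_le_mul ?_ e4 (norm_nonneg _) (by positivity)
          refine pow_le_pow_left₀ (by positivity) ?_ _
          exact mul_le_mul (by linarith) hz1 (norm_nonneg _) (by linarith)
      _ = _ := by ring
  · intro ψ z hz
    exact gf_diff (hd ψ.1 ψ.2).mu hz
  · intro ψ z z1 z2
    exact gf_bd hG hgb hcard (hd ψ.1 ψ.2).k1 (hd ψ.1 ψ.2).mu (hd ψ.1 ψ.2).muM z1 z2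
  · intro ψ
    exact PP_diff hSb ψ.1
  · intro ψ
    exact PP_bd hSb (h1 ψ.1 ψ.2)
  · intro ψ z hz
    have hz0 : z ≠ 0 := by
      rintro rfl
      norm_num at hz
    rw [(hd ψ.1 ψ.2).fac z (by rw [hz]; norm_num), (hd ψ.1 ψ.2).ser z (by rw [hz]; norm_num)]
    have e5 : gf (k ψ.1) (μ ψ.1) z = (z - 1) ^ 2 * (z * (z - 1)) ^ (k ψ.1) *
        (z ^ 2 * ∏ φ, Complex.Gammaℝ (z + μ ψ.1 φ)) := by
      unfold gf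
      congr 1
      rw [Finset.prod_congr rfl fun φ _ => Gm_eq hz0, Finset.prod_mul_distrib, Finset.prod_const,
        Finset.card_univ, hcard]
    rw [e5, mul_pow z (z - 1) (k ψ.1), add_sub_cancel]
    generalize z - 1 = w
    ring
  · intro z hz
    have e6 := PP_sq hLs h2 hm h0 h1 hag hSb (σ := 1 / 2) hz
    rw [Finset.sum_coe_sort Ψ (fun ψ => ‖PP S ψ z‖ ^ 2)]
    exact e6.trans (mul_le_mul_of_nonneg_left hshort hH0)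
  · intro z hz
    have e6 := PP_sq hLs h2 hm h0 h1 hag hSb (σ := -(1 / 4)) hz
    rw [Finset.sum_coe_sort Ψ (fun ψ => ‖PP S ψ z‖ ^ 2)]
    refine e6.trans (mul_le_mul_of_nonneg_left ?_ hH0)
    rw [add_comm ε, Real.rpow_add hA0, mul_left_comm]
    refine le_trans ?_ (mul_le_mul_of_nonneg_left hshort (by positivity : 0 ≤ A ^ (3 / 4 : ℝ)))
    rw [Finset.mul_sum]
    refine Finset.sum_le_sum fun p hp => ?_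
    have hp1 := (Finset.mem_product.1 (Finset.mem_filter.1 hp).1)
    obtain ⟨q1, q2⟩ := (hS _).1 hp1.1
    obtain ⟨q3, q4⟩ := (hS _).1 hp1.2
    have q5 := NN_pos q1
    have q6 := NN_pos q3
    have q7 : 0 < NN p.1 * NN p.2 := mul_pos q5 q6
    have q8 : NN p.1 * NN p.2 ≤ A := by nlinarith [sq_nonneg (NN p.1 - NN p.2)]
    have e7 : (-(-(1 / 4)) : ℝ) = 3 / 4 + (-(1 / 2)) := by norm_num
    rw [e7, Real.rpow_add q7]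
    refine mul_le_mul_of_nonneg_right ?_ (by positivity)
    exact Real.rpow_le_rpow q7.le q8 (by norm_num)
  · intro z hz
    rw [Finset.sum_coe_sort Ψ (fun ψ => ‖LI ψ z - PP S ψ z‖ ^ 2)]
    have hz1 : 1 < z.re := by rw [hz]; norm_num
    have t1 : Tendsto (fun U : Finset (Ideal (𝓞 K)) => ∑ ψ ∈ Ψ,
        ‖PP (U.filter fun 𝔞 => 𝔞 ≠ ⊥ ∧ A < 9 * NN 𝔞 ^ 2) ψ z‖ ^ 2) atTop
        (𝓝 (∑ ψ ∈ Ψ, ‖LI ψ z - PP S ψ z‖ ^ 2)) :=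
      tendsto_finsetSum _ fun ψ hψ => ((tail_tendsto (h1 ψ hψ) hz1 S hS).norm).pow 2
    refine le_of_tendsto' t1 fun U => ?_
    have hU : ∀ 𝔞 ∈ U.filter (fun 𝔞 => 𝔞 ≠ ⊥ ∧ A < 9 * NN 𝔞 ^ 2), 𝔞 ≠ ⊥ ∧ A < 9 * NN 𝔞 ^ 2 :=
      fun 𝔞 h => (Finset.mem_filter.1 h).2
    have e6 := PP_sq hLs h2 hm h0 h1 hag (fun 𝔞 h => (hU 𝔞 h).1) (σ := 5 / 4) hz
    exact e6.trans (mul_le_mul_of_nonneg_left (hlo K h2 m hm _ hU) hH0)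
  -- the conclusion
  have hbig : C₃ * (A ^ (1 / 2 : ℝ) * (H * (C₁ * A ^ ε)) +
      A ^ (-(1 / 4) : ℝ) * (H * (C₁ * A ^ (ε + 3 / 4))) +
      A ^ (5 / 4 : ℝ) * (H * (C₂ * A ^ (-(3 / 4) + ε)))) =
      C₃ * (2 * C₁ + C₂) * H * (A ^ (1 / 2 : ℝ) * A ^ ε) := by
    have e1 : A ^ (-(1 / 4) : ℝ) * A ^ (ε + 3 / 4) = A ^ (1 / 2 : ℝ) * A ^ ε := by
      rw [← Real.rpow_add hA0, ← Real.rpow_add hA0]
      congr 1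
      ring
    have e2 : A ^ (5 / 4 : ℝ) * A ^ (-(3 / 4) + ε) = A ^ (1 / 2 : ℝ) * A ^ ε := by
      rw [← Real.rpow_add hA0, ← Real.rpow_add hA0]
      congr 1
      ring
    calc C₃ * (A ^ (1 / 2 : ℝ) * (H * (C₁ * A ^ ε)) +
          A ^ (-(1 / 4) : ℝ) * (H * (C₁ * A ^ (ε + 3 / 4))) +
          A ^ (5 / 4 : ℝ) * (H * (C₂ * A ^ (-(3 / 4) + ε)))) =
          C₃ * H * (C₁ * (A ^ (1 / 2 : ℝ) * A ^ ε) + C₁ * (A ^ (-(1 / 4) : ℝ) * A ^ (ε + 3 / 4)) +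
            C₂ * (A ^ (5 / 4 : ℝ) * A ^ (-(3 / 4) + ε))) := by ring
      _ = _ := by
          rw [e1, e2]
          ring
  rw [hbig, Finset.sum_coe_sort Ψ (fun ψ => ‖(s * (s - 1)) ^ 2 * Λ ψ s‖ ^ 2)] at key
  have hs3 : ‖s‖ ≤ 1 / 2 + T := by
    refine (Complex.norm_le_abs_re_add_abs_im _).trans ?_
    rw [hs1, abs_of_pos (by norm_num : (0 : ℝ) < 1 / 2)]
    linarith
  have hs4 : 1 / 2 ≤ ‖s‖ := by
    have := Complex.abs_re_le_norm s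
    rw [hs1, abs_of_pos (by norm_num : (0 : ℝ) < 1 / 2)] at this
    exact this
  have hs5 : 1 / 2 ≤ ‖s - 1‖ := by
    have := Complex.abs_re_le_norm (s - 1)
    rw [Complex.sub_re, hs1, Complex.one_re] at this
    norm_num at this
    linarith
  have hpt : ∀ ψ ∈ Ψ, ‖F ψ s‖ ^ 2 * A ^ (1 / 2 : ℝ) ≤
      1024 / c ^ 4 * ‖(s * (s - 1)) ^ 2 * Λ ψ s‖ ^ 2 := by
    intro ψ hψ
    have hdψ := hd ψ hψ
    have hγ : c ^ 2 ≤ ‖∏ φ, Complex.Gammaℝ (s + μ ψ φ)‖ := by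
      rw [norm_prod]
      calc c ^ 2 = ∏ _φ : K →+* ℂ, c := by rw [Finset.prod_const, Finset.card_univ, hcard]
        _ ≤ _ := by
            refine Finset.prod_le_prod (fun φ _ => hc.le) fun φ _ => ?_
            refine hlow (μ ψ φ) ?_ (hdψ.muM φ) s (by rw [hs1]) hs3
            rcases hdψ.mu φ with h | h
            · rw [h]
            · linarith
    rw [hdψ.fac s (by rw [hs1]; norm_num)]
    have e8 : ‖(s * (s - 1)) ^ 2 * (s ^ k ψ * ((A : ℂ) ^ (s / 2) *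
        ∏ φ, Complex.Gammaℝ (s + μ ψ φ)) * F ψ s)‖ ^ 2 =
        ((‖s‖ * ‖s - 1‖) ^ 2 * ‖s‖ ^ k ψ * ‖∏ φ, Complex.Gammaℝ (s + μ ψ φ)‖) ^ 2 *
          (‖F ψ s‖ ^ 2 * A ^ (1 / 2 : ℝ)) := by
      have e9 := norm_A_sq hA1 s
      rw [hs1] at e9
      rw [← e9]
      simp only [norm_mul, norm_pow]
      ring
    rw [e8]
    have hk : (1 / 2 : ℝ) ≤ ‖s‖ ^ k ψ := by
      have : k ψ = 0 ∨ k ψ = 1 := by
        have := hdψ.k1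
        omega
      rcases this with h | h
      · rw [h, pow_zero]
        norm_num
      · rw [h, pow_one]
        exact hs4
    have hprod : c ^ 2 / 32 ≤ (‖s‖ * ‖s - 1‖) ^ 2 * ‖s‖ ^ k ψ *
        ‖∏ φ, Complex.Gammaℝ (s + μ ψ φ)‖ := by
      have q1 : (1 / 4 : ℝ) ≤ ‖s‖ * ‖s - 1‖ := by nlinarith
      have q2 : (1 / 16 : ℝ) ≤ (‖s‖ * ‖s - 1‖) ^ 2 := by nlinarith
      have q3 : (1 / 32 : ℝ) ≤ (‖s‖ * ‖s - 1‖) ^ 2 * ‖s‖ ^ k ψ := by nlinarith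
      calc c ^ 2 / 32 = 1 / 32 * c ^ 2 := by ring
        _ ≤ _ := mul_le_mul q3 hγ (by positivity) (by linarith)
    have hsq : c ^ 4 / 1024 ≤ ((‖s‖ * ‖s - 1‖) ^ 2 * ‖s‖ ^ k ψ *
        ‖∏ φ, Complex.Gammaℝ (s + μ ψ φ)‖) ^ 2 := by
      calc c ^ 4 / 1024 = (c ^ 2 / 32) ^ 2 := by ring
        _ ≤ _ := pow_le_pow_left₀ (by positivity) hprod 2
    have hX : 0 ≤ ‖F ψ s‖ ^ 2 * A ^ (1 / 2 : ℝ) := by positivity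
    calc ‖F ψ s‖ ^ 2 * A ^ (1 / 2 : ℝ) = 1024 / c ^ 4 * (c ^ 4 / 1024 *
          (‖F ψ s‖ ^ 2 * A ^ (1 / 2 : ℝ))) := by
          field_simp
      _ ≤ _ := by
          refine mul_le_mul_of_nonneg_left ?_ (by positivity)
          exact mul_le_mul_of_nonneg_right hsq hX
  have hsum : (∑ ψ ∈ Ψ, ‖F ψ s‖ ^ 2) * A ^ (1 / 2 : ℝ) ≤
      (C₃ * (2 * C₁ + C₂) * (1024 / c ^ 4) * H * A ^ ε) * A ^ (1 / 2 : ℝ) := by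
    rw [Finset.sum_mul]
    refine (Finset.sum_le_sum hpt).trans ?_
    rw [← Finset.mul_sum]
    refine (mul_le_mul_of_nonneg_left key (by positivity)).trans (le_of_eq ?_)
    ring
  exact le_of_mul_le_mul_right hsum (by positivity)

end Pool.Agent.H465.CG
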