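import Pool.Agent.H465.CG.Fam2
import Pool.Agent.H97.CGSOrd
import Pool.Graph.R_seed8.Y773.IQ.Cl

/-!
# Project CG (helper465): primitive ray class characters
-/

set_option autoImplicit false

open NumberField Filter Topology Set MeasureTheory
open scoped ComplexConjugate Real

namespace Pool.Agent.H465.CG

open Pool.Agent.Y773 (LI)
open Pool.Agent.Y773.G (IsPrimChar)
open Pool.Agent.H465.PT (Deg IsCont BB HD hd_all cond_eq)

section
variable {K : Type} [Field K] [NumberField K]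

lemma hd_hm {ψ : Ideal (𝓞 K) →*₀ ℂ} {k : ℕ} {e : (K →+* ℂ) → ℕ} {R : ℝ} {Λ F : ℂ → ℂ}
    (h : HD ψ k e R Λ F) : HM ψ k 1 (fun φ => (e φ : ℝ)) R Λ F where
  k1 := h.k1
  mu φ := by
    have := h.e1 φ
    have h2 : e φ = 0 ∨ e φ = 1 := by omega
    rcases h2 with h3 | h3
    · left
      rw [h3, Nat.cast_zero]
    · right
      rw [h3, Nat.cast_one]
      norm_num
  muM φ := by exact_mod_cast h.e1 φ
  k0 hk := by
    obtain ⟨φ, hφ⟩ := h.k0 hk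
    exact ⟨φ, by rw [hφ, Nat.cast_zero]⟩
  R1 := h.R1
  le := h.le
  entL := h.entL
  entF := h.entF
  ser := h.ser
  fac s hs := by
    rw [h.fac s hs]
    unfold Pool.Agent.Y773.GG
    simp only [Complex.ofReal_natCast]
  sym := h.sym
  grow := h.grow
  one := h.one

/-- the norm of `(m)` -/
lemma norm_m (h2 : Module.finrank ℚ K = 2) (m : ℕ) :
    ((Ideal.absNorm (Ideal.span {(m : 𝓞 K)}) : ℕ) : ℝ) = (m : ℝ) ^ 2 := by
  have h : Ideal.absNorm (Ideal.span {(m : 𝓞 K)}) = m ^ 2 := by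
    have h3 := Ideal.absNorm_span_natCast (S := 𝓞 K) m
    rw [h3, RingOfIntegers.rank, h2]
  rw [h]
  push_cast
  rfl

lemma AA_eq (h2 : Module.finrank ℚ K = 2) (m : ℕ) :
    ((Ideal.absNorm (Ideal.span {(m : 𝓞 K)}) * Ideal.absNorm (differentIdeal ℤ (𝓞 K)) : ℕ) : ℝ) =
      AA K m := by
  rw [cond_eq, norm_m h2]
  rfl

lemma prim_data [IsTotallyComplex K] (h2 : Module.finrank ℚ K = 2) {m : ℕ}
    {ψ : Ideal (𝓞 K) →*₀ ℂ} (h : IsPrimChar K (Ideal.span {(m : 𝓞 K)}) ψ) :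
    ∃ (k : ℕ) (μ : (K →+* ℂ) → ℝ) (Λ F : ℂ → ℂ), HM ψ k 1 μ (AA K m) Λ F := by
  obtain ⟨k, e, Λ, F, hd⟩ := hd_all h
  rw [AA_eq h2] at hd
  exact ⟨k, _, Λ, F, hd_hm hd⟩

lemma prim_agree [IsTotallyComplex K] {m : ℕ} {ψ ψ' : Ideal (𝓞 K) →*₀ ℂ}
    (h : IsPrimChar K (Ideal.span {(m : 𝓞 K)}) ψ) (h' : IsPrimChar K (Ideal.span {(m : 𝓞 K)}) ψ')
    (x : 𝓞 K) (hx : x ≠ 0) (hm : x - 1 ∈ Ideal.span {(m : 𝓞 K)}) :
    ψ (Ideal.span {x}) = ψ' (Ideal.span {x}) := by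
  rw [h.ray x hx hm (Pool.Agent.Y773.IQ.tpos_all _), h'.ray x hx hm (Pool.Agent.Y773.IQ.tpos_all _)]

end

end Pool.Agent.H465.CG
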