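import Pool.Agent.H465.PT.W
import Mathlib.NumberTheory.NumberField.InfinitePlace.TotallyRealComplex

/-!
# Project CG (helper465): L-functions of all imaginary quadratic fields, statements

`K` is an imaginary quadratic field, `m ≥ 1`, and `A = |D_K| m²`.  All estimates are uniform in `K`
and `m`.
-/

set_option autoImplicit false

open NumberField Filter Topology
open scoped ComplexConjugate

namespace Pool.Agent.H465.CG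

/-- `𝔞` and `𝔟` are in the same ray class modulo `(m)`; `K` has no real places -/
def Rel {K : Type} [Field K] [NumberField K] (m : ℕ) (𝔞 𝔟 : Ideal (𝓞 K)) : Prop :=
  ∃ x y : 𝓞 K, x ≠ 0 ∧ y ≠ 0 ∧ x - 1 ∈ Ideal.span {(m : 𝓞 K)} ∧
    y - 1 ∈ Ideal.span {(m : 𝓞 K)} ∧ Ideal.span {x} * 𝔞 = Ideal.span {y} * 𝔟

/-- the norm of an ideal as a real number -/
noncomputable def NN {K : Type} [Field K] [NumberField K] (𝔞 : Ideal (𝓞 K)) : ℝ :=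
  (Ideal.absNorm 𝔞 : ℝ)

/-- `|D_K| m²` -/
noncomputable def AA (K : Type) [Field K] [NumberField K] (m : ℕ) : ℝ :=
  |(discr K : ℝ)| * (m : ℝ) ^ 2

/-- GEO.  Coordinates on the ring of integers: `t` is the trace and `J x` is (up to sign) the
determinant of `(1, x)` with respect to an integral basis.

Proof.  `K` has two embeddings `σ`, `conj σ` (not real), and `N(x) = |σ x|²` (see
`Pool.Agent.Y773.IQ.absNorm_eq` in `Pool.Graph.R_seed8.Y773.IQ.Quad`), `t x = tr x = 2 Re σ x`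
(`Algebra.trace ℤ (𝓞 K)`, `trace_eq_sum_embeddings`).  Let `b` be a `ℤ`-basis of `𝓞 K`
(`RingOfIntegers.basis K`, reindexed by `Fin 2`).  Put `J x = c₀(1) c₁(x) - c₁(1) c₀(x)`, `c_i` the
coordinates; `J` is additive and `J 1 = 0`.  Then `(σ' x - σ x)² = J(x)² (σ b₀ σ' b₁ - σ b₁ σ' b₀)²
= J(x)² D_K` (`NumberField.discr`, `Algebra.discr_eq_det_embeddingsMatrixReindex_pow_two`), and the
left hand side is `-4 (Im σ x)²`.  So `4 N(x) = (2 Re σ x)² + (2 Im σ x)² = t(x)² + J(x)² |D_K|`. -/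
def SGeo : Prop := ∀ (K : Type) [Field K] [NumberField K] [IsTotallyComplex K],
  Module.finrank ℚ K = 2 → ∃ t J : 𝓞 K →+ ℤ, J 1 = 0 ∧
    ∀ x : 𝓞 K, 4 * NN (Ideal.span {x}) = (t x : ℝ) ^ 2 + (J x : ℝ) ^ 2 * |(discr K : ℝ)|

/-- PAIR.  Two ideals in the same class.

Proof.  `N𝔟 ∈ 𝔟` (`Ideal.absNorm_mem`), so `𝔟 𝔠 = (N𝔟)` for an ideal `𝔠`.  From
`(x) 𝔞 = (y) 𝔟` we get `(x) 𝔞 𝔠 = (y N𝔟)`, so `y N𝔟 = x β` for some `β`, and `𝔞 𝔠 = (β)`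
(cancel `(x) ≠ 0`).  Norms: `N(𝔟) N(𝔠) = N((N𝔟)) = N(𝔟)²` (`finrank = 2`,
`Ideal.absNorm_span_natCast` or `Algebra.norm_algebraMap`), so `N𝔠 = N𝔟` and
`N(β) = N𝔞 N𝔟`.  Finally, with `I = (m)`, `x (β - N𝔟) = (y - x) N𝔟 ∈ I` and
`β - N𝔟 = x (β - N𝔟) - (x - 1)(β - N𝔟) ∈ I`. -/
def SPair : Prop := ∀ (K : Type) [Field K] [NumberField K], Module.finrank ℚ K = 2 →
  ∀ (m : ℕ) (𝔞 𝔟 : Ideal (𝓞 K)), 1 ≤ m → 𝔞 ≠ ⊥ → 𝔟 ≠ ⊥ → Rel m 𝔞 𝔟 →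
    ∃ (β : 𝓞 K) (𝔠 : Ideal (𝓞 K)), β ≠ 0 ∧ 𝔟 * 𝔠 = Ideal.span {(Ideal.absNorm 𝔟 : 𝓞 K)} ∧
      𝔞 * 𝔠 = Ideal.span {β} ∧ NN 𝔠 = NN 𝔟 ∧ NN (Ideal.span {β}) = NN 𝔞 * NN 𝔟 ∧
      β - (Ideal.absNorm 𝔟 : 𝓞 K) ∈ Ideal.span {(m : 𝓞 K)}

/-- DIV.  The number of the divisors of an ideal, uniformly in all quadratic fields.

Proof.  `Pool.Agent.W585.VD.divisors_bound` (`Pool.Graph.R_seed8.W585.VD.NF`, with `A`, `R`, `t`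
depending only on `ε`, as `finrank = 2`) bounds the number of the sub-multisets of
`normalizedFactors J`, and a divisor of `J` is determined by its normalized factors. -/
def SDiv : Prop := ∀ ε : ℝ, 0 < ε → ∃ C : ℝ, 1 ≤ C ∧ ∀ (K : Type) [Field K] [NumberField K],
  Module.finrank ℚ K = 2 → ∀ (J : Ideal (𝓞 K)), J ≠ ⊥ → ∀ S : Finset (Ideal (𝓞 K)),
    (∀ 𝔠 ∈ S, 𝔠 ∣ J) → (S.card : ℝ) ≤ C * NN J ^ ε

open Classical in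
/-- SHORT.  The pairs of ideals of small norm in the same class: only the multiples of rational
integers occur.

Proof.  Fix `t, J` as in GEO.  To `(𝔞, 𝔟)` attach `β, 𝔠` as in PAIR.  `(β, 𝔠)` determines the pair:
`N𝔟 = N𝔠`, `𝔟 𝔠 = (N𝔟)` and `𝔞 𝔠 = (β)` with `𝔠 ≠ 0`.  So the sum is at most
`∑_β #{𝔠 ∣ (β)} N(β)^(-1/2) ≤ C ∑_β N(β)^(δ-1/2)` (DIV), over the `β` which occur.  For these
`β - N𝔟 = m γ`, so that `J β = m J γ` (`J 1 = 0`, `J` additive); if `J β ≠ 0` then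
`4 N(β) ≥ (J β)² |D| ≥ m² |D| = A`, but `81 N(β)² = (9 N𝔞²)(9 N𝔟²) ≤ A²`, so `N(β) ≤ A/9`, a
contradiction.  So `J β = 0`, `4 N(β) = t(β)²` and `β` is determined by `t β ≠ 0` (if `t x = J x = 0`
then `N x = 0`).  So the sum is at most `C ∑_{0 < |t|, t² ≤ 4A/9} (t²/4)^(δ-1/2) ≤
C' A^(2δ) ∑_{t ≠ 0} |t|^(-1-2δ)`. Choose `δ = ε/4`, say (for `ε ≤ 1/2`; `A ≥ 1`). -/
def SShort : Prop := ∀ ε : ℝ, 0 < ε → ∃ C : ℝ, 1 ≤ C ∧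
  ∀ (K : Type) [Field K] [NumberField K] [IsTotallyComplex K], Module.finrank ℚ K = 2 →
  ∀ (m : ℕ), 1 ≤ m → ∀ S : Finset (Ideal (𝓞 K)), (∀ 𝔞 ∈ S, 𝔞 ≠ ⊥ ∧ 9 * NN 𝔞 ^ 2 ≤ AA K m) →
    ∑ p ∈ (S ×ˢ S).filter (fun p => Rel m p.1 p.2), (NN p.1 * NN p.2) ^ (-(1 / 2) : ℝ) ≤
      C * AA K m ^ ε

open Classical in
/-- LONG.  The pairs of ideals of large norm in the same class.

Proof.  As for SHORT the sum is at most `C ∑_β N(β)^(δ-5/4)` over nonzero `β` with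
`J β ∈ m ℤ`, `81 N(β)² > A²`, i.e. `N(β) > A/9`; `β` is determined by `(t β, J β)`.  Put
`j = (J β)/m ∈ ℤ`; `4 N(β) = t² + j² A`.  So `4 N(β) ≥ u²` with `u = max(1, |t|)` (`N(β) ≥ 1`) and
`4 N(β) ≥ v²` with `v = √A max(1/4, |j|)` (as `4 N(β) > 4A/9 > A/16`).  With `p = 5/4 - δ` and
`2p = (1 + δ) + (3/2 - 3δ)`: `(4 N(β))^(-p) ≤ u^(-(1+δ)) v^(-(3/2-3δ))`.  The sum over all
`(t, j) ∈ ℤ²` of this product is `(∑_t u^(-(1+δ))) (∑_j max(1/4,|j|)^(-(3/2-3δ))) A^(-3/4+3δ/2)`,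
both series converge for `0 < δ < 1/12`.  Choose `δ = min(ε, 1/20)/2`, say (`A ≥ 1`). -/
def SLong : Prop := ∀ ε : ℝ, 0 < ε → ∃ C : ℝ, 1 ≤ C ∧
  ∀ (K : Type) [Field K] [NumberField K] [IsTotallyComplex K], Module.finrank ℚ K = 2 →
  ∀ (m : ℕ), 1 ≤ m → ∀ S : Finset (Ideal (𝓞 K)), (∀ 𝔞 ∈ S, 𝔞 ≠ ⊥ ∧ AA K m < 9 * NN 𝔞 ^ 2) →
    ∑ p ∈ (S ×ˢ S).filter (fun p => Rel m p.1 p.2), (NN p.1 * NN p.2) ^ (-(5 / 4) : ℝ) ≤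
      C * AA K m ^ (-(3 / 4) + ε)

open Classical in
/-- LS.  The large sieve (Bessel's inequality) for characters which agree on the ray.

`Ψ` is a finite set of functions on the ideals which vanish exactly on the ideals not prime to
`(m)` and any two of which agree on the principal ideals `(x)`, `x ≡ 1 mod (m)`; for instance ray
class characters modulo `(m)`, or Hecke characters modulo `(m)` of the same infinity type.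

Proof.  If `Ψ` is empty there is nothing to prove; fix `ψ₀ ∈ Ψ`.  The quotients `ψ / ψ₀` are
distinct characters of the group `G` of the classes of ideals prime to `(m)` modulo the `(x)` with
`x ≡ 1 mod (m)`; `|G| ≤ h(K) |(𝓞 K/m)ˣ| ≤ h(K) m²`.  By Bessel's inequality on `G`
`∑_{ψ ∈ Ψ} |∑_𝔞 c(𝔞) ψ(𝔞)|² ≤ |G| ∑_{C ∈ G} |∑_{𝔞 ∈ C} c(𝔞) ψ₀(𝔞)|²
  ≤ |G| ∑_{𝔞 ∼ 𝔟} |c(𝔞)| |c(𝔟)|`.
The library has this: `Pool.Agent.Y767.bes_cls Pool.Agent.Y287.HC.t_bes π θ Y hY S a` (any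
homomorphism `π : T →* M` into a cancellative commutative monoid, `Cls π` the group of classes,
`θ : M →* ℂˣ` the common part; see the proof of `Pool.Agent.Y773.IQ.ls` in
`Pool.Graph.R_seed8.Y773.IQ.Cl`), and `Pool.Agent.Y773.IQ.cls_card_le` for the order of `Cls` if
`(m) ≠ ⊤`.  One may take for all `m` at once `M` = the monoid of the nonzero ideals prime to `(m)`,
`T` = the monoid of the `x ≠ 0`, `x ≡ 1 mod (m)`; or treat `m = 1` (`M` = nonzero ideals, classes =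
ideal class group) and `m ≥ 2` (`M = Mq 𝔮`) separately.  `cls a = cls b` gives `Rel` by `cls_eq`.
The elements of `S` which are not prime to `(m)` do not contribute to the left hand side. -/
def SLs : Prop := ∀ (K : Type) [Field K] [NumberField K] [IsTotallyComplex K],
  Module.finrank ℚ K = 2 → ∀ (m : ℕ), 1 ≤ m → ∀ Ψ : Finset (Ideal (𝓞 K) →*₀ ℂ),
    (∀ ψ ∈ Ψ, ∀ 𝔞 : Ideal (𝓞 K), 𝔞 ≠ ⊥ → (ψ 𝔞 ≠ 0 ↔ IsCoprime 𝔞 (Ideal.span {(m : 𝓞 K)}))) →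
    (∀ ψ ∈ Ψ, ∀ 𝔞, ‖ψ 𝔞‖ ≤ 1) →
    (∀ ψ ∈ Ψ, ∀ ψ' ∈ Ψ, ∀ x : 𝓞 K, x ≠ 0 → x - 1 ∈ Ideal.span {(m : 𝓞 K)} →
      ψ (Ideal.span {x}) = ψ' (Ideal.span {x})) →
    ∀ (S : Finset (Ideal (𝓞 K))), (∀ 𝔞 ∈ S, 𝔞 ≠ ⊥) → ∀ (c : Ideal (𝓞 K) → ℂ),
      ∑ ψ ∈ Ψ, ‖∑ 𝔞 ∈ S, c 𝔞 * ψ 𝔞‖ ^ 2 ≤ (Nat.card (ClassGroup (𝓞 K)) : ℝ) * (m : ℝ) ^ 2 *
        ∑ p ∈ (S ×ˢ S).filter (fun p => Rel m p.1 p.2), ‖c p.1‖ * ‖c p.2‖

/-- AN.  The analytic part: a mean square bound on the critical line from mean squares of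
approximations on the lines `Re s = 5/4` and `Re s = -1/4`. -/
def SAn : Prop := ∀ (T C₀ : ℝ) (M₀ : ℕ), 0 ≤ T → 1 ≤ C₀ → ∃ C : ℝ, 1 ≤ C ∧
  ∀ (ι : Type) [Fintype ι] (A : ℝ) (Λ g P R : ι → ℂ → ℂ) (H₁ H₂ H₃ : ℝ), 1 ≤ A →
    (∀ i, Differentiable ℂ (Λ i)) → (∀ i s, ‖Λ i (1 - conj s)‖ = ‖Λ i s‖) →
    (∀ i, ∃ (B : ℝ) (k : ℕ), ∀ s : ℂ, -(1 / 2) ≤ s.re → s.re ≤ 3 / 2 →
      ‖Λ i s‖ ≤ B * (1 + ‖s‖) ^ k) →
    (∀ i s, -(1 / 2) < s.re → DifferentiableAt ℂ (g i) s) →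
    (∀ i s, -(1 / 4) ≤ s.re → s.re ≤ 5 / 4 → ‖g i s‖ ≤ C₀ * (1 + ‖s‖) ^ M₀) →
    (∀ i, Differentiable ℂ (P i)) →
    (∀ i, ∃ B : ℝ, ∀ s : ℂ, -(1 / 4) ≤ s.re → s.re ≤ 5 / 4 → ‖P i s‖ ≤ B) →
    (∀ i (s : ℂ), s.re = 5 / 4 → Λ i s = (A : ℂ) ^ (s / 2) * g i s * (P i s + R i s)) →
    (∀ s : ℂ, s.re = 1 / 2 → ∑ i, ‖P i s‖ ^ 2 ≤ H₁) →
    (∀ s : ℂ, s.re = -(1 / 4) → ∑ i, ‖P i s‖ ^ 2 ≤ H₂) →
    (∀ s : ℂ, s.re = 5 / 4 → ∑ i, ‖R i s‖ ^ 2 ≤ H₃) →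
    ∀ s : ℂ, s.re = 1 / 2 → |s.im| ≤ T → ∑ i, ‖Λ i s‖ ^ 2 ≤
      C * (A ^ (1 / 2 : ℝ) * H₁ + A ^ (-(1 / 4) : ℝ) * H₂ + A ^ (5 / 4 : ℝ) * H₃)

/-- PROD.  Products of L-functions.

Proof.  Field by field: take `Λ = ∏ Λ_i`, `L = ∏ L_i`, `γ = ∏ γ_i`; the bounds of the logarithms
add up (for `L`, `γ` nonzero), the norms multiply. In `grow` use that the product of finitely many
bounds `C_i (1 + ‖s‖)^(m_i)` is of the same form (take absolute values of the `C_i`). -/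
def SProd : Prop := ∀ (c b : ℝ → ℝ) (ι : Type) [Fintype ι] (k n : ι → ℕ) (x : ι → ℝ)
  (Λ L : ι → ℂ → ℂ), (∀ i, Pool.Agent.H465.PT.Deg c b (k i) (n i) (x i) (Λ i) (L i)) →
    Pool.Agent.H465.PT.Deg c b (∑ i, k i) (∑ i, n i) (∑ i, x i) (fun s => ∏ i, Λ i s)
      (fun s => ∏ i, L i s)

end Pool.Agent.H465.CG
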