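import Pool.Agent.H465.CG.Stm
import Pool.Agent.H465.PT.AC
import Pool.Graph.R_pool_sql_team_seeded_63374d34.N784.CZ.Prim

/-!
# Project CG (helper465): statements, second part
-/

set_option autoImplicit false

open NumberField Filter Topology Set
open scoped ComplexConjugate

namespace Pool.Agent.H465.CG

open Pool.Agent.Y773 (LI)
open Pool.Agent.H465.PT (Deg IsCont BB HD)
open Pool.Agent.H465.EQ (pt)
open Pool.Agent.H465.PT (zs)

/-- the data of a primitive Hecke character with real shifts in the gamma factors (compare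
`Pool.Agent.H465.PT.HD`, where the shifts are `0` or `1`) -/
structure HM {K : Type} [Field K] [NumberField K] (ψ : Ideal (𝓞 K) →*₀ ℂ) (k : ℕ) (M : ℝ)
    (μ : (K →+* ℂ) → ℝ) (R : ℝ) (Λ F : ℂ → ℂ) : Prop where
  k1 : k ≤ 1
  mu : ∀ φ, μ φ = 0 ∨ 1 / 2 ≤ μ φ
  muM : ∀ φ, μ φ ≤ M
  k0 : k = 1 → ∃ φ, μ φ = 0
  R1 : 1 ≤ R
  le : ∀ 𝔞, ‖ψ 𝔞‖ ≤ 1
  entL : Differentiable ℂ Λ
  entF : Differentiable ℂ F
  ser : ∀ s : ℂ, 1 < s.re → F s = (s - 1) ^ k * LI ψ s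
  fac : ∀ s : ℂ, 0 < s.re →
    Λ s = s ^ k * ((R : ℂ) ^ (s / 2) * ∏ φ, Complex.Gammaℝ (s + μ φ)) * F s
  sym : ∀ s : ℂ, ‖Λ (1 - conj s)‖ = ‖Λ s‖
  grow : ∃ (C : ℝ) (m : ℕ), ∀ s : ℂ, -1 ≤ s.re → s.re ≤ 2 → ‖Λ s‖ ≤ C * (1 + ‖s‖) ^ m
  one : ∀ s : ℂ, s.re = 1 → F s ≠ 0

/-- HMDEG.  The analytic data `Deg` from `HM`, with a function `c` which depends only on the bound
`M` of the shifts.

Proof.  Copy `Pool.Agent.H465.PT.HD.deg` (file `Pool/Agent/H465/PT/Z.lean`, with the lemmas on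
`Γ_ℝ` of `Pool/Agent/H465/PT/Y.lean`): the only change is that the shifts are real numbers in
`[0, M]` instead of `0` or `1`; `gT_le` holds for real shifts with `gT (T + M)`-like constants
(`gr_log`), and `gr_bd` with `Pool.Agent.R399.TW.gam_bd (a := 1/8) (b := 8 + M)`.  The bound at the
edge `1 ≤ re s ≤ 5/4` with `k = 1` uses one `φ` with `μ φ = 0` (`k0`) to absorb `s (s - 1)`. -/
def SHMdeg : Prop := ∀ M : ℝ, ∃ c : ℝ → ℝ, (∀ T, 0 ≤ c T) ∧
  ∀ (K : Type) [Field K] [NumberField K] (ψ : Ideal (𝓞 K) →*₀ ℂ) (k : ℕ) (μ : (K →+* ℂ) → ℝ)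
    (R : ℝ) (Λ F L : ℂ → ℂ), HM ψ k M μ R Λ F → IsCont ψ L →
      Deg c BB k (Module.finrank ℚ K) (Real.log R) Λ L

/-- HMHECKE.  The data `HM` for the primitive Hecke characters of nonzero infinity type of a number
field without real places.

Proof.  As `Pool.Agent.H465.PT.hd_ram` (file `Pool/Agent/H465/PT/AA.lean`), from
`Pool.Agent.N784.HC.fe_prim` (see the proof of `Pool.Agent.N784.CZ.feM` for its use: `h.modK`,
`h.primK`, `hn.fty`, `inf_fty`), which gives `F` with the functional equation data `FEm R μ F`,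
`μ = Pool.Agent.N784.HC.ex (fty n e)`.  At a complex place the values of `ex` are `N/2` and
`N/2 + 1` with `N ∈ ℕ`, so `μ φ = 0` or `μ φ ≥ 1/2`; the upper bound of `μ` is `ex_le`.
`Λ s = (R : ℂ) ^ (s / 2) * ∏ Γ_ℝ(s + μ φ) * F s` for `0 < re s`, extended by the functional equation
(`FEm.fe` holds for `im s ≠ 0`, the rest by continuity, as in `hd_ram`); the growth is `FEm.vert`
for `|im s| ≥ 1` and compactness for `|im s| ≤ 1`.  Nonvanishing on `re s = 1`: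
`Pool.Agent.N784.HC.nv_K`. -/
def SHMhecke : Prop := ∀ (K : Type) [Field K] [NumberField K] [IsTotallyComplex K]
  (n : (K →+* ℂ) → ℕ) (𝔣 : Ideal (𝓞 K)) (ψ : Ideal (𝓞 K) →*₀ ℂ),
  Pool.Agent.N784.HC.CTyp n → n ≠ 0 → 𝔣 ≠ ⊤ → Pool.Agent.N784.HC.IsHecke K 𝔣 n ψ →
    ∃ (μ : (K →+* ℂ) → ℝ) (Λ F : ℂ → ℂ), HM ψ 0 ((∑ φ, (n φ : ℝ)) + 3) μ
      ((Ideal.absNorm 𝔣 * Ideal.absNorm (differentIdeal ℤ (𝓞 K)) : ℕ) : ℝ) Λ F

/-- ORD.  The multiplicity of a zero on the line is small if the zeros are equidistributed.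

Proof.  Let `N` be large (`2/N < ε`, roughly).  The points `j/N`, `|j| ≤ N (T + 1)`, and tent
functions `g_j : ℂ → [0, 1]` which are continuous with support in the closed ball of radius `2/N`
around `1/2 + i j/N` and equal to `1` on the ball of radius `1/N`.  By the hypothesis (for finitely
many `j`) finally `zs (L i) g_j ≤ x i (1/(2π) ∫ g_j + ε/2) ≤ x i ((4/N)/(2π) + ε/2) ≤ ε x i`.
For `|t| ≤ T` there is a `j` with `|t - j/N| ≤ 1/N`, and the indicator of the point `1/2 + i t` is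
at most `g_j`; `zs` is monotone (see `Pool/Agent/H465/EQ`, and `Deg.nz_eq`, `nz_mono` in
`Pool/Agent/H465/PT` for similar arguments; the zero sum is finite on bounded sets). -/
def SOrd : Prop := ∀ (c b : ℝ → ℝ) (ι : Type) (l : Filter ι) (k n : ι → ℕ) (x : ι → ℝ)
  (Λ L : ι → ℂ → ℂ), (∀ i, Deg c b (k i) (n i) (x i) (Λ i) (L i)) → (∀ᶠ i in l, 0 < x i) →
    (∀ g : ℂ → ℝ, Continuous g → HasCompactSupport g →
        Tendsto (fun i => zs (L i) g / x i) l (𝓝 (1 / (2 * Real.pi) * ∫ t : ℝ, g (pt t)))) →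
    ∀ T ε : ℝ, 0 < ε → ∀ᶠ i in l, ∀ t : ℝ, |t| ≤ T →
      (analyticOrderNatAt (L i) (pt t) : ℝ) ≤ ε * x i

end Pool.Agent.H465.CG
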