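import Pool.Agent.H465.CG.Stm
import Pool.Agent.H465.PT.Y
import Pool.Graph.R_seed8.Y773.HG.Defs

/-!
# Project CG (helper465): statements, third part (class group characters, Hilbert class fields)
-/

set_option autoImplicit false

open NumberField IsDedekindDomain

namespace Pool.Agent.H465.CG

open Pool.Agent.Y773 (LI)
open Pool.Agent.Y773.G (IsPrimChar)

section
variable {K : Type} [Field K] [NumberField K]

open Classical in
/-- the twist of `ψ` by a character of the class group -/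
noncomputable def twc (ψ : Ideal (𝓞 K) →*₀ ℂ) (f : ClassGroup (𝓞 K) →* ℂˣ) :
    Ideal (𝓞 K) →*₀ ℂ where
  toFun := fun 𝔞 => if h : 𝔞 = ⊥ then 0 else
    ψ 𝔞 * ((f (ClassGroup.mk0 ⟨𝔞, mem_nonZeroDivisors_iff_ne_zero.mpr h⟩) : ℂˣ) : ℂ)
  map_zero' := dif_pos rfl
  map_one' := by
    rw [dif_neg (by rw [Ideal.one_eq_top]; exact top_ne_bot)]
    have : (⟨1, mem_nonZeroDivisors_iff_ne_zero.mpr
      (by rw [Ideal.one_eq_top]; exact top_ne_bot)⟩ : nonZeroDivisors (Ideal (𝓞 K))) = 1 := rfl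
    rw [this, map_one, map_one, map_one, Units.val_one, mul_one]
  map_mul' := fun 𝔞 𝔟 => by
    by_cases h1 : 𝔞 = ⊥
    · rw [dif_pos h1, dif_pos (by rw [h1, Ideal.bot_mul]), zero_mul]
    · by_cases h2 : 𝔟 = ⊥
      · rw [dif_pos h2, dif_pos (by rw [h2, Ideal.mul_bot]), mul_zero]
      · have h3 : ¬ 𝔞 * 𝔟 = ⊥ := mul_ne_zero h1 h2
        have e : (⟨𝔞 * 𝔟, mem_nonZeroDivisors_iff_ne_zero.mpr h3⟩ : nonZeroDivisors (Ideal (𝓞 K))) =
          ⟨𝔞, mem_nonZeroDivisors_iff_ne_zero.mpr h1⟩ *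
            ⟨𝔟, mem_nonZeroDivisors_iff_ne_zero.mpr h2⟩ := rfl
        rw [dif_neg h1, dif_neg h2, dif_neg h3, e, map_mul, map_mul, map_mul, Units.val_mul]
        ring

lemma twc_apply (ψ : Ideal (𝓞 K) →*₀ ℂ) (f : ClassGroup (𝓞 K) →* ℂˣ) {𝔞 : Ideal (𝓞 K)}
    (h : 𝔞 ≠ ⊥) : twc ψ f 𝔞 =
      ψ 𝔞 * ((f (ClassGroup.mk0 ⟨𝔞, mem_nonZeroDivisors_iff_ne_zero.mpr h⟩) : ℂˣ) : ℂ) :=
  dif_neg h

/-- the class of a prime ideal -/
noncomputable def pcl (v : HeightOneSpectrum (𝓞 K)) : ClassGroup (𝓞 K) :=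
  ClassGroup.mk0 ⟨v.asIdeal, mem_nonZeroDivisors_iff_ne_zero.mpr v.ne_bot⟩

/-- the place `w` of `H` lies above the place `v` of `K` -/
def Above {K H : Type} [Field K] [NumberField K] [Field H] [NumberField H] [Algebra K H]
    (w : HeightOneSpectrum (𝓞 H)) (v : HeightOneSpectrum (𝓞 K)) : Prop :=
  w.asIdeal.comap (algebraMap (𝓞 K) (𝓞 H)) = v.asIdeal

/-- the decomposition law of the Hilbert class field `H` of `K`: above a prime ideal whose class has
order `f` there are `h / f` prime ideals of `H`, of degree `f` -/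
structure IsHilbert (K H : Type) [Field K] [NumberField K] [Field H] [NumberField H]
    [Algebra K H] : Prop where
  deg : ∀ (v : HeightOneSpectrum (𝓞 K)) (w : HeightOneSpectrum (𝓞 H)), Above w v →
    Ideal.absNorm w.asIdeal = Ideal.absNorm v.asIdeal ^ orderOf (pcl v)
  num : ∀ v : HeightOneSpectrum (𝓞 K), orderOf (pcl v) *
    Nat.card {w : HeightOneSpectrum (𝓞 H) // Above w v} = Nat.card (ClassGroup (𝓞 K))

end

/-- UNR.  The unramified characters of a number field without real places are the `h` characters of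
the class group.

Proof.  For `f : ClassGroup (𝓞 K) →* ℂˣ` the function `twc ζ f` (`ζ 𝔞 = 1` for `𝔞 ≠ 0`, for
instance `Pool.Agent.Y773.AB ... psiC f`, see `Pool/Graph/R_seed8/Y773/AB/Chr.lean`) satisfies
`IsPrimChar K ⊤`: every ideal is coprime to `⊤`, `mk0 (x) = 1`, and `𝔤 ∣ ⊤` implies `𝔤 = ⊤`.  The map
is injective (`ClassGroup.mk0_surjective`).  Conversely let `χ` satisfy `IsPrimChar K ⊤`; there are
no real places, so `TPos K x` is always true (`Pool.Agent.Y773.IQ.tpos_all`, or directly), and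
`χ (span {x}) = 1` for `x ≠ 0`.  If `mk0 𝔞 = mk0 𝔟` then `(x) 𝔞 = (y) 𝔟` (`ClassGroup.mk0_eq_mk0_iff`)
and `χ 𝔞 = χ 𝔟`; so `χ` factors through a homomorphism of the class group.  The number of
characters is `h` (`CommGroup.card_monoidHom_of_hasEnoughRootsOfUnity` or
`MulChar`/`card_eq_card_units_of_hasEnoughRootsOfUnity`). -/
def SUnr : Prop := ∀ (K : Type) [Field K] [NumberField K] [IsTotallyComplex K],
  ∃ Ψ : Finset (Ideal (𝓞 K) →*₀ ℂ), (∀ χ, χ ∈ Ψ ↔ IsPrimChar K ⊤ χ) ∧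
    Ψ.card = Nat.card (ClassGroup (𝓞 K)) ∧ ∀ (ζ : Ideal (𝓞 K) →*₀ ℂ), (∀ 𝔞 ≠ ⊥, ζ 𝔞 = 1) →
      ∀ χ, χ ∈ Ψ ↔ ∃ f : ClassGroup (𝓞 K) →* ℂˣ, χ = twc ζ f

/-- INJ.  Twists by different characters of the class group are different.

Proof.  Every class contains an ideal prime to `(m)` (see `cg_surj`, `exists_moving` in
`Pool/Graph/R_seed8/Y773/AB/Chr.lean` and the files it imports; for `m = 1` by
`ClassGroup.mk0_surjective`), and `ψ 𝔞 ≠ 0` for such an ideal. -/
def SInj : Prop := ∀ (K : Type) [Field K] [NumberField K] (m : ℕ), 1 ≤ m →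
  ∀ ψ : Ideal (𝓞 K) →*₀ ℂ,
    (∀ 𝔞 : Ideal (𝓞 K), 𝔞 ≠ ⊥ → (ψ 𝔞 ≠ 0 ↔ IsCoprime 𝔞 (Ideal.span {(m : 𝓞 K)}))) →
    Function.Injective (twc ψ)

/-- HILB.  The Euler product over the primes of the Hilbert class field.

Proof.  Let `X = ψ(v) N(v)^(-s)`, `f` the order of the class of `v`, `h = |Cl|`.  The values `χ(v)` of
the characters `χ` of the class group are the `f`-th roots of unity, each `h / f` times (duality of
finite abelian groups), so `∏_χ (1 - χ(v) X) = (1 - X^f)^(h/f) = ∏_{w above v} (1 - θ(w) N(w)^(-s))`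
(as `N(w) = N(v)^f`, `θ(w) = ψ(v)^f`).  The product of the `h` convergent Euler products
`Pool.Agent.H465.PT.LI_prod` (`LI (twc ψ f) s`, `‖twc ψ f 𝔞‖ ≤ 1`; `HasProd` of a finite product)
is therefore the product over `v` of the finite products over the `w` above `v`.  The product over
all `w` converges (absolutely: `‖θ(w) N(w)^(-s)‖ ≤ N(w)^(-re s)`; `θ w = ψ(v)^f` has absolute value
`≤ 1`; `∑ N(w)^(-σ)` converges for `σ > 1`, compare `Pool.Agent.H465.PT.sum_places` and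
`Pool.Agent.Y772.DK.nr_summable`, and `multipliable_one_add_of_summable` or
`Pool.Agent.Y690.hasProd_ideal`), and can be grouped by `v` (`HasProd.sigma`,
`Equiv.sigmaFiberEquiv`), so its value is the same.  The map `w ↦ v`: the prime ideal
`w.asIdeal.comap _` of `𝓞 K` is nonzero. -/
def SHilb : Prop := ∀ (K H : Type) [Field K] [NumberField K] [Field H] [NumberField H]
  [Algebra K H] [Fintype (ClassGroup (𝓞 K) →* ℂˣ)], IsHilbert K H →
    ∀ ψ : Ideal (𝓞 K) →*₀ ℂ, (∀ 𝔞, ‖ψ 𝔞‖ ≤ 1) → ∀ θ : HeightOneSpectrum (𝓞 H) → ℂ,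
      (∀ v w, Above w v → θ w = ψ v.asIdeal ^ orderOf (pcl v)) →
      ∀ s : ℂ, 1 < s.re → HasProd (fun w : HeightOneSpectrum (𝓞 H) =>
        (1 - θ w * ((Ideal.absNorm w.asIdeal : ℕ) : ℂ) ^ (-s))⁻¹)
          (∏ f : ClassGroup (𝓞 K) →* ℂˣ, LI (twc ψ f) s)

end Pool.Agent.H465.CG
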